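import Mathlib
import Pool.Agent.H362R2.CM.PairAlg

/-! Coloured sets: one colour against the others (helper876). -/

set_option autoImplicit false

namespace Pool.Agent.Y876.AP

open Finset
open Pool.Agent.H410R2
open Pool.Agent.H362R2.CM (YY era ymod era_ne psi_supp)

section
variable {ι J : Type} [Fintype ι] [DecidableEq ι] [Fintype J] [DecidableEq J]

/-- put the colour `j` on `a` -/
def put (j : J) (ρ : ι → Option J) (a : Finset ι) (t : ι) : Option J :=
  if t ∈ a then some j else ρ t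

/-- the elements without colour -/
def free (ρ : ι → Option J) : Finset ι := univ.filter (fun t => ρ t = none)

/-- colourings which avoid `j` -/
def avoid (ι : Type) [Fintype ι] [DecidableEq ι] (j : J) : Finset (ι → Option J) :=
  univ.filter (fun ρ : ι → Option J => ∀ t, ρ t ≠ some j)

theorem mem_avoid {j : J} {ρ : ι → Option J} : ρ ∈ avoid ι j ↔ ∀ t, ρ t ≠ some j := by
  unfold avoid
  simp

theorem mem_free {ρ : ι → Option J} {t : ι} : t ∈ free ρ ↔ ρ t = none := by
  unfold free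
  simp

theorem era_put (j : J) (ρ : ι → Option J) (hρ : ∀ t, ρ t ≠ some j) (a : Finset ι)
    (ha : a ⊆ free ρ) : era j (put j ρ a) = ρ := by
  funext t
  unfold era put
  by_cases ht : t ∈ a
  · rw [if_pos ht, if_pos rfl, mem_free.1 (ha ht)]
  · rw [if_neg ht, if_neg (hρ t)]

theorem fib_put (j : J) (ρ : ι → Option J) (hρ : ∀ t, ρ t ≠ some j) (a : Finset ι) :
    fib (put j ρ a) j = a := by
  ext t
  rw [mem_fib]
  unfold put
  by_cases ht : t ∈ a
  · simp [ht]
  · simp [ht, hρ t]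

theorem put_era (j : J) (σ : ι → Option J) : put j (era j σ) (fib σ j) = σ := by
  funext t
  unfold put era
  by_cases ht : σ t = some j
  · have : t ∈ fib σ j := (mem_fib _ _ _).2 ht
    rw [if_pos this, ht]
  · have : t ∉ fib σ j := fun h => ht ((mem_fib _ _ _).1 h)
    rw [if_neg this, if_neg ht]

theorem fib_sub_free (j : J) (σ : ι → Option J) : fib σ j ⊆ free (era j σ) := by
  intro t ht
  rw [mem_free]
  unfold era
  rw [if_pos ((mem_fib _ _ _).1 ht)]

theorem sum_era (j : J) (Φ : (ι → Option J) → Finset ι → ℝ) :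
    ∑ σ : ι → Option J, Φ (era j σ) (fib σ j) =
      ∑ ρ ∈ avoid ι j, ∑ a ∈ (free ρ).powerset, Φ ρ a := by
  rw [Finset.sum_sigma']
  refine Finset.sum_bij' (fun σ _ => (⟨era j σ, fib σ j⟩ : (_ : ι → Option J) × Finset ι))
    (fun s _ => put j s.1 s.2) ?_ ?_ ?_ ?_ ?_
  · intro σ _
    rw [mem_sigma, mem_powerset]
    exact ⟨mem_avoid.2 (era_ne j σ), fib_sub_free j σ⟩
  · intro s _
    exact mem_univ _
  · intro σ _
    exact put_era j σ
  · rintro ⟨ρ, a⟩ hs
    rw [mem_sigma, mem_powerset] at hs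
    simp only at hs
    have h1 := mem_avoid.1 hs.1
    simp only [era_put j ρ h1 a hs.2, fib_put j ρ h1 a]
  · intro σ _
    rfl

theorem psi_prod (j : J) (pr : ι → ℕ) (σ : ι → Option J) :
    ∏ t, psiL j (pr t) (σ t) (era j σ t) = ∏ t ∈ fib σ j, (1 / ((pr t : ℝ) - 1)) := by
  rw [← Finset.prod_subset (Finset.subset_univ (fib σ j))]
  · refine Finset.prod_congr rfl fun t ht => ?_
    have h := (mem_fib _ _ _).1 ht
    unfold era
    rw [if_pos h, h]
    simp [psiL]
  · intro t _ ht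
    have h : σ t ≠ some j := fun h => ht ((mem_fib _ _ _).2 h)
    unfold era
    rw [if_neg h]
    rcases hs : σ t with _ | l
    · simp [psiL]
    · simp [psiL]

theorem YY_eq (j : J) (pr : ι → ℕ) (y : (ι → Option J) → ℝ) (ρ : ι → Option J)
    (hρ : ∀ t, ρ t ≠ some j) :
    YY j pr y ρ = ∑ a ∈ (free ρ).powerset, (∏ t ∈ a, (1 / ((pr t : ℝ) - 1))) * y (put j ρ a) := by
  have h1 : ∀ Φ : (ι → Option J) → Finset ι → ℝ,
      (∀ ρ' a, Φ ρ' a = if ρ' = ρ then (∏ t ∈ a, (1 / ((pr t : ℝ) - 1))) * y (put j ρ' a) else 0) →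
      YY j pr y ρ = ∑ σ : ι → Option J, Φ (era j σ) (fib σ j) := by
    intro Φ hΦ
    unfold YY
    refine Finset.sum_congr rfl fun σ _ => ?_
    rw [hΦ, put_era]
    by_cases h : era j σ = ρ
    · rw [if_pos h, ← psi_prod, h]
      ring
    · rw [if_neg h]
      have : ∏ t, psiL j (pr t) (σ t) (ρ t) = 0 := by
        by_contra hne
        exact h (psi_supp j pr σ ρ hρ hne)
      rw [this, mul_zero]
  have h2 := h1 (fun ρ' a => if ρ' = ρ then
    (∏ t ∈ a, (1 / ((pr t : ℝ) - 1))) * y (put j ρ' a) else 0) (fun _ _ => rfl)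
  rw [h2, sum_era j (fun ρ' a => if ρ' = ρ then
    (∏ t ∈ a, (1 / ((pr t : ℝ) - 1))) * y (put j ρ' a) else 0)]
  rw [Finset.sum_eq_single ρ]
  · simp
  · intro ρ' _ hne
    exact Finset.sum_eq_zero fun a _ => if_neg hne
  · intro h
    exact absurd (mem_avoid.2 hρ) h

theorem mulc_put (j : J) (pr : ι → ℕ) (h : ℕ → ℝ) (ρ : ι → Option J) (a : Finset ι)
    (ha : a ⊆ free ρ) : mulc pr h (put j ρ a) = mulc pr h ρ * ∏ t ∈ a, h (pr t) := by
  unfold mulc
  have e1 : ∏ t ∈ a, h (pr t) = ∏ t : ι, if t ∈ a then h (pr t) else 1 := by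
    rw [← Finset.prod_subset (Finset.subset_univ a) (f := fun t => if t ∈ a then h (pr t) else 1)
      (fun t _ ht => if_neg ht)]
    exact Finset.prod_congr rfl (fun t ht => (if_pos ht).symm)
  rw [e1, ← Finset.prod_mul_distrib]
  refine Finset.prod_congr rfl fun t _ => ?_
  unfold put
  by_cases ht : t ∈ a
  · have := mem_free.1 (ha ht)
    simp [ht, this]
  · simp [ht]

theorem mulc_split (j : J) (pr : ι → ℕ) (h : ℕ → ℝ) (σ : ι → Option J) :
    mulc pr h σ = mulc pr h (era j σ) * ∏ t ∈ fib σ j, h (pr t) := by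
  conv_lhs => rw [← put_era j σ]
  exact mulc_put j pr h _ _ (fib_sub_free j σ)

/-- sums over the subsets -/
theorem sum_pow_one (S : Finset ι) (h : ι → ℝ) :
    ∑ a ∈ S.powerset, ∏ t ∈ a, h t = ∏ t ∈ S, (1 + h t) :=
  (Finset.prod_one_add S).symm

/-- first moments over the subsets -/
theorem sum_pow_moment (S : Finset ι) (h l q : ι → ℝ) (hh : ∀ t ∈ S, 0 ≤ h t) (hl : ∀ t ∈ S, 0 ≤ l t)
    (hq : ∀ t ∈ S, h t ≤ q t * (1 + h t)) :
    ∑ a ∈ S.powerset, (∏ t ∈ a, h t) * ∑ t ∈ a, l t ≤ (∑ t ∈ S, q t * l t) * ∏ t ∈ S, (1 + h t) := by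
  induction S using Finset.induction_on with
  | empty => simp
  | insert r S hr ih =>
    have ih' := ih (fun t ht => hh t (mem_insert_of_mem ht)) (fun t ht => hl t (mem_insert_of_mem ht))
      (fun t ht => hq t (mem_insert_of_mem ht))
    rw [Finset.sum_powerset_insert hr]
    have e1 : ∑ a ∈ S.powerset, (∏ t ∈ insert r a, h t) * ∑ t ∈ insert r a, l t =
        h r * (∑ a ∈ S.powerset, (∏ t ∈ a, h t) * ∑ t ∈ a, l t) +
          h r * l r * ∏ t ∈ S, (1 + h t) := by
      rw [← sum_pow_one S h, Finset.mul_sum, Finset.mul_sum, ← Finset.sum_add_distrib]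
      refine Finset.sum_congr rfl fun a ha => ?_
      have hra : r ∉ a := fun h' => hr (mem_powerset.1 ha h')
      rw [Finset.prod_insert hra, Finset.sum_insert hra]
      ring
    rw [e1, Finset.sum_insert hr, Finset.prod_insert hr]
    have h0 := hh r (mem_insert_self _ _)
    have h1 := hl r (mem_insert_self _ _)
    have h2 := hq r (mem_insert_self _ _)
    have h3 : 0 ≤ ∏ t ∈ S, (1 + h t) := Finset.prod_nonneg fun t ht => by
      have := hh t (mem_insert_of_mem ht)
      linarith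
    have h4 : h r * l r * ∏ t ∈ S, (1 + h t) ≤ q r * (1 + h r) * l r * ∏ t ∈ S, (1 + h t) := by
      apply mul_le_mul_of_nonneg_right _ h3
      exact mul_le_mul_of_nonneg_right h2 h1
    have h5 : h r * (∑ a ∈ S.powerset, (∏ t ∈ a, h t) * ∑ t ∈ a, l t) ≤
        h r * ((∑ t ∈ S, q t * l t) * ∏ t ∈ S, (1 + h t)) := mul_le_mul_of_nonneg_left ih' h0
    calc _ ≤ (∑ t ∈ S, q t * l t) * ∏ t ∈ S, (1 + h t) +
          (h r * ((∑ t ∈ S, q t * l t) * ∏ t ∈ S, (1 + h t)) +
            q r * (1 + h r) * l r * ∏ t ∈ S, (1 + h t)) := by linarith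
      _ = _ := by ring

end

end Pool.Agent.Y876.AP
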