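import Mathlib
import Pool.Agent.Y876.AP.Era
import Pool.Agent.H410R2.MSieve2

/-! Replacing the weights in one coordinate when the corresponding form has no prime factor among the
sieving primes: the version for the full sum (helper876, after `Pool.Agent.H362R2.CM.sum_ymod`). -/

set_option autoImplicit false

namespace Pool.Agent.Y876.AP

open Finset
open Pool.Agent.H410R2
open Pool.Agent.H362R2.CM (YY era ymod era_ne psi_supp sum_avoid YY_ymod YY_nonneg le_YY)

section
variable {ι J : Type} [Fintype ι] [DecidableEq ι] [Fintype J] [DecidableEq J]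

theorem local_sumN (j : J) (L : J → ℕ → ℕ) (p n : ℕ) (hp : 2 ≤ p)
    (hn : ¬ p ∣ L j n) (u : Option J) :
    ∑ v ∈ univ.filter (fun v : Option J => v ≠ some j), cf p v * hl L p n v * psiL j p u v =
      cf p u * hl L p n u := by
  have hp1 : (p : ℝ) - 1 ≠ 0 := by
    have : (2 : ℝ) ≤ p := by exact_mod_cast hp
    linarith
  rw [Finset.sum_filter, Fintype.sum_option]
  rcases u with _ | l
  · simp [psiL, cf, hl]
  · by_cases hlj : l = j
    · subst hlj
      have h1 : ∑ x : J, (if some x ≠ some l then cf p (some x) * hl L p n (some x) *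
          psiL l p (some l) (some x) else 0) = 0 := by
        apply Finset.sum_eq_zero
        intro x _
        by_cases hx : x = l
        · simp [hx]
        · have : ¬ l = x := fun h => hx h.symm
          simp [psiL, this]
      rw [h1]
      simp [cf, hl, psiL, hn]
    · have h1 : ∑ x : J, (if some x ≠ some j then cf p (some x) * hl L p n (some x) *
          psiL j p (some l) (some x) else 0) = cf p (some l) * hl L p n (some l) := by
        rw [Finset.sum_eq_single l]
        · simp [psiL, hlj]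
        · intro x _ hx
          have : ¬ l = x := fun h => hx h.symm
          simp [psiL, this]
        · intro h; exact absurd (Finset.mem_univ l) h
      rw [h1]
      simp [psiL, hlj]

/-- the weight only depends on the sums over the colour `j` -/
theorem sum_eq_YYN (j : J) (pr : ι → ℕ) (hp : ∀ t, 2 ≤ pr t) (L : J → ℕ → ℕ)
    (n : ℕ) (hn : ∀ t, ¬ pr t ∣ L j n) (y : (ι → Option J) → ℝ) :
    ∑ σ, cw pr y σ * hN L pr σ n =
      ∑ ρ ∈ univ.filter (fun ρ : ι → Option J => ∀ t, ρ t ≠ some j),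
        (∏ t, cf (pr t) (ρ t) * hl L (pr t) n (ρ t)) * YY j pr y ρ := by
  have h1 : ∑ ρ ∈ univ.filter (fun ρ : ι → Option J => ∀ t, ρ t ≠ some j),
        (∏ t, cf (pr t) (ρ t) * hl L (pr t) n (ρ t)) * YY j pr y ρ =
      ∑ τ : ι → Option J, y τ * ∑ ρ ∈ univ.filter (fun ρ : ι → Option J => ∀ t, ρ t ≠ some j),
        ∏ t, (cf (pr t) (ρ t) * hl L (pr t) n (ρ t) * psiL j (pr t) (τ t) (ρ t)) := by
    unfold YY
    simp_rw [Finset.mul_sum]
    rw [Finset.sum_comm]
    refine Finset.sum_congr rfl fun τ _ => Finset.sum_congr rfl fun ρ _ => ?_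
    rw [Finset.prod_mul_distrib (f := fun t => cf (pr t) (ρ t) * hl L (pr t) n (ρ t))]
    ring
  rw [h1]
  refine Finset.sum_congr rfl fun τ _ => ?_
  rw [sum_avoid j (fun t v => cf (pr t) v * hl L (pr t) n v * psiL j (pr t) (τ t) v)]
  rw [Finset.prod_congr rfl fun t _ => local_sumN j L (pr t) n (hp t) (hn t) (τ t)]
  unfold cw hN
  rw [Finset.prod_mul_distrib]
  ring

/-- the two weights agree when `L j n` is free of sieving primes -/
theorem sum_ymodN (j : J) (pr : ι → ℕ) (hp : ∀ t, 2 ≤ pr t) (L : J → ℕ → ℕ)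
    (n : ℕ) (hn : ∀ t, ¬ pr t ∣ L j n) (u y : (ι → Option J) → ℝ)
    (hu : ∀ ρ : ι → Option J, (∀ t, ρ t ≠ some j) → YY j pr u ρ ≠ 0) :
    ∑ σ, cw pr (ymod j pr u y) σ * hN L pr σ n = ∑ σ, cw pr y σ * hN L pr σ n := by
  rw [sum_eq_YYN j pr hp L n hn, sum_eq_YYN j pr hp L n hn]
  refine Finset.sum_congr rfl fun ρ hρ => ?_
  have h := (Finset.mem_filter.1 hρ).2
  rw [YY_ymod j pr u y ρ h (hu ρ h)]

/-- the tent profile in the colour `j` -/
noncomputable def tent (j : J) (pr : ι → ℕ) (Λ : ℝ) (σ : ι → Option J) : ℝ :=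
  max 0 (1 - lg pr (fib σ j) / Λ)

theorem tent_nonneg (j : J) (pr : ι → ℕ) (Λ : ℝ) (σ : ι → Option J) : 0 ≤ tent j pr Λ σ :=
  le_max_left _ _

theorem tent_le_one (j : J) (pr : ι → ℕ) (Λ : ℝ) (hΛ : 0 < Λ) (σ : ι → Option J) :
    tent j pr Λ σ ≤ 1 := by
  unfold tent
  apply max_le zero_le_one
  have : 0 ≤ lg pr (fib σ j) / Λ := div_nonneg (lg_nonneg _ _) hΛ.le
  linarith

theorem tent_avoid (j : J) (pr : ι → ℕ) (Λ : ℝ) (ρ : ι → Option J) (hρ : ∀ t, ρ t ≠ some j) :
    tent j pr Λ ρ = 1 := by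
  unfold tent
  have : fib ρ j = ∅ := by
    apply Finset.eq_empty_of_forall_notMem
    intro t ht
    exact hρ t ((mem_fib _ _ _).1 ht)
  rw [this]
  simp [lg]

theorem YY_tent_pos (j : J) (pr : ι → ℕ) (hp : ∀ t, 2 ≤ pr t) (Λ : ℝ)
    (ρ : ι → Option J) (hρ : ∀ t, ρ t ≠ some j) : 1 ≤ YY j pr (tent j pr Λ) ρ := by
  have h := le_YY j pr hp (tent j pr Λ) (tent_nonneg j pr Λ) ρ
  rwa [tent_avoid j pr Λ ρ hρ] at h

end

end Pool.Agent.Y876.AP
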