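import Mathlib
import Pool.Agent.Y876.AP.Rid

/-! Sums of the tent weights (helper876). -/

set_option autoImplicit false

namespace Pool.Agent.Y876.AP

open Finset
open Pool.Agent.H410R2
open Pool.Agent.H362R2.CM (YY era ymod era_ne psi_supp sum_avoid YY_ymod YY_nonneg le_YY)

/-- `1 / (p - 1)` -/
noncomputable def hz (p : ℕ) : ℝ := 1 / ((p : ℝ) - 1)
/-- `(p - K) / (p - 1) ^ 2` -/
noncomputable def hm (K p : ℕ) : ℝ := ((p : ℝ) - K) / ((p : ℝ) - 1) ^ 2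
/-- `p / (p - 1) ^ 2` -/
noncomputable def hq (p : ℕ) : ℝ := (p : ℝ) / ((p : ℝ) - 1) ^ 2

section one
variable {ι : Type} [Fintype ι] [DecidableEq ι]

/-- the tent function of a set -/
noncomputable def tt (pr : ι → ℕ) (Λ : ℝ) (a : Finset ι) : ℝ := max 0 (1 - lg pr a / Λ)

theorem tt_nonneg (pr : ι → ℕ) (Λ : ℝ) (a : Finset ι) : 0 ≤ tt pr Λ a := le_max_left _ _

theorem tt_le_one (pr : ι → ℕ) (Λ : ℝ) (hΛ : 0 < Λ) (a : Finset ι) : tt pr Λ a ≤ 1 := by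
  unfold tt
  apply max_le zero_le_one
  have : 0 ≤ lg pr a / Λ := div_nonneg (lg_nonneg _ _) hΛ.le
  linarith

theorem le_tt (pr : ι → ℕ) (Λ : ℝ) (a : Finset ι) : 1 - lg pr a / Λ ≤ tt pr Λ a := le_max_right _ _

theorem le_tt_sq (pr : ι → ℕ) (Λ : ℝ) (hΛ : 0 < Λ) (a : Finset ι) :
    1 - 2 * (lg pr a / Λ) ≤ tt pr Λ a ^ 2 := by
  have h0 : 0 ≤ lg pr a / Λ := div_nonneg (lg_nonneg _ _) hΛ.le
  unfold tt
  rcases le_total (1 - lg pr a / Λ) 0 with h | h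
  · rw [max_eq_left h]; nlinarith
  · rw [max_eq_right h]; nlinarith

theorem tt_insert (pr : ι → ℕ) (Λ : ℝ) (hΛ : 0 < Λ) (a : Finset ι) (r : ι) (hr : r ∉ a) :
    tt pr Λ (insert r a) ≤ tt pr Λ a ∧
      tt pr Λ a - tt pr Λ (insert r a) ≤ Real.log (pr r) / Λ := by
  have h1 : lg pr (insert r a) = Real.log (pr r) + lg pr a := by
    unfold lg
    rw [Finset.sum_insert hr]
  have h2 : 0 ≤ Real.log (pr r) / Λ := div_nonneg (Real.log_natCast_nonneg _) hΛ.le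
  have h3 : lg pr (insert r a) / Λ = Real.log (pr r) / Λ + lg pr a / Λ := by rw [h1, add_div]
  unfold tt
  rw [h3]
  constructor
  · apply max_le_max le_rfl
    linarith
  · rcases le_total (1 - lg pr a / Λ) 0 with h | h
    · rw [max_eq_left h]
      have := le_max_left (0 : ℝ) (1 - (Real.log (pr r) / Λ + lg pr a / Λ))
      linarith
    · rw [max_eq_right h]
      have := le_max_right (0 : ℝ) (1 - (Real.log (pr r) / Λ + lg pr a / Λ))
      linarith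

theorem one_le_pr {pr : ι → ℕ} (hp : ∀ t, 2 ≤ pr t) (t : ι) : (1 : ℝ) ≤ (pr t : ℝ) - 1 := by
  have : (2 : ℝ) ≤ pr t := by exact_mod_cast hp t
  linarith

theorem hz_nonneg {pr : ι → ℕ} (hp : ∀ t, 2 ≤ pr t) (t : ι) : 0 ≤ hz (pr t) := by
  have := one_le_pr hp t
  unfold hz
  positivity

theorem tent_upper (pr : ι → ℕ) (hp : ∀ t, 2 ≤ pr t) (Λ : ℝ) (hΛ : 0 < Λ) (S : Finset ι) :
    ∑ a ∈ S.powerset, (∏ t ∈ a, hz (pr t)) * tt pr Λ a ≤ ∏ t ∈ S, (1 + hz (pr t)) := by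
  rw [← sum_pow_one]
  apply Finset.sum_le_sum
  intro a _
  exact mul_le_of_le_one_right (Finset.prod_nonneg fun t _ => hz_nonneg hp t) (tt_le_one pr Λ hΛ a)

theorem tent_lower (pr : ι → ℕ) (hp : ∀ t, 2 ≤ pr t) (Λ : ℝ) (hΛ : 0 < Λ) (θ : ℝ)
    (hθ : ∑ t, Real.log (pr t) / pr t ≤ θ * Λ) (S : Finset ι) :
    (1 - θ) * ∏ t ∈ S, (1 + hz (pr t)) ≤ ∑ a ∈ S.powerset, (∏ t ∈ a, hz (pr t)) * tt pr Λ a := by
  have h1 := sum_pow_moment S (fun t => hz (pr t)) (fun t => Real.log (pr t))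
    (fun t => 1 / (pr t : ℝ)) (fun t _ => hz_nonneg hp t) (fun t _ => Real.log_natCast_nonneg _)
    (fun t _ => by
      have := one_le_pr hp t
      have h2 : (0 : ℝ) < pr t := by linarith
      unfold hz
      apply le_of_eq
      field_simp
      ring)
  have hG : 0 ≤ ∏ t ∈ S, (1 + hz (pr t)) := Finset.prod_nonneg fun t _ => by
    have := hz_nonneg hp t
    linarith
  have h2 : ∑ t ∈ S, 1 / (pr t : ℝ) * Real.log (pr t) ≤ θ * Λ := by
    refine le_trans (Finset.sum_le_sum_of_subset_of_nonneg (Finset.subset_univ S) fun t _ _ => ?_)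
      (le_trans (le_of_eq ?_) hθ)
    · have := Real.log_natCast_nonneg (pr t)
      positivity
    · refine Finset.sum_congr rfl fun t _ => ?_
      ring
  have h3 : ∑ a ∈ S.powerset, (∏ t ∈ a, hz (pr t)) * (1 - lg pr a / Λ) ≤
      ∑ a ∈ S.powerset, (∏ t ∈ a, hz (pr t)) * tt pr Λ a :=
    Finset.sum_le_sum fun a _ => mul_le_mul_of_nonneg_left (le_tt pr Λ a)
      (Finset.prod_nonneg fun t _ => hz_nonneg hp t)
  refine le_trans ?_ h3
  have h4 : ∑ a ∈ S.powerset, (∏ t ∈ a, hz (pr t)) * (1 - lg pr a / Λ) =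
      ∏ t ∈ S, (1 + hz (pr t)) - (∑ a ∈ S.powerset, (∏ t ∈ a, hz (pr t)) *
        ∑ t ∈ a, Real.log (pr t)) / Λ := by
    rw [← sum_pow_one, Finset.sum_div, ← Finset.sum_sub_distrib]
    refine Finset.sum_congr rfl fun a _ => ?_
    unfold lg
    ring
  rw [h4]
  have h5 : (∑ a ∈ S.powerset, (∏ t ∈ a, hz (pr t)) * ∑ t ∈ a, Real.log (pr t)) / Λ ≤
      θ * ∏ t ∈ S, (1 + hz (pr t)) := by
    rw [div_le_iff₀ hΛ]
    calc _ ≤ (∑ t ∈ S, 1 / (pr t : ℝ) * Real.log (pr t)) * ∏ t ∈ S, (1 + hz (pr t)) := h1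
      _ ≤ (θ * Λ) * ∏ t ∈ S, (1 + hz (pr t)) := mul_le_mul_of_nonneg_right h2 hG
      _ = _ := by ring
  linarith

theorem hm_nonneg {K : ℕ} {pr : ι → ℕ} (hp : ∀ t, 2 ≤ pr t) (hK : ∀ t, K ≤ pr t) (t : ι) :
    0 ≤ hm K (pr t) := by
  have h1 := one_le_pr hp t
  have h2 : (K : ℝ) ≤ pr t := by exact_mod_cast hK t
  unfold hm
  apply div_nonneg (by linarith) (by positivity)

theorem tent2_lower (pr : ι → ℕ) (hp : ∀ t, 2 ≤ pr t) (K : ℕ) (hK1 : 1 ≤ K) (hK : ∀ t, K ≤ pr t)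
    (Λ : ℝ) (hΛ : 0 < Λ) (θ : ℝ)
    (hθ : ∑ t, Real.log (pr t) / pr t ≤ θ * Λ) (S : Finset ι) :
    (1 - 2 * θ) * ∏ t ∈ S, (1 + hm K (pr t)) ≤
      ∑ a ∈ S.powerset, (∏ t ∈ a, hm K (pr t)) * tt pr Λ a ^ 2 := by
  have h1 := sum_pow_moment S (fun t => hm K (pr t)) (fun t => Real.log (pr t))
    (fun t => 1 / (pr t : ℝ)) (fun t _ => hm_nonneg hp hK t) (fun t _ => Real.log_natCast_nonneg _)
    (fun t _ => by
      have h2 := one_le_pr hp t
      have h3 : (0 : ℝ) < pr t := by linarith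
      have h4 : (1 : ℝ) ≤ K := by exact_mod_cast hK1
      have h7 : (0 : ℝ) < ((pr t : ℝ) - 1) ^ 2 := by positivity
      have h8 : 1 / (pr t : ℝ) * (1 + hm K (pr t)) =
          (((pr t : ℝ) - 1) ^ 2 + ((pr t : ℝ) - K)) / ((pr t : ℝ) * ((pr t : ℝ) - 1) ^ 2) := by
        unfold hm
        have h9 : ((pr t : ℝ) - 1) ≠ 0 := by linarith
        field_simp
      rw [h8]
      unfold hm
      rw [div_le_div_iff₀ h7 (by positivity)]
      have h5 : ((pr t : ℝ) - K) * pr t ≤ ((pr t : ℝ) - 1) ^ 2 + ((pr t : ℝ) - K) := by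
        nlinarith [mul_nonneg (sub_nonneg.2 h2) (sub_nonneg.2 h4)]
      calc ((pr t : ℝ) - K) * ((pr t : ℝ) * ((pr t : ℝ) - 1) ^ 2) =
          (((pr t : ℝ) - K) * pr t) * ((pr t : ℝ) - 1) ^ 2 := by ring
        _ ≤ _ := mul_le_mul_of_nonneg_right h5 h7.le)
  have hG : 0 ≤ ∏ t ∈ S, (1 + hm K (pr t)) := Finset.prod_nonneg fun t _ => by
    have := hm_nonneg hp hK t
    linarith
  have h2 : ∑ t ∈ S, 1 / (pr t : ℝ) * Real.log (pr t) ≤ θ * Λ := by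
    refine le_trans (Finset.sum_le_sum_of_subset_of_nonneg (Finset.subset_univ S) fun t _ _ => ?_)
      (le_trans (le_of_eq ?_) hθ)
    · have := Real.log_natCast_nonneg (pr t)
      positivity
    · refine Finset.sum_congr rfl fun t _ => ?_
      ring
  have h3 : ∑ a ∈ S.powerset, (∏ t ∈ a, hm K (pr t)) * (1 - 2 * (lg pr a / Λ)) ≤
      ∑ a ∈ S.powerset, (∏ t ∈ a, hm K (pr t)) * tt pr Λ a ^ 2 :=
    Finset.sum_le_sum fun a _ => mul_le_mul_of_nonneg_left (le_tt_sq pr Λ hΛ a)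
      (Finset.prod_nonneg fun t _ => hm_nonneg hp hK t)
  refine le_trans ?_ h3
  have h4 : ∑ a ∈ S.powerset, (∏ t ∈ a, hm K (pr t)) * (1 - 2 * (lg pr a / Λ)) =
      ∏ t ∈ S, (1 + hm K (pr t)) - 2 * ((∑ a ∈ S.powerset, (∏ t ∈ a, hm K (pr t)) *
        ∑ t ∈ a, Real.log (pr t)) / Λ) := by
    rw [← sum_pow_one, Finset.sum_div, Finset.mul_sum, ← Finset.sum_sub_distrib]
    refine Finset.sum_congr rfl fun a _ => ?_
    unfold lg
    ring
  rw [h4]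
  have h5 : (∑ a ∈ S.powerset, (∏ t ∈ a, hm K (pr t)) * ∑ t ∈ a, Real.log (pr t)) / Λ ≤
      θ * ∏ t ∈ S, (1 + hm K (pr t)) := by
    rw [div_le_iff₀ hΛ]
    calc _ ≤ (∑ t ∈ S, 1 / (pr t : ℝ) * Real.log (pr t)) * ∏ t ∈ S, (1 + hm K (pr t)) := h1
      _ ≤ (θ * Λ) * ∏ t ∈ S, (1 + hm K (pr t)) := mul_le_mul_of_nonneg_right h2 hG
      _ = _ := by ring
  linarith

/-- the correction factor -/
noncomputable def kap (K : ℕ) (pr : ι → ℕ) : ℝ := ∏ t, (1 + (K : ℝ) / ((pr t : ℝ) - 1) ^ 2)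

theorem prod_le_kap (K : ℕ) (pr : ι → ℕ) (S : Finset ι) (f g : ι → ℝ)
    (hf : ∀ t ∈ S, 0 ≤ f t) (hg : ∀ t ∈ S, 0 ≤ g t)
    (h : ∀ t ∈ S, f t ≤ (1 + (K : ℝ) / ((pr t : ℝ) - 1) ^ 2) * g t) :
    ∏ t ∈ S, f t ≤ kap K pr * ∏ t ∈ S, g t := by
  calc ∏ t ∈ S, f t ≤ ∏ t ∈ S, ((1 + (K : ℝ) / ((pr t : ℝ) - 1) ^ 2) * g t) :=
        Finset.prod_le_prod hf h
    _ = (∏ t ∈ S, (1 + (K : ℝ) / ((pr t : ℝ) - 1) ^ 2)) * ∏ t ∈ S, g t := Finset.prod_mul_distrib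
    _ ≤ kap K pr * ∏ t ∈ S, g t := by
        apply mul_le_mul_of_nonneg_right _ (Finset.prod_nonneg hg)
        unfold kap
        have h0 : ∀ t, (0 : ℝ) ≤ (K : ℝ) / ((pr t : ℝ) - 1) ^ 2 := fun t => by positivity
        have h1 : ∏ t ∈ S, (1 + (K : ℝ) / ((pr t : ℝ) - 1) ^ 2) =
            ∏ t : ι, if t ∈ S then (1 + (K : ℝ) / ((pr t : ℝ) - 1) ^ 2) else 1 := by
          rw [← Finset.prod_subset (Finset.subset_univ S)
            (f := fun t => if t ∈ S then (1 + (K : ℝ) / ((pr t : ℝ) - 1) ^ 2) else 1)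
            (fun t _ ht => if_neg ht)]
          exact Finset.prod_congr rfl fun t ht => (if_pos ht).symm
        rw [h1]
        apply Finset.prod_le_prod
        · intro t _
          have := h0 t
          split_ifs <;> linarith
        · intro t _
          have := h0 t
          split_ifs <;> linarith

end one

end Pool.Agent.Y876.AP
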