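import Mathlib
import Pool.Agent.Y876.AP.Bas

/-! The main terms of the lower bound for rough values of one form (helper876). -/

set_option autoImplicit false

namespace Pool.Agent.Y876.AP

open Finset
open Pool.Agent.H410R2
open Pool.Agent.H362R2.CM (YY era ymod era_ne psi_supp sum_avoid YY_ymod YY_nonneg le_YY)

section
variable {ι J : Type} [Fintype ι] [DecidableEq ι] [Fintype J] [DecidableEq J]

/-- hypotheses on the weights -/
structure YHyp (pr : ι → ℕ) (y : (ι → Option J) → ℝ) (R' : ℝ) : Prop where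
  nonneg : ∀ σ, 0 ≤ y σ
  le_one : ∀ σ, y σ ≤ 1
  anti : ∀ σ σ' : ι → Option J, (∀ t, σ' t = none ∨ σ' t = σ t) → y σ ≤ y σ'
  supp : ∀ σ, y σ ≠ 0 → lgt pr σ ≤ R'

/-- the quotient -/
noncomputable def RR (j : J) (pr : ι → ℕ) (Λ : ℝ) (y : (ι → Option J) → ℝ) (ρ : ι → Option J) : ℝ :=
  YY j pr y ρ / YY j pr (tent j pr Λ) ρ

/-- the product over all the sieving primes -/
noncomputable def Gt (pr : ι → ℕ) : ℝ := ∏ t, ((pr t : ℝ) / ((pr t : ℝ) - 1))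

theorem Gt_pos {pr : ι → ℕ} (hp : ∀ t, 2 ≤ pr t) : 0 < Gt pr := by
  unfold Gt
  apply Finset.prod_pos
  intro t _
  have := one_le_pr hp t
  apply div_pos <;> linarith

theorem gfree (pr : ι → ℕ) (hp : ∀ t, 2 ≤ pr t) (ρ : ι → Option J) :
    mulc pr (fun p => (p : ℝ) / ((p : ℝ) - 1)) ρ * ∏ t ∈ free ρ, (1 + hz (pr t)) = Gt pr := by
  have h1 : ∏ t ∈ free ρ, (1 + hz (pr t)) =
      ∏ t, (if ρ t = none then ((pr t : ℝ) / ((pr t : ℝ) - 1)) else 1) := by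
    unfold free
    rw [Finset.prod_filter]
    refine Finset.prod_congr rfl fun t _ => ?_
    split_ifs
    · have := one_le_pr hp t
      unfold hz
      field_simp
      ring
    · rfl
  rw [h1]
  unfold mulc Gt
  rw [← Finset.prod_mul_distrib]
  refine Finset.prod_congr rfl fun t _ => ?_
  split_ifs <;> ring

theorem YYtent_eq (j : J) (pr : ι → ℕ) (Λ : ℝ) (ρ : ι → Option J) (hρ : ∀ t, ρ t ≠ some j) :
    YY j pr (tent j pr Λ) ρ = ∑ a ∈ (free ρ).powerset, (∏ t ∈ a, hz (pr t)) * tt pr Λ a := by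
  rw [YY_eq j pr _ ρ hρ]
  refine Finset.sum_congr rfl fun a _ => ?_
  have h : tent j pr Λ (put j ρ a) = tt pr Λ a := by
    unfold tent tt
    rw [fib_put j ρ hρ]
  rw [h]
  rfl

theorem free_pos {pr : ι → ℕ} (hp : ∀ t, 2 ≤ pr t) (ρ : ι → Option J) :
    0 < ∏ t ∈ free ρ, (1 + hz (pr t)) := by
  apply Finset.prod_pos
  intro t _
  have := hz_nonneg hp t
  linarith

theorem YYtent_le (j : J) (pr : ι → ℕ) (hp : ∀ t, 2 ≤ pr t) (Λ : ℝ) (hΛ : 0 < Λ)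
    (ρ : ι → Option J) (hρ : ∀ t, ρ t ≠ some j) :
    YY j pr (tent j pr Λ) ρ ≤ ∏ t ∈ free ρ, (1 + hz (pr t)) := by
  rw [YYtent_eq j pr Λ ρ hρ]
  exact tent_upper pr hp Λ hΛ _

theorem YYtent_ge (j : J) (pr : ι → ℕ) (hp : ∀ t, 2 ≤ pr t) (Λ : ℝ) (hΛ : 0 < Λ) (θ : ℝ)
    (hθ : ∑ t, Real.log (pr t) / pr t ≤ θ * Λ)
    (ρ : ι → Option J) (hρ : ∀ t, ρ t ≠ some j) :
    (1 - θ) * ∏ t ∈ free ρ, (1 + hz (pr t)) ≤ YY j pr (tent j pr Λ) ρ := by
  rw [YYtent_eq j pr Λ ρ hρ]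
  exact tent_lower pr hp Λ hΛ θ hθ _

theorem mulc_nonneg' (pr : ι → ℕ) (h : ℕ → ℝ) (hh : ∀ t, 0 ≤ h (pr t)) (ρ : ι → Option J) :
    0 ≤ mulc pr h ρ := by
  unfold mulc
  apply Finset.prod_nonneg
  intro t _
  split_ifs
  · norm_num
  · exact hh t

theorem mulc_mul (pr : ι → ℕ) (f g : ℕ → ℝ) (ρ : ι → Option J) :
    mulc pr (fun p => f p * g p) ρ = mulc pr f ρ * mulc pr g ρ := by
  unfold mulc
  rw [← Finset.prod_mul_distrib]
  refine Finset.prod_congr rfl fun t _ => ?_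
  split_ifs <;> simp

/-- first main term -/
theorem main1 (j : J) (pr : ι → ℕ) (hp : ∀ t, 2 ≤ pr t) (hK : ∀ t, Fintype.card J ≤ pr t)
    (Λ : ℝ) (hΛ : 0 < Λ) (θ : ℝ) (hθ0 : 0 ≤ θ) (hθ1 : θ ≤ 1 / 4)
    (hθ : ∑ t, Real.log (pr t) / pr t ≤ θ * Λ) (y : (ι → Option J) → ℝ) (hy : ∀ σ, 0 ≤ y σ) :
    (1 - 2 * θ) / kap (Fintype.card J) pr / Gt pr *
      ∑ ρ ∈ avoid ι j, YY j pr y ρ ^ 2 *
        mulc pr (fun p => hm (Fintype.card J) p * ((p : ℝ) / ((p : ℝ) - 1))) ρ ≤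
      ∑ σ : ι → Option J, ymod j pr (tent j pr Λ) y σ ^ 2 * mulc pr (hm (Fintype.card J)) σ := by
  set K := Fintype.card J with hKd
  have hK1 : 1 ≤ K := Fintype.card_pos_iff.2 ⟨j⟩
  have hmn : ∀ t, 0 ≤ hm K (pr t) := fun t => hm_nonneg hp hK t
  have h1 : ∑ σ : ι → Option J, ymod j pr (tent j pr Λ) y σ ^ 2 * mulc pr (hm K) σ =
      ∑ ρ ∈ avoid ι j, ∑ a ∈ (free ρ).powerset,
        RR j pr Λ y ρ ^ 2 * mulc pr (hm K) ρ * ((∏ t ∈ a, hm K (pr t)) * tt pr Λ a ^ 2) := by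
    rw [← sum_era j (fun ρ a => RR j pr Λ y ρ ^ 2 * mulc pr (hm K) ρ *
      ((∏ t ∈ a, hm K (pr t)) * tt pr Λ a ^ 2))]
    refine Finset.sum_congr rfl fun σ _ => ?_
    rw [mulc_split j pr (hm K) σ]
    unfold ymod RR tent tt
    ring
  rw [h1, Finset.mul_sum]
  apply Finset.sum_le_sum
  intro ρ hρ
  have hρ' := mem_avoid.1 hρ
  rw [← Finset.mul_sum]
  set G := ∏ t ∈ free ρ, (1 + hz (pr t)) with hG
  set Gm := ∏ t ∈ free ρ, (1 + hm K (pr t)) with hGm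
  have hGp : 0 < G := free_pos hp ρ
  have hκp : 0 < kap K pr := by
    unfold kap
    apply Finset.prod_pos
    intro t _
    positivity
  have h2 := tent2_lower pr hp K hK1 hK Λ hΛ θ hθ (free ρ)
  have h3 : G ≤ kap K pr * Gm := by
    apply prod_le_kap K pr (free ρ)
    · intro t _
      have := hz_nonneg hp t
      linarith
    · intro t _
      have := hmn t
      linarith
    · intro t _
      have h4 := one_le_pr hp t
      have h5 := hmn t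
      have h6 : hz (pr t) - hm K (pr t) ≤ (K : ℝ) / ((pr t : ℝ) - 1) ^ 2 := by
        unfold hz hm
        rw [div_sub_div _ _ (by positivity) (by positivity), div_le_div_iff₀ (by positivity) (by positivity)]
        have h7 : (0 : ℝ) < (pr t : ℝ) - 1 := by linarith
        have h8 : (1 : ℝ) ≤ K := by exact_mod_cast hK1
        have h9 : 0 ≤ ((pr t : ℝ) - 1) ^ 3 := by positivity
        nlinarith
      have h7 : 0 ≤ (K : ℝ) / ((pr t : ℝ) - 1) ^ 2 := by positivity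
      nlinarith
  have hU0 : 0 < YY j pr (tent j pr Λ) ρ := by
    have := YY_tent_pos j pr hp Λ ρ hρ'
    linarith
  have hU1 := YYtent_le j pr hp Λ hΛ ρ hρ'
  have hgf := gfree pr hp ρ
  rw [← hG] at hU1 hgf
  have hGtp := Gt_pos hp
  -- compare
  have h4 : YY j pr y ρ ^ 2 / G ≤ RR j pr Λ y ρ ^ 2 * G := by
    unfold RR
    rw [div_pow, div_mul_eq_mul_div, div_le_div_iff₀ hGp (by positivity)]
    have h5 : YY j pr (tent j pr Λ) ρ ^ 2 ≤ G ^ 2 := by gcongr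
    have h6 : 0 ≤ YY j pr y ρ ^ 2 := sq_nonneg _
    nlinarith [mul_le_mul_of_nonneg_left h5 h6]
  have h5 : mulc pr (fun p => hm K p * ((p : ℝ) / ((p : ℝ) - 1))) ρ =
      mulc pr (hm K) ρ * (Gt pr / G) := by
    rw [mulc_mul, ← hgf]
    field_simp
  have hmc : 0 ≤ mulc pr (hm K) ρ := mulc_nonneg' pr _ hmn ρ
  rw [h5]
  calc (1 - 2 * θ) / kap K pr / Gt pr * (YY j pr y ρ ^ 2 * (mulc pr (hm K) ρ * (Gt pr / G)))
      = (1 - 2 * θ) / kap K pr * mulc pr (hm K) ρ * (YY j pr y ρ ^ 2 / G) := by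
        field_simp
    _ ≤ (1 - 2 * θ) / kap K pr * mulc pr (hm K) ρ * (RR j pr Λ y ρ ^ 2 * G) := by
        apply mul_le_mul_of_nonneg_left h4
        apply mul_nonneg _ hmc
        apply div_nonneg _ hκp.le
        linarith
    _ = RR j pr Λ y ρ ^ 2 * mulc pr (hm K) ρ * ((1 - 2 * θ) * (G / kap K pr)) := by ring
    _ ≤ RR j pr Λ y ρ ^ 2 * mulc pr (hm K) ρ * ((1 - 2 * θ) * Gm) := by
        apply mul_le_mul_of_nonneg_left _ (mul_nonneg (sq_nonneg _) hmc)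
        apply mul_le_mul_of_nonneg_left _ (by linarith)
        rw [div_le_iff₀ hκp]
        linarith
    _ ≤ _ := mul_le_mul_of_nonneg_left h2 (mul_nonneg (sq_nonneg _) hmc)

/-- second main term -/
theorem main2 (j : J) (pr : ι → ℕ) (hp : ∀ t, 2 ≤ pr t)
    (Λ : ℝ) (hΛ : 0 < Λ) (θ : ℝ) (hθ0 : 0 ≤ θ) (hθ1 : θ ≤ 1 / 4)
    (hθ : ∑ t, Real.log (pr t) / pr t ≤ θ * Λ) (y : (ι → Option J) → ℝ) (hy : ∀ σ, 0 ≤ y σ) :
    ∑ σ : ι → Option J, RR j pr Λ y (era j σ) ^ 2 * mulc pr hq σ ≤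
      kap (Fintype.card J) pr / (1 - θ) ^ 2 / Gt pr *
      ∑ ρ ∈ avoid ι j, YY j pr y ρ ^ 2 * mulc pr (fun p => hq p * ((p : ℝ) / ((p : ℝ) - 1))) ρ := by
  set K := Fintype.card J with hKd
  have hK1 : 1 ≤ K := Fintype.card_pos_iff.2 ⟨j⟩
  have hqn : ∀ t, 0 ≤ hq (pr t) := fun t => by
    have := one_le_pr hp t
    unfold hq
    apply div_nonneg (by linarith) (by positivity)
  have h1 : ∑ σ : ι → Option J, RR j pr Λ y (era j σ) ^ 2 * mulc pr hq σ =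
      ∑ ρ ∈ avoid ι j, ∑ a ∈ (free ρ).powerset,
        RR j pr Λ y ρ ^ 2 * mulc pr hq ρ * (∏ t ∈ a, hq (pr t)) := by
    rw [← sum_era j (fun ρ a => RR j pr Λ y ρ ^ 2 * mulc pr hq ρ * (∏ t ∈ a, hq (pr t)))]
    refine Finset.sum_congr rfl fun σ _ => ?_
    rw [mulc_split j pr hq σ]
    ring
  rw [h1, Finset.mul_sum]
  apply Finset.sum_le_sum
  intro ρ hρ
  have hρ' := mem_avoid.1 hρ
  rw [← Finset.mul_sum, sum_pow_one]
  set G := ∏ t ∈ free ρ, (1 + hz (pr t)) with hG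
  set Gq := ∏ t ∈ free ρ, (1 + hq (pr t)) with hGq
  have hGp : 0 < G := free_pos hp ρ
  have h3 : Gq ≤ kap K pr * G := by
    apply prod_le_kap K pr (free ρ)
    · intro t _
      have := hqn t
      linarith
    · intro t _
      have := hz_nonneg hp t
      linarith
    · intro t _
      have h4 := one_le_pr hp t
      have h5 := hz_nonneg hp t
      have h6 : hq (pr t) - hz (pr t) ≤ (K : ℝ) / ((pr t : ℝ) - 1) ^ 2 := by
        unfold hz hq
        rw [div_sub_div _ _ (by positivity) (by positivity), div_le_div_iff₀ (by positivity) (by positivity)]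
        have h7 : (0 : ℝ) < (pr t : ℝ) - 1 := by linarith
        have h8 : (1 : ℝ) ≤ K := by exact_mod_cast hK1
        have h9 : 0 ≤ ((pr t : ℝ) - 1) ^ 3 := by positivity
        nlinarith
      have h7 : 0 ≤ (K : ℝ) / ((pr t : ℝ) - 1) ^ 2 := by positivity
      nlinarith
  have hU1 := YYtent_ge j pr hp Λ hΛ θ hθ ρ hρ'
  have hgf := gfree pr hp ρ
  rw [← hG] at hU1 hgf
  have hGtp := Gt_pos hp
  have hθp : 0 < 1 - θ := by linarith
  have hUp : 0 < YY j pr (tent j pr Λ) ρ := lt_of_lt_of_le (by positivity) hU1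
  have h4 : RR j pr Λ y ρ ^ 2 * G ≤ YY j pr y ρ ^ 2 / ((1 - θ) ^ 2 * G) := by
    unfold RR
    rw [div_pow, div_mul_eq_mul_div, div_le_div_iff₀ (by positivity) (by positivity)]
    have h5 : ((1 - θ) * G) ^ 2 ≤ YY j pr (tent j pr Λ) ρ ^ 2 := by gcongr
    have h6 : 0 ≤ YY j pr y ρ ^ 2 := sq_nonneg _
    nlinarith [mul_le_mul_of_nonneg_left h5 h6]
  have h5 : mulc pr (fun p => hq p * ((p : ℝ) / ((p : ℝ) - 1))) ρ =
      mulc pr hq ρ * (Gt pr / G) := by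
    rw [mulc_mul, ← hgf]
    field_simp
  have hmc : 0 ≤ mulc pr hq ρ := mulc_nonneg' pr _ hqn ρ
  have hκp : 0 < kap K pr := by
    unfold kap
    apply Finset.prod_pos
    intro t _
    positivity
  rw [h5]
  calc RR j pr Λ y ρ ^ 2 * mulc pr hq ρ * Gq
      ≤ RR j pr Λ y ρ ^ 2 * mulc pr hq ρ * (kap K pr * G) :=
        mul_le_mul_of_nonneg_left h3 (mul_nonneg (sq_nonneg _) hmc)
    _ = kap K pr * mulc pr hq ρ * (RR j pr Λ y ρ ^ 2 * G) := by ring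
    _ ≤ kap K pr * mulc pr hq ρ * (YY j pr y ρ ^ 2 / ((1 - θ) ^ 2 * G)) :=
        mul_le_mul_of_nonneg_left h4 (mul_nonneg hκp.le hmc)
    _ = _ := by
        field_simp

end

end Pool.Agent.Y876.AP
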