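import Mathlib
import Pool.Agent.H361R2.T1

/-! Lower bound for the sieve sum over an arithmetic progression (helper876); the proof follows that of
`Pool.Agent.H361R2.s1Upper` of the starting files. -/

set_option autoImplicit false

namespace Pool.Agent.Y876.AP

open Finset Pool.Agent.H410R2 Pool.Agent.H361R2

section
variable {ι J : Type} [Fintype ι] [DecidableEq ι] [Fintype J] [DecidableEq J]

/-- diagonal minorant -/
noncomputable def D0 (J : Type) [Fintype J] (p : ℕ) : Option J → ℝ
  | none => 1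
  | some _ => (p : ℝ) - Fintype.card J

theorem isGram_D0 (p : ℕ) (hp : Fintype.card J ≤ p) :
    IsGram (fun a b : Option J => if a = b then D0 J p a else 0) := by
  apply IsGram.diag
  rintro (_ | j)
  · simp [D0]
  · have : (Fintype.card J : ℝ) ≤ p := by exact_mod_cast hp
    simp only [D0]
    linarith

theorem isGram_G1_sub_D0 (p : ℕ) : IsGram (fun a b : Option J =>
    G1 p a b - (if a = b then D0 J p a else 0)) := by
  -- `|J| δ - 1 = (1 / 2) ∑_{u, v} f_{uv} ⊗ f_{uv}`
  have h1 : IsGram (fun a b : Option J => (1 / 2 : ℝ) * ∑ u : J × J,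
      ((if a = some u.1 then (1 : ℝ) else 0) - (if a = some u.2 then (1 : ℝ) else 0)) *
        ((if b = some u.1 then (1 : ℝ) else 0) - (if b = some u.2 then (1 : ℝ) else 0))) := by
    apply IsGram.smul _ (by norm_num)
    apply IsGram.sum
    intro u _
    exact IsGram.rankOne _
  refine h1.congr ?_
  have key : ∀ a b : Option J, ∑ u : J × J,
      ((if a = some u.1 then (1 : ℝ) else 0) - (if a = some u.2 then (1 : ℝ) else 0)) *
        ((if b = some u.1 then (1 : ℝ) else 0) - (if b = some u.2 then (1 : ℝ) else 0)) =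
      2 * ((Fintype.card J : ℝ) * (∑ u : J, (if a = some u then (1 : ℝ) else 0) *
        (if b = some u then (1 : ℝ) else 0)) -
        (∑ u : J, (if a = some u then (1 : ℝ) else 0)) * ∑ v : J, (if b = some v then (1 : ℝ) else 0)) := by
    intro a b
    rw [Fintype.sum_prod_type]
    simp only [sub_mul, mul_sub, Finset.sum_sub_distrib]
    have e1 : ∑ x : J, ∑ _y : J, (if a = some x then (1 : ℝ) else 0) * (if b = some x then (1 : ℝ) else 0) =
        (Fintype.card J : ℝ) * ∑ u : J, (if a = some u then (1 : ℝ) else 0) *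
        (if b = some u then (1 : ℝ) else 0) := by
      simp only [Finset.sum_const, Finset.card_univ, nsmul_eq_mul]
      rw [← Finset.mul_sum]
    have e2 : ∑ x : J, ∑ y : J, (if a = some x then (1 : ℝ) else 0) * (if b = some y then (1 : ℝ) else 0) =
        (∑ u : J, (if a = some u then (1 : ℝ) else 0)) * ∑ v : J, (if b = some v then (1 : ℝ) else 0) := by
      rw [Finset.sum_mul_sum]
    have e3 : ∑ x : J, ∑ y : J, (if a = some y then (1 : ℝ) else 0) * (if b = some x then (1 : ℝ) else 0) =
        (∑ u : J, (if a = some u then (1 : ℝ) else 0)) * ∑ v : J, (if b = some v then (1 : ℝ) else 0) := by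
      rw [Finset.sum_mul_sum, Finset.sum_comm]
    have e4 : ∑ _x : J, ∑ y : J, (if a = some y then (1 : ℝ) else 0) * (if b = some y then (1 : ℝ) else 0) =
        (Fintype.card J : ℝ) * ∑ u : J, (if a = some u then (1 : ℝ) else 0) *
        (if b = some u then (1 : ℝ) else 0) := by
      rw [Finset.sum_const, Finset.card_univ, nsmul_eq_mul]
    rw [e1, e2, e3, e4]
    ring
  intro a b
  rw [key]
  rcases a with _ | j <;> rcases b with _ | l
  · simp [G1, D0]
  · simp [G1]
  · simp [G1]
  · by_cases h : j = l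
    · subst h
      simp [G1, D0]
    · have h' : ¬ (some j : Option J) = some l := fun h' => h (Option.some.inj h')
      have e : ∑ u : J, (if (some j : Option J) = some u then (1 : ℝ) else 0) *
          (if (some l : Option J) = some u then (1 : ℝ) else 0) = 0 := by
        apply Finset.sum_eq_zero
        intro u _
        by_cases hu : j = u
        · have : ¬ l = u := fun hl => h (hu.trans hl.symm)
          simp [this]
        · simp [hu]
      rw [e, if_neg h']
      simp [G1, h]

end

open Classical in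
/-- lower bound for the sieve sum over an arithmetic progression -/
theorem s1Lower (ι J : Type) [Fintype ι] [Fintype J]
    (pr : ι → ℕ) (L : J → ℕ → ℕ) (m v : ℕ) (hm : 1 ≤ m) (hS : SieveData ι J pr L m)
    (hJ : ∀ t, Fintype.card J ≤ pr t)
    (c : (ι → Option J) → ℝ) (x : ℝ) (hx : 1 ≤ x) :
    x / m * ∑ σ, c σ ^ 2 * mulc pr (fun p => (p : ℝ) - Fintype.card J) σ -
        (Real.log x + 1) * (∑ σ, |c σ| * mulc pr (fun p => (p : ℝ) + 1) σ) ^ 2 ≤
      ∑ n ∈ (Icc 1 ⌊x⌋₊).filter (fun n => n ≡ v [MOD m]),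
        Real.log (x / n) * (∑ σ, c σ * hN L pr σ n) ^ 2 := by
  have hlog : 0 ≤ Real.log x := Real.log_nonneg hx
  -- expand the square
  have hexp : ∀ n, (∑ σ, c σ * hN L pr σ n) ^ 2 = ∑ σ, ∑ τ, c σ * c τ *
      ∏ t, (∑ o, cc (pr t) (σ t) (τ t) o * ind L (pr t) n o) := by
    intro n
    rw [sq, Finset.sum_mul_sum]
    apply Finset.sum_congr rfl; intro σ _
    apply Finset.sum_congr rfl; intro τ _
    have : hN L pr σ n * hN L pr τ n =
        ∏ t, (∑ o, cc (pr t) (σ t) (τ t) o * ind L (pr t) n o) := by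
      unfold hN
      rw [← Finset.prod_mul_distrib]
      apply Finset.prod_congr rfl
      intro t _
      exact hl_mul (hS.excl t · · n) _ _
    rw [← this]; ring
  have hswap : ∑ n ∈ (Icc 1 ⌊x⌋₊).filter (fun n => n ≡ v [MOD m]),
        Real.log (x / n) * (∑ σ, c σ * hN L pr σ n) ^ 2 =
      ∑ σ : ι → Option J, ∑ τ : ι → Option J, c σ * c τ *
        ∑ n ∈ (Icc 1 ⌊x⌋₊).filter (fun n => n ≡ v [MOD m]), Real.log (x / n) *
          ∏ t, (∑ o, cc (pr t) (σ t) (τ t) o * ind L (pr t) n o) := by
    simp only [hexp, Finset.mul_sum]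
    rw [Finset.sum_comm]
    apply Finset.sum_congr rfl; intro σ _
    rw [Finset.sum_comm]
    apply Finset.sum_congr rfl; intro τ _
    apply Finset.sum_congr rfl; intro n _
    ring
  have hterm : ∀ σ τ : ι → Option J,
      x / m * (c σ * c τ * ∏ t, G1 (pr t) (σ t) (τ t)) - (Real.log x + 1) *
        ((|c σ| * mulc pr (fun p => (p : ℝ) + 1) σ) * (|c τ| * mulc pr (fun p => (p : ℝ) + 1) τ)) ≤
      c σ * c τ *
        ∑ n ∈ (Icc 1 ⌊x⌋₊).filter (fun n => n ≡ v [MOD m]), Real.log (x / n) *
          ∏ t, (∑ o, cc (pr t) (σ t) (τ t) o * ind L (pr t) n o) := by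
    intro σ τ
    have h1 := local_expand v hm hS hx (fun t o => cc (pr t) (σ t) (τ t) o)
    have h2 : ∏ t, (∑ o, |cc (pr t) (σ t) (τ t) o|) ≤ mulc pr (fun p => (p : ℝ) + 1) σ *
        mulc pr (fun p => (p : ℝ) + 1) τ := by
      unfold mulc
      rw [← Finset.prod_mul_distrib]
      apply Finset.prod_le_prod
      · intro t _
        exact Finset.sum_nonneg fun o _ => abs_nonneg _
      · intro t _
        refine (cc_abs (hS.prime t).two_le _ _).trans (le_of_eq ?_)
        rcases σ t with _ | j <;> rcases τ t with _ | l <;> simp [w1]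
    have h3 : ∏ t, (∑ o, cc (pr t) (σ t) (τ t) o * dn (pr t) o) = ∏ t, G1 (pr t) (σ t) (τ t) :=
      Finset.prod_congr rfl fun t _ => cc_dn (hS.prime t).pos _ _
    rw [h3] at h1
    set S := ∑ n ∈ (Icc 1 ⌊x⌋₊).filter (fun n => n ≡ v [MOD m]), Real.log (x / n) *
          ∏ t, (∑ o, cc (pr t) (σ t) (τ t) o * ind L (pr t) n o) with hSdef
    set P := ∏ t, G1 (pr t) (σ t) (τ t) with hP
    have h4 : |S - x / m * P| ≤ (Real.log x + 1) * (mulc pr (fun p => (p : ℝ) + 1) σ *
        mulc pr (fun p => (p : ℝ) + 1) τ) :=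
      h1.trans (mul_le_mul_of_nonneg_left h2 (by linarith))
    have h5 : -(|c σ| * |c τ| * |S - x / m * P|) ≤ c σ * c τ * (S - x / m * P) := by
      rw [← abs_mul, ← abs_mul]
      exact neg_abs_le _
    have h6 : |c σ| * |c τ| * |S - x / m * P| ≤ |c σ| * |c τ| * ((Real.log x + 1) *
        (mulc pr (fun p => (p : ℝ) + 1) σ * mulc pr (fun p => (p : ℝ) + 1) τ)) :=
      mul_le_mul_of_nonneg_left h4 (by positivity)
    have h7 : c σ * c τ * S = x / m * (c σ * c τ * P) + c σ * c τ * (S - x / m * P) := by ring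
    rw [h7]
    have h8 : |c σ| * |c τ| * ((Real.log x + 1) *
        (mulc pr (fun p => (p : ℝ) + 1) σ * mulc pr (fun p => (p : ℝ) + 1) τ)) = (Real.log x + 1) *
        ((|c σ| * mulc pr (fun p => (p : ℝ) + 1) σ) * (|c τ| * mulc pr (fun p => (p : ℝ) + 1) τ)) := by
      ring
    linarith
  have hgram : IsGram (fun σ τ : ι → Option J =>
      ∏ t, G1 (pr t) (σ t) (τ t) - ∏ t, (if σ t = τ t then D0 J (pr t) (σ t) else 0)) :=
    IsGram.prod_sub univ (G := fun (t : ι) (σ τ : ι → Option J) => if σ t = τ t then D0 J (pr t) (σ t) else 0)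
      (D := fun (t : ι) (σ τ : ι → Option J) => G1 (pr t) (σ t) (τ t))
      (fun t _ => (isGram_D0 (pr t) (hJ t)).pull (fun σ : ι → Option J => σ t))
      (fun t _ => (isGram_G1_sub_D0 (pr t)).pull (fun σ : ι → Option J => σ t))
  have hnn := hgram.nonneg c
  have hsplit : ∑ σ : ι → Option J, ∑ τ : ι → Option J, c σ * c τ *
      (∏ t, G1 (pr t) (σ t) (τ t) - ∏ t, (if σ t = τ t then D0 J (pr t) (σ t) else 0)) =
      ∑ σ : ι → Option J, ∑ τ : ι → Option J, c σ * c τ * ∏ t, G1 (pr t) (σ t) (τ t) -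
      ∑ σ, c σ ^ 2 * mulc pr (fun p => (p : ℝ) - Fintype.card J) σ := by
    rw [← Finset.sum_sub_distrib]
    apply Finset.sum_congr rfl; intro σ _
    simp only [mul_sub, Finset.sum_sub_distrib]
    congr 1
    rw [Finset.sum_eq_single σ]
    · have : ∏ t, (if σ t = σ t then D0 J (pr t) (σ t) else 0) =
          mulc pr (fun p => (p : ℝ) - Fintype.card J) σ := by
        unfold mulc
        apply Finset.prod_congr rfl
        intro t _
        rcases σ t with _ | j <;> simp [D0]
      rw [this]; ring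
    · intro τ _ hτ
      have : ∃ t, σ t ≠ τ t := by
        by_contra hc
        push Not at hc
        exact hτ (funext fun t => (hc t).symm)
      obtain ⟨t, ht⟩ := this
      rw [Finset.prod_eq_zero (mem_univ t) (by rw [if_neg ht]), mul_zero]
    · intro h; exact absurd (mem_univ σ) h
  rw [hsplit] at hnn
  rw [hswap]
  have hfin : ∑ σ : ι → Option J, ∑ τ : ι → Option J, (x / m * (c σ * c τ * ∏ t, G1 (pr t) (σ t) (τ t)) -
      (Real.log x + 1) *
        ((|c σ| * mulc pr (fun p => (p : ℝ) + 1) σ) * (|c τ| * mulc pr (fun p => (p : ℝ) + 1) τ))) =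
      x / m * ∑ σ : ι → Option J, ∑ τ : ι → Option J, c σ * c τ * ∏ t, G1 (pr t) (σ t) (τ t) -
      (Real.log x + 1) * (∑ σ, |c σ| * mulc pr (fun p => (p : ℝ) + 1) σ) ^ 2 := by
    simp only [Finset.sum_sub_distrib]
    congr 1
    · rw [Finset.mul_sum]
      apply Finset.sum_congr rfl; intro σ _
      rw [Finset.mul_sum]
    · rw [sq, Finset.sum_mul_sum, Finset.mul_sum]
      apply Finset.sum_congr rfl; intro σ _
      rw [Finset.mul_sum]
  refine le_trans ?_ (Finset.sum_le_sum fun σ _ => Finset.sum_le_sum fun τ _ => hterm σ τ)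
  rw [hfin]
  have hxm : 0 ≤ x / m := by positivity
  have := mul_le_mul_of_nonneg_left (sub_nonneg.1 (sub_nonneg.2 (sub_nonneg.1 hnn))) hxm
  linarith

end Pool.Agent.Y876.AP
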