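import Mathlib
import Pool.Agent.Y876.AP.MainA
import Pool.Agent.Y876.AP.S1Low

/-! The sieve sums over an arithmetic progression in terms of the weights `y` (helper876). -/

set_option autoImplicit false

namespace Pool.Agent.Y876.AP

open Finset
open Pool.Agent.H410R2

section
variable {ι J : Type} [Fintype ι] [DecidableEq ι] [Fintype J] [DecidableEq J]

theorem s1Lower_use (pr : ι → ℕ) (L : J → ℕ → ℕ) (m v : ℕ) (hm : 1 ≤ m)
    (hs : SieveData ι J pr L m) (hJ : ∀ t, Fintype.card J ≤ pr t)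
    (c : (ι → Option J) → ℝ) (x : ℝ) (hx : 1 ≤ x) :
    x / m * ∑ σ, c σ ^ 2 * mulc pr (fun p => (p : ℝ) - Fintype.card J) σ -
        (Real.log x + 1) * (∑ σ, |c σ| * mulc pr (fun p => (p : ℝ) + 1) σ) ^ 2 ≤
      ∑ n ∈ (Icc 1 ⌊x⌋₊).filter (fun n => n ≡ v [MOD m]),
        Real.log (x / n) * (∑ σ, c σ * hN L pr σ n) ^ 2 := by
  rename_i i1 i2 i3 i4
  have h1 : i2 = (fun a b => Classical.propDecidable (a = b)) := Subsingleton.elim _ _
  have h2 : i4 = (fun a b => Classical.propDecidable (a = b)) := Subsingleton.elim _ _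
  subst h1 h2
  exact s1Lower ι J pr L m v hm hs hJ c x hx

/-- the square of the coefficient -/
theorem cw_sq (pr : ι → ℕ) (hp : ∀ t, 2 ≤ pr t) (y : (ι → Option J) → ℝ) (f : ℕ → ℝ)
    (σ : ι → Option J) :
    cw pr y σ ^ 2 * mulc pr f σ = y σ ^ 2 * mulc pr (fun p => f p / ((p : ℝ) - 1) ^ 2) σ := by
  rw [← sq_abs (cw pr y σ), abs_cw pr hp, mul_pow, sq_abs]
  have e1 : (mulc pr (fun p => 1 / ((p : ℝ) - 1)) σ) ^ 2 * mulc pr f σ =
      mulc pr (fun p => f p / ((p : ℝ) - 1) ^ 2) σ := by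
    unfold mulc
    rw [← Finset.prod_pow, ← Finset.prod_mul_distrib]
    refine Finset.prod_congr rfl fun t _ => ?_
    have := one_le_pr hp t
    by_cases h : σ t = none
    · simp [h]
    · simp only [h, if_false]
      have h1 : ((pr t : ℝ) - 1) ≠ 0 := by linarith
      field_simp
  calc mulc pr (fun p => 1 / ((p : ℝ) - 1)) σ ^ 2 * y σ ^ 2 * mulc pr f σ =
      y σ ^ 2 * (mulc pr (fun p => 1 / ((p : ℝ) - 1)) σ ^ 2 * mulc pr f σ) := by ring
    _ = _ := by rw [e1]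

/-- the error term -/
theorem abs_sum_le (pr : ι → ℕ) (hp : ∀ t, 2 ≤ pr t) (y : (ι → Option J) → ℝ) (B R' : ℝ)
    (hB : 0 ≤ B) (hy : ∀ σ, |y σ| ≤ B) (hR : ∀ σ, y σ ≠ 0 → lgt pr σ ≤ R') :
    ∑ σ, |cw pr y σ| * mulc pr (fun p => (p : ℝ) + 1) σ ≤
      B * (Real.exp R' * ∏ t, (1 + 3 * (Fintype.card J : ℝ) / (pr t : ℝ))) := by
  have h1 : ∀ σ : ι → Option J, |cw pr y σ| * mulc pr (fun p => (p : ℝ) + 1) σ =
      |y σ| * mulc pr (fun p => ((p : ℝ) + 1) / ((p : ℝ) - 1)) σ := by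
    intro σ
    rw [abs_cw pr hp]
    have e1 : mulc pr (fun p => 1 / ((p : ℝ) - 1)) σ * mulc pr (fun p => (p : ℝ) + 1) σ =
        mulc pr (fun p => ((p : ℝ) + 1) / ((p : ℝ) - 1)) σ := by
      unfold mulc
      rw [← Finset.prod_mul_distrib]
      refine Finset.prod_congr rfl fun t _ => ?_
      by_cases h : σ t = none
      · simp [h]
      · simp only [h, if_false]
        ring
    calc mulc pr (fun p => 1 / ((p : ℝ) - 1)) σ * |y σ| * mulc pr (fun p => (p : ℝ) + 1) σ =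
        |y σ| * (mulc pr (fun p => 1 / ((p : ℝ) - 1)) σ * mulc pr (fun p => (p : ℝ) + 1) σ) := by ring
      _ = _ := by rw [e1]
  have hm0 : ∀ σ : ι → Option J, 0 ≤ mulc pr (fun p => ((p : ℝ) + 1) / ((p : ℝ) - 1)) σ := by
    intro σ
    apply mulc_nonneg'
    intro t
    have := one_le_pr hp t
    apply div_nonneg <;> linarith
  calc ∑ σ, |cw pr y σ| * mulc pr (fun p => (p : ℝ) + 1) σ
      = ∑ σ, |y σ| * mulc pr (fun p => ((p : ℝ) + 1) / ((p : ℝ) - 1)) σ :=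
        Finset.sum_congr rfl fun σ _ => h1 σ
    _ = ∑ σ ∈ univ.filter (fun σ : ι → Option J => lgt pr σ ≤ R'),
          |y σ| * mulc pr (fun p => ((p : ℝ) + 1) / ((p : ℝ) - 1)) σ := by
        rw [Finset.sum_filter]
        refine Finset.sum_congr rfl fun σ _ => ?_
        split_ifs with h
        · rfl
        · have : y σ = 0 := by
            by_contra hne
            exact h (hR σ hne)
          rw [this]
          simp
    _ ≤ ∑ σ ∈ univ.filter (fun σ : ι → Option J => lgt pr σ ≤ R'),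
          B * mulc pr (fun p => ((p : ℝ) + 1) / ((p : ℝ) - 1)) σ :=
        Finset.sum_le_sum fun σ _ => mul_le_mul_of_nonneg_right (hy σ) (hm0 σ)
    _ ≤ _ := by
        rw [← Finset.mul_sum]
        exact mul_le_mul_of_nonneg_left (rankin pr hp R') hB

/-- upper bound -/
theorem S1up (hT1 : S1Upper) (pr : ι → ℕ) (L : J → ℕ → ℕ) (m v : ℕ) (hm : 1 ≤ m)
    (hs : SieveData ι J pr L m) (y : (ι → Option J) → ℝ) (B R' : ℝ) (hB : 0 ≤ B)
    (hy : ∀ σ, |y σ| ≤ B) (hR : ∀ σ, y σ ≠ 0 → lgt pr σ ≤ R') (x : ℝ) (hx : 1 ≤ x) :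
    ∑ n ∈ (Icc 1 ⌊x⌋₊).filter (fun n => n ≡ v [MOD m]),
        Real.log (x / n) * (∑ σ, cw pr y σ * hN L pr σ n) ^ 2 ≤
      x / m * ∑ σ, y σ ^ 2 * mulc pr hq σ +
        (Real.log x + 1) * (B * (Real.exp R' *
          ∏ t, (1 + 3 * (Fintype.card J : ℝ) / (pr t : ℝ)))) ^ 2 := by
  have hp : ∀ t, 2 ≤ pr t := fun t => (hs.prime t).two_le
  refine le_trans (hT1.use pr L m v hm hs (cw pr y) x hx) ?_
  have hlog : 0 ≤ Real.log x := Real.log_nonneg hx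
  have h1 : ∑ σ, cw pr y σ ^ 2 * mulc pr (fun p => (p : ℝ)) σ = ∑ σ, y σ ^ 2 * mulc pr hq σ :=
    Finset.sum_congr rfl fun σ _ => cw_sq pr hp y (fun p => (p : ℝ)) σ
  rw [h1]
  have h2 := abs_sum_le pr hp y B R' hB hy hR
  have h3 : 0 ≤ ∑ σ, |cw pr y σ| * mulc pr (fun p => (p : ℝ) + 1) σ :=
    Finset.sum_nonneg fun σ _ => mul_nonneg (abs_nonneg _)
      (mulc_nonneg' pr _ (fun t => by positivity) σ)
  have h4 := pow_le_pow_left₀ h3 h2 2
  have h5 := mul_le_mul_of_nonneg_left h4 (by linarith : (0 : ℝ) ≤ Real.log x + 1)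
  linarith

/-- lower bound -/
theorem S1lo (pr : ι → ℕ) (L : J → ℕ → ℕ) (m v : ℕ) (hm1 : 1 ≤ m)
    (hs : SieveData ι J pr L m) (hJ : ∀ t, Fintype.card J ≤ pr t)
    (y : (ι → Option J) → ℝ) (B R' : ℝ) (hB : 0 ≤ B)
    (hy : ∀ σ, |y σ| ≤ B) (hR : ∀ σ, y σ ≠ 0 → lgt pr σ ≤ R') (x : ℝ) (hx : 1 ≤ x) :
    x / m * ∑ σ, y σ ^ 2 * mulc pr (hm (Fintype.card J)) σ -
        (Real.log x + 1) * (B * (Real.exp R' *
          ∏ t, (1 + 3 * (Fintype.card J : ℝ) / (pr t : ℝ)))) ^ 2 ≤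
    ∑ n ∈ (Icc 1 ⌊x⌋₊).filter (fun n => n ≡ v [MOD m]),
        Real.log (x / n) * (∑ σ, cw pr y σ * hN L pr σ n) ^ 2 := by
  have hp : ∀ t, 2 ≤ pr t := fun t => (hs.prime t).two_le
  refine le_trans ?_ (s1Lower_use pr L m v hm1 hs hJ (cw pr y) x hx)
  have hlog : 0 ≤ Real.log x := Real.log_nonneg hx
  have h1 : ∑ σ, cw pr y σ ^ 2 * mulc pr (fun p => (p : ℝ) - Fintype.card J) σ =
      ∑ σ, y σ ^ 2 * mulc pr (hm (Fintype.card J)) σ :=
    Finset.sum_congr rfl fun σ _ => cw_sq pr hp y (fun p => (p : ℝ) - Fintype.card J) σ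
  rw [h1]
  have h2 := abs_sum_le pr hp y B R' hB hy hR
  have h3 : 0 ≤ ∑ σ, |cw pr y σ| * mulc pr (fun p => (p : ℝ) + 1) σ :=
    Finset.sum_nonneg fun σ _ => mul_nonneg (abs_nonneg _)
      (mulc_nonneg' pr _ (fun t => by positivity) σ)
  have h4 := pow_le_pow_left₀ h3 h2 2
  have h5 := mul_le_mul_of_nonneg_left h4 (by linarith : (0 : ℝ) ≤ Real.log x + 1)
  linarith

end

end Pool.Agent.Y876.AP
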