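import Mathlib
import Pool.Agent.Y876.AP.SUL

/-! The modified weights after fixing a prime factor of the form (helper876). -/

set_option autoImplicit false

namespace Pool.Agent.Y876.AP

open Finset
open Pool.Agent.H410R2
open Pool.Agent.H362R2.CM (YY era ymod era_ne psi_supp sum_avoid YY_ymod YY_nonneg le_YY era_fib)

section
variable {ι J : Type} [Fintype ι] [DecidableEq ι] [Fintype J] [DecidableEq J]

/-- put the colour `l` on `r` -/
def upd (r : ι) (l : J) (ρ : ι → Option J) (t : ι) : Option J := if t = r then some l else ρ t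

theorem free_upd (r : ι) (l : J) (ρ : ι → Option J) : free (upd r l ρ) = (free ρ).erase r := by
  ext t
  rw [mem_free, mem_erase, mem_free]
  unfold upd
  by_cases h : t = r <;> simp [h]

theorem upd_avoid (j : J) (r : ι) (l : J) (hl : l ≠ j) (ρ : ι → Option J)
    (hρ : ∀ t, ρ t ≠ some j) (t : ι) : upd r l ρ t ≠ some j := by
  unfold upd
  split_ifs
  · intro h
    exact hl (Option.some.inj h)
  · exact hρ t

theorem prodhz_nonneg {pr : ι → ℕ} (hp : ∀ t, 2 ≤ pr t) (a : Finset ι) :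
    0 ≤ ∏ t ∈ a, (1 / ((pr t : ℝ) - 1)) :=
  Finset.prod_nonneg fun t _ => by
    have := one_le_pr hp t
    positivity

theorem YY_upd_le (j : J) (pr : ι → ℕ) (hp : ∀ t, 2 ≤ pr t) (y : (ι → Option J) → ℝ) (R' : ℝ)
    (hy : YHyp pr y R') (r : ι) (l : J) (hl : l ≠ j) (ρ : ι → Option J)
    (hρ : ∀ t, ρ t ≠ some j) (hr : ρ r = none) :
    YY j pr y (upd r l ρ) ≤ YY j pr y ρ := by
  rw [YY_eq j pr y _ (upd_avoid j r l hl ρ hρ), YY_eq j pr y ρ hρ, free_upd]
  calc ∑ a ∈ ((free ρ).erase r).powerset, (∏ t ∈ a, (1 / ((pr t : ℝ) - 1))) * y (put j (upd r l ρ) a)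
      ≤ ∑ a ∈ ((free ρ).erase r).powerset, (∏ t ∈ a, (1 / ((pr t : ℝ) - 1))) * y (put j ρ a) := by
        apply Finset.sum_le_sum
        intro a ha
        apply mul_le_mul_of_nonneg_left _ (prodhz_nonneg hp a)
        apply hy.anti
        intro t
        unfold put upd
        by_cases hta : t ∈ a
        · right
          simp [hta]
        · by_cases htr : t = r
          · left
            subst htr
            simp [hta, hr]
          · right
            simp [hta, htr]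
    _ ≤ _ := by
        apply Finset.sum_le_sum_of_subset_of_nonneg
        · exact Finset.powerset_mono.2 (Finset.erase_subset _ _)
        · intro a _ _
          exact mul_nonneg (prodhz_nonneg hp a) (hy.nonneg _)

theorem one_add_hz {pr : ι → ℕ} (hp : ∀ t, 2 ≤ pr t) (t : ι) :
    1 + hz (pr t) = (pr t : ℝ) / ((pr t : ℝ) - 1) := by
  have := one_le_pr hp t
  have h1 : ((pr t : ℝ) - 1) ≠ 0 := by linarith
  unfold hz
  field_simp
  ring

theorem tent_upd (j : J) (pr : ι → ℕ) (hp : ∀ t, 2 ≤ pr t) (Λ : ℝ) (hΛ : 0 < Λ)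
    (r : ι) (l : J) (hl : l ≠ j) (ρ : ι → Option J)
    (hρ : ∀ t, ρ t ≠ some j) (hr : ρ r = none) :
    YY j pr (tent j pr Λ) ρ ≤
      ((pr r : ℝ) / ((pr r : ℝ) - 1)) * YY j pr (tent j pr Λ) (upd r l ρ) := by
  rw [YYtent_eq j pr Λ ρ hρ, YYtent_eq j pr Λ _ (upd_avoid j r l hl ρ hρ), free_upd]
  have hrS : r ∉ (free ρ).erase r := Finset.notMem_erase _ _
  have hfree : free ρ = insert r ((free ρ).erase r) := (Finset.insert_erase (mem_free.2 hr)).symm
  conv_lhs => rw [hfree]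
  rw [Finset.sum_powerset_insert hrS, Finset.mul_sum, ← Finset.sum_add_distrib]
  apply Finset.sum_le_sum
  intro a ha
  have hra : r ∉ a := fun h => hrS (Finset.mem_powerset.1 ha h)
  rw [Finset.prod_insert hra, ← one_add_hz hp r]
  have h1 := (tt_insert pr Λ hΛ a r hra).1
  have h2 : 0 ≤ ∏ t ∈ a, hz (pr t) := Finset.prod_nonneg fun t _ => hz_nonneg hp t
  have h3 := hz_nonneg hp r
  have h4 : hz (pr r) * (∏ t ∈ a, hz (pr t)) * tt pr Λ (insert r a) ≤
      hz (pr r) * (∏ t ∈ a, hz (pr t)) * tt pr Λ a :=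
    mul_le_mul_of_nonneg_left h1 (mul_nonneg h3 h2)
  calc _ ≤ (∏ t ∈ a, hz (pr t)) * tt pr Λ a + hz (pr r) * (∏ t ∈ a, hz (pr t)) * tt pr Λ a := by
        linarith
    _ = _ := by ring

theorem RR_nonneg (j : J) (pr : ι → ℕ) (hp : ∀ t, 2 ≤ pr t) (Λ : ℝ)
    (y : (ι → Option J) → ℝ) (hy : ∀ σ, 0 ≤ y σ) (ρ : ι → Option J) : 0 ≤ RR j pr Λ y ρ :=
  div_nonneg (YY_nonneg j pr hp y hy ρ) (YY_nonneg j pr hp _ (tent_nonneg j pr Λ) ρ)

theorem RR_upd (j : J) (pr : ι → ℕ) (hp : ∀ t, 2 ≤ pr t) (Λ : ℝ) (hΛ : 0 < Λ)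
    (y : (ι → Option J) → ℝ) (R' : ℝ)
    (hy : YHyp pr y R') (r : ι) (l : J) (hl : l ≠ j) (ρ : ι → Option J)
    (hρ : ∀ t, ρ t ≠ some j) (hr : ρ r = none) :
    RR j pr Λ y (upd r l ρ) ≤ 2 * RR j pr Λ y ρ := by
  have h0 := YY_nonneg j pr hp y hy.nonneg ρ
  have h1 := YY_upd_le j pr hp y R' hy r l hl ρ hρ hr
  have h2 := tent_upd j pr hp Λ hΛ r l hl ρ hρ hr
  have h3 := YY_tent_pos j pr hp Λ ρ hρ
  have h4 := YY_tent_pos j pr hp Λ _ (upd_avoid j r l hl ρ hρ)
  have h5 : ((pr r : ℝ) / ((pr r : ℝ) - 1)) ≤ 2 := by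
    have := one_le_pr hp r
    rw [div_le_iff₀ (by linarith)]
    linarith
  have h6 : YY j pr (tent j pr Λ) ρ ≤ 2 * YY j pr (tent j pr Λ) (upd r l ρ) :=
    h2.trans (mul_le_mul_of_nonneg_right h5 (by linarith))
  unfold RR
  rw [← mul_div_assoc, div_le_div_iff₀ (by linarith) (by linarith)]
  calc YY j pr y (upd r l ρ) * YY j pr (tent j pr Λ) ρ
      ≤ YY j pr y ρ * YY j pr (tent j pr Λ) ρ := mul_le_mul_of_nonneg_right h1 (by linarith)
    _ ≤ YY j pr y ρ * (2 * YY j pr (tent j pr Λ) (upd r l ρ)) := mul_le_mul_of_nonneg_left h6 h0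
    _ = _ := by ring

theorem YY_le_Gt (j : J) (pr : ι → ℕ) (hp : ∀ t, 2 ≤ pr t) (y : (ι → Option J) → ℝ) (R' : ℝ)
    (hy : YHyp pr y R') (ρ : ι → Option J) (hρ : ∀ t, ρ t ≠ some j) :
    YY j pr y ρ ≤ Gt pr := by
  rw [YY_eq j pr y ρ hρ]
  calc ∑ a ∈ (free ρ).powerset, (∏ t ∈ a, (1 / ((pr t : ℝ) - 1))) * y (put j ρ a)
      ≤ ∑ a ∈ (univ : Finset ι).powerset, (∏ t ∈ a, (1 / ((pr t : ℝ) - 1))) * 1 := by
        refine le_trans (Finset.sum_le_sum fun a _ =>
          mul_le_mul_of_nonneg_left (hy.le_one _) (prodhz_nonneg hp a)) ?_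
        apply Finset.sum_le_sum_of_subset_of_nonneg
        · exact Finset.powerset_mono.2 (Finset.subset_univ _)
        · intro a _ _
          rw [mul_one]
          exact prodhz_nonneg hp a
    _ = ∏ t, (1 + hz (pr t)) := by
        rw [← sum_pow_one univ (fun t => hz (pr t))]
        refine Finset.sum_congr rfl fun a _ => ?_
        rw [mul_one]
        rfl
    _ = _ := by
        unfold Gt
        exact Finset.prod_congr rfl fun t _ => one_add_hz hp t

theorem RR_le_Gt (j : J) (pr : ι → ℕ) (hp : ∀ t, 2 ≤ pr t) (Λ : ℝ) (y : (ι → Option J) → ℝ)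
    (R' : ℝ) (hy : YHyp pr y R') (ρ : ι → Option J) (hρ : ∀ t, ρ t ≠ some j) :
    RR j pr Λ y ρ ≤ Gt pr := by
  unfold RR
  have h3 := YY_tent_pos j pr hp Λ ρ hρ
  rw [div_le_iff₀ (by linarith)]
  have h4 := YY_le_Gt j pr hp y R' hy ρ hρ
  have h5 := Gt_pos hp
  nlinarith

theorem ymod_eq (j : J) (pr : ι → ℕ) (Λ : ℝ) (y : (ι → Option J) → ℝ) (σ : ι → Option J) :
    ymod j pr (tent j pr Λ) y σ = RR j pr Λ y (era j σ) * tt pr Λ (fib σ j) := rfl

/-- the weights vanish on large coloured sets -/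
theorem ymod_supp (j : J) (pr : ι → ℕ) (Λ : ℝ) (hΛ : 0 < Λ) (y : (ι → Option J) → ℝ)
    (R' : ℝ) (hy : YHyp pr y R') (σ : ι → Option J)
    (h : ymod j pr (tent j pr Λ) y σ ≠ 0) : lgt pr σ ≤ Λ + R' := by
  rw [ymod_eq] at h
  have h1 : tt pr Λ (fib σ j) ≠ 0 := right_ne_zero_of_mul h
  have h2 : RR j pr Λ y (era j σ) ≠ 0 := left_ne_zero_of_mul h
  have h3 : lg pr (fib σ j) ≤ Λ := by
    by_contra hc
    apply h1
    unfold tt
    apply max_eq_left
    have : 1 ≤ lg pr (fib σ j) / Λ := by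
      rw [le_div_iff₀ hΛ]
      linarith
    linarith
  have h4 : YY j pr y (era j σ) ≠ 0 := by
    intro hz
    apply h2
    unfold RR
    rw [hz, zero_div]
  rw [YY_eq j pr y _ (era_ne j σ)] at h4
  obtain ⟨a, ha, hne⟩ := Finset.exists_ne_zero_of_sum_ne_zero h4
  have h5 := hy.supp _ (right_ne_zero_of_mul hne)
  rw [lgt_eq] at h5 ⊢
  rw [← Finset.add_sum_erase _ _ (Finset.mem_univ j)] at h5 ⊢
  have h6 : ∑ l ∈ univ.erase j, lg pr (fib (put j (era j σ) a) l) =
      ∑ l ∈ univ.erase j, lg pr (fib σ l) := by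
    refine Finset.sum_congr rfl fun l hl => ?_
    have hlj : l ≠ j := Finset.ne_of_mem_erase hl
    congr 1
    ext t
    rw [mem_fib, mem_fib]
    unfold put
    by_cases hta : t ∈ a
    · have h7 := mem_free.1 (Finset.mem_powerset.1 ha hta)
      unfold era at h7
      rw [if_pos hta]
      constructor
      · intro h8
        exact absurd (Option.some.inj h8).symm hlj
      · intro h8
        exfalso
        have : σ t ≠ some j := by
          rw [h8]
          intro h9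
          exact hlj (Option.some.inj h9)
        rw [if_neg this, h8] at h7
        exact absurd h7 (by simp)
    · rw [if_neg hta]
      unfold era
      split_ifs with h8
      · rw [h8]
        constructor
        · intro h9
          exact absurd h9 (by simp)
        · intro h9
          exact absurd (Option.some.inj h9).symm hlj
      · rfl
  rw [h6] at h5
  have h7 := lg_nonneg pr (fib (put j (era j σ) a) j)
  linarith

/-- erasing and inserting -/
theorem era_insC_some (j : J) (r : ι) (l : J) (hl : l ≠ j) (σ' : {t : ι // t ≠ r} → Option J) :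
    era j (insC r (some l) σ') = upd r l (era j (insC r none σ')) := by
  funext t
  unfold era upd insC
  by_cases ht : t = r
  · subst ht
    simp [hl]
  · simp [ht]

theorem era_insC_self (j : J) (r : ι) (σ' : {t : ι // t ≠ r} → Option J) :
    era j (insC r (some j) σ') = era j (insC r none σ') := by
  funext t
  unfold era insC
  by_cases ht : t = r
  · subst ht
    simp
  · simp [ht]

theorem era_insC_none_r (j : J) (r : ι) (σ' : {t : ι // t ≠ r} → Option J) :
    era j (insC r none σ') r = none := by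
  unfold era insC
  simp

/-- the weights after fixing a prime -/
theorem yr_ymod_le (j : J) (pr : ι → ℕ) (hp : ∀ t, 2 ≤ pr t) (Λ : ℝ) (hΛ : 0 < Λ)
    (y : (ι → Option J) → ℝ) (R' : ℝ) (hy : YHyp pr y R') (r : ι)
    (σ' : {t : ι // t ≠ r} → Option J) :
    |yr pr r j (ymod j pr (tent j pr Λ) y) σ'| ≤
      (Real.log (pr r) / Λ + 2 * (Fintype.card J : ℝ) / ((pr r : ℝ) - 1)) *
        RR j pr Λ y (era j (insC r none σ')) := by
  set ρ := era j (insC r none σ') with hρd
  have hρ : ∀ t, ρ t ≠ some j := era_ne j _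
  have hρr : ρ r = none := era_insC_none_r j r σ'
  have hR0 : 0 ≤ RR j pr Λ y ρ := RR_nonneg j pr hp Λ y hy.nonneg ρ
  have hp1 := one_le_pr hp r
  set a := fib (insC r none σ') j with ha
  have hra : r ∉ a := by
    rw [ha, mem_fib]
    simp [insC]
  have e0 : ymod j pr (tent j pr Λ) y (insC r none σ') = RR j pr Λ y ρ * tt pr Λ a := rfl
  have e1 : ymod j pr (tent j pr Λ) y (insC r (some j) σ') =
      RR j pr Λ y ρ * tt pr Λ (insert r a) := by
    rw [ymod_eq, era_insC_self, fib_insC_some, if_pos rfl]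
  have e2 : ∀ l ∈ univ.erase j, ymod j pr (tent j pr Λ) y (insC r (some l) σ') ≤
      2 * RR j pr Λ y ρ := by
    intro l hl
    have hlj : l ≠ j := Finset.ne_of_mem_erase hl
    rw [ymod_eq, era_insC_some j r l hlj]
    have h1 := RR_upd j pr hp Λ hΛ y R' hy r l hlj ρ hρ hρr
    have h2 := tt_le_one pr Λ hΛ (fib (insC r (some l) σ') j)
    have h3 := tt_nonneg pr Λ (fib (insC r (some l) σ') j)
    have h4 := RR_nonneg j pr hp Λ y hy.nonneg (upd r l ρ)
    calc RR j pr Λ y (upd r l ρ) * tt pr Λ (fib (insC r (some l) σ') j)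
        ≤ RR j pr Λ y (upd r l ρ) * 1 := mul_le_mul_of_nonneg_left h2 h4
      _ ≤ _ := by linarith
  have e3 : ∀ l, 0 ≤ ymod j pr (tent j pr Λ) y (insC r (some l) σ') := by
    intro l
    rw [ymod_eq]
    exact mul_nonneg (RR_nonneg j pr hp Λ y hy.nonneg _) (tt_nonneg _ _ _)
  have h1 : ∑ l ∈ univ.erase j, ymod j pr (tent j pr Λ) y (insC r (some l) σ') ≤
      (Fintype.card J : ℝ) * (2 * RR j pr Λ y ρ) := by
    calc _ ≤ ∑ l ∈ univ.erase j, 2 * RR j pr Λ y ρ := Finset.sum_le_sum e2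
      _ ≤ ∑ l : J, 2 * RR j pr Λ y ρ :=
        Finset.sum_le_sum_of_subset_of_nonneg (Finset.subset_univ _) fun _ _ _ => by linarith
      _ = _ := by rw [Finset.sum_const, Finset.card_univ, nsmul_eq_mul]
  have h2 := tt_insert pr Λ hΛ a r hra
  have hinv : 0 ≤ 1 / ((pr r : ℝ) - 1) := by positivity
  unfold yr
  rw [e0, e1, abs_of_nonneg]
  · have h3 : (tt pr Λ a - tt pr Λ (insert r a)) * RR j pr Λ y ρ ≤
        (Real.log (pr r) / Λ) * RR j pr Λ y ρ := mul_le_mul_of_nonneg_right h2.2 hR0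
    have h4 := mul_le_mul_of_nonneg_left h1 hinv
    calc _ ≤ (tt pr Λ a - tt pr Λ (insert r a)) * RR j pr Λ y ρ +
          1 / ((pr r : ℝ) - 1) * ((Fintype.card J : ℝ) * (2 * RR j pr Λ y ρ)) := by linarith
      _ ≤ (Real.log (pr r) / Λ) * RR j pr Λ y ρ +
          1 / ((pr r : ℝ) - 1) * ((Fintype.card J : ℝ) * (2 * RR j pr Λ y ρ)) := by linarith
      _ = _ := by ring
  · have h3 : 0 ≤ (tt pr Λ a - tt pr Λ (insert r a)) * RR j pr Λ y ρ :=
      mul_nonneg (by linarith [h2.1]) hR0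
    have h4 : 0 ≤ 1 / ((pr r : ℝ) - 1) *
        ∑ l ∈ univ.erase j, ymod j pr (tent j pr Λ) y (insC r (some l) σ') :=
      mul_nonneg hinv (Finset.sum_nonneg fun l _ => e3 l)
    linarith

theorem lgt_insC_ge (pr : ι → ℕ) (r : ι) (v : Option J) (σ' : {t : ι // t ≠ r} → Option J) :
    lgt (fun t : {t : ι // t ≠ r} => pr t.1) σ' ≤ lgt pr (insC r v σ') := by
  rw [lgt_eq, lgt_eq]
  apply Finset.sum_le_sum
  intro l _
  rw [← lg_insC_none pr r σ' l]
  rcases v with _ | l'
  · exact le_rfl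
  · rw [lg_insC_some, lg_insC_none]
    split_ifs
    · have := Real.log_natCast_nonneg (pr r)
      linarith
    · simp

theorem yr_supp (j : J) (pr : ι → ℕ) (Λ : ℝ) (hΛ : 0 < Λ)
    (y : (ι → Option J) → ℝ) (R' : ℝ) (hy : YHyp pr y R') (r : ι)
    (σ' : {t : ι // t ≠ r} → Option J)
    (h : yr pr r j (ymod j pr (tent j pr Λ) y) σ' ≠ 0) :
    lgt (fun t : {t : ι // t ≠ r} => pr t.1) σ' ≤ Λ + R' := by
  by_contra hc
  apply h
  have h1 : ∀ v : Option J, ymod j pr (tent j pr Λ) y (insC r v σ') = 0 := by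
    intro v
    by_contra hne
    exact hc ((lgt_insC_ge pr r v σ').trans (ymod_supp j pr Λ hΛ y R' hy _ hne))
  unfold yr
  rw [h1, h1, Finset.sum_eq_zero fun l _ => h1 (some l)]
  simp

theorem mulc_insC_none (pr : ι → ℕ) (f : ℕ → ℝ) (r : ι) (σ' : {t : ι // t ≠ r} → Option J) :
    mulc (fun t : {t : ι // t ≠ r} => pr t.1) f σ' = mulc pr f (insC r none σ') := by
  unfold mulc
  rw [Fintype.prod_eq_mul_prod_subtype_ne
    (fun t => if insC r none σ' t = none then 1 else f (pr t)) r]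
  have e1 : insC r none σ' r = none := by simp [insC]
  rw [if_pos e1, one_mul]
  refine Finset.prod_congr rfl fun t _ => ?_
  have e2 : insC r none σ' t.1 = σ' t := by simp [insC, t.2]
  rw [e2]

theorem sum_insC_le (r : ι) (F : (ι → Option J) → ℝ) (hF : ∀ σ, 0 ≤ F σ) :
    ∑ σ' : {t : ι // t ≠ r} → Option J, F (insC r none σ') ≤ ∑ σ, F σ := by
  rw [sum_split r]
  apply Finset.sum_le_sum
  intro σ' _
  exact Finset.single_le_sum (f := fun v => F (insC r v σ')) (fun v _ => hF _) (Finset.mem_univ none)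

end

end Pool.Agent.Y876.AP
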