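import Mathlib
import Pool.Agent.Y876.AP.Rat

/-! The lower bound for the weighted number of `n` for which the form `L j` has no prime factor
among the sieving primes (helper876). -/

set_option autoImplicit false

namespace Pool.Agent.Y876.AP

open Finset
open Pool.Agent.H410R2
open Pool.Agent.H362R2.CM (YY era ymod era_ne psi_supp sum_avoid YY_ymod YY_nonneg le_YY era_fib)

section
variable {ι J : Type} [Fintype ι] [DecidableEq ι] [Fintype J] [DecidableEq J]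

/-- the product in the error terms -/
noncomputable def EP (J : Type) [Fintype J] (pr : ι → ℕ) : ℝ :=
  ∏ t, (1 + 3 * (Fintype.card J : ℝ) / (pr t : ℝ))

theorem EP_nonneg (pr : ι → ℕ) : 0 ≤ EP J pr := by
  unfold EP
  exact Finset.prod_nonneg fun t _ => by positivity

theorem ER_le (J : Type) [Fintype J] (pr : ι → ℕ) (r : ι) :
    ∏ t : {t : ι // t ≠ r}, (1 + 3 * (Fintype.card J : ℝ) / (pr t.1 : ℝ)) ≤ EP J pr := by
  unfold EP
  rw [Fintype.prod_eq_mul_prod_subtype_ne (fun t => (1 + 3 * (Fintype.card J : ℝ) / (pr t : ℝ))) r]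
  have h3 : 1 ≤ 1 + 3 * (Fintype.card J : ℝ) / (pr r : ℝ) := by
    have : 0 ≤ 3 * (Fintype.card J : ℝ) / (pr r : ℝ) := by positivity
    linarith
  have h4 : 0 ≤ ∏ t : {t : ι // t ≠ r}, (1 + 3 * (Fintype.card J : ℝ) / (pr t.1 : ℝ)) :=
    Finset.prod_nonneg fun t _ => by positivity
  nlinarith

theorem hq_nonneg {pr : ι → ℕ} (hp : ∀ t, 2 ≤ pr t) (t : ι) : 0 ≤ hq (pr t) := by
  have := one_le_pr hp t
  unfold hq
  apply div_nonneg (by linarith) (by positivity)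

/-- the contribution of the `n` for which the given prime divides the form -/
theorem nonrough_r (hT1 : S1Upper) (pr : ι → ℕ) (L : J → ℕ → ℕ) (m v : ℕ) (hm1 : 1 ≤ m)
    (hs : SieveData ι J pr L m) (r : ι) (j : J) (hv : ∀ n, n ≡ v [MOD (pr r * m)] → pr r ∣ L j n)
    (Λ : ℝ) (hΛ : 0 < Λ) (y : (ι → Option J) → ℝ) (R' : ℝ) (hy : YHyp pr y R')
    (x : ℝ) (hx : 1 ≤ x) :
    ∑ n ∈ (Icc 1 ⌊x⌋₊).filter (fun n => n ≡ v [MOD (pr r * m)]),
        Real.log (x / n) * (∑ σ, cw pr (ymod j pr (tent j pr Λ) y) σ * hN L pr σ n) ^ 2 ≤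
      (Real.log (pr r) / Λ + 2 * (Fintype.card J : ℝ) / ((pr r : ℝ) - 1)) ^ 2 *
        (x / (pr r * m) * ∑ σ, RR j pr Λ y (era j σ) ^ 2 * mulc pr hq σ +
        (Real.log x + 1) * (Gt pr * (Real.exp (Λ + R') * EP J pr)) ^ 2) := by
  have hp : ∀ t, 2 ≤ pr t := fun t => (hs.prime t).two_le
  have hexcl : ∀ n t i j, pr t ∣ L i n → pr t ∣ L j n → i = j := fun n t i j => hs.excl t i j n
  set pr' : {t : ι // t ≠ r} → ℕ := fun t => pr t.1 with hpr'
  set E := Real.log (pr r) / Λ + 2 * (Fintype.card J : ℝ) / ((pr r : ℝ) - 1) with hE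
  have hp1 := one_le_pr hp r
  have hlr : 0 ≤ Real.log (pr r) := Real.log_natCast_nonneg _
  have hE0 : 0 ≤ E := by
    have h1 : 0 ≤ Real.log (pr r) / Λ := div_nonneg hlr hΛ.le
    have h2 : 0 ≤ 2 * (Fintype.card J : ℝ) / ((pr r : ℝ) - 1) := by
      apply div_nonneg (by positivity) (by linarith)
    linarith
  have hm' : 1 ≤ pr r * m := Nat.mul_pos (by have := hp r; omega) hm1
  have hlog : 0 ≤ Real.log x := Real.log_nonneg hx
  have hGp := Gt_pos hp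
  have h1 : ∑ n ∈ (Icc 1 ⌊x⌋₊).filter (fun n => n ≡ v [MOD (pr r * m)]),
        Real.log (x / n) * (∑ σ, cw pr (ymod j pr (tent j pr Λ) y) σ * hN L pr σ n) ^ 2 =
      ∑ n ∈ (Icc 1 ⌊x⌋₊).filter (fun n => n ≡ v [MOD (pr r * m)]),
        Real.log (x / n) * (∑ σ', cw pr' (yr pr r j (ymod j pr (tent j pr Λ) y)) σ' *
          hN L pr' σ' n) ^ 2 := by
    refine Finset.sum_congr rfl fun n hn => ?_
    rw [hN_reduce pr hp L r j n (hv n (Finset.mem_filter.1 hn).2) (hexcl n)]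
  rw [h1]
  have hyr := fun σ' => yr_ymod_le j pr hp Λ hΛ y R' hy r σ'
  have hRG : ∀ σ' : {t : ι // t ≠ r} → Option J,
      RR j pr Λ y (era j (insC r none σ')) ≤ Gt pr := fun σ' =>
    RR_le_Gt j pr hp Λ y R' hy _ (era_ne j _)
  refine le_trans (S1up hT1 pr' L (pr r * m) v hm' (hs.restrict r)
    (yr pr r j (ymod j pr (tent j pr Λ) y)) (E * Gt pr) (Λ + R') (mul_nonneg hE0 hGp.le)
    (fun σ' => (hyr σ').trans (mul_le_mul_of_nonneg_left (hRG σ') hE0))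
    (fun σ' => yr_supp j pr Λ hΛ y R' hy r σ') x hx) ?_
  have hq0 : ∀ t, 0 ≤ hq (pr t) := hq_nonneg hp
  have h2 : ∑ σ', yr pr r j (ymod j pr (tent j pr Λ) y) σ' ^ 2 * mulc pr' hq σ' ≤
      E ^ 2 * ∑ σ, RR j pr Λ y (era j σ) ^ 2 * mulc pr hq σ := by
    calc ∑ σ', yr pr r j (ymod j pr (tent j pr Λ) y) σ' ^ 2 * mulc pr' hq σ'
        ≤ ∑ σ' : {t : ι // t ≠ r} → Option J,
            E ^ 2 * (RR j pr Λ y (era j (insC r none σ')) ^ 2 * mulc pr hq (insC r none σ')) := by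
          apply Finset.sum_le_sum
          intro σ' _
          rw [mulc_insC_none pr hq r σ', ← mul_assoc, ← mul_pow]
          apply mul_le_mul_of_nonneg_right _ (mulc_nonneg' pr _ hq0 _)
          rw [← sq_abs]
          exact pow_le_pow_left₀ (abs_nonneg _) (hyr σ') 2
      _ = E ^ 2 * ∑ σ' : {t : ι // t ≠ r} → Option J,
            (RR j pr Λ y (era j (insC r none σ')) ^ 2 * mulc pr hq (insC r none σ')) := by
          rw [Finset.mul_sum]
      _ ≤ _ := by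
          apply mul_le_mul_of_nonneg_left _ (sq_nonneg _)
          exact sum_insC_le r (fun σ => RR j pr Λ y (era j σ) ^ 2 * mulc pr hq σ)
            (fun σ => mul_nonneg (sq_nonneg _) (mulc_nonneg' pr _ hq0 _))
  have hB := ER_le J pr r
  have hB0 : 0 ≤ ∏ t : {t : ι // t ≠ r}, (1 + 3 * (Fintype.card J : ℝ) / (pr' t : ℝ)) :=
      Finset.prod_nonneg fun t _ => by positivity
  have hx0 : 0 ≤ x / ((pr r : ℝ) * m) := by positivity
  have h3 : (E * Gt pr * (Real.exp (Λ + R') *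
      ∏ t : {t : ι // t ≠ r}, (1 + 3 * (Fintype.card J : ℝ) / (pr' t : ℝ)))) ^ 2 ≤
      E ^ 2 * (Gt pr * (Real.exp (Λ + R') * EP J pr)) ^ 2 := by
    rw [← mul_pow]
    apply pow_le_pow_left₀
    · exact mul_nonneg (mul_nonneg hE0 hGp.le) (mul_nonneg (Real.exp_pos _).le hB0)
    · rw [mul_assoc]
      apply mul_le_mul_of_nonneg_left _ hE0
      apply mul_le_mul_of_nonneg_left _ hGp.le
      exact mul_le_mul_of_nonneg_left hB (Real.exp_pos _).le
  have h4 := mul_le_mul_of_nonneg_left h2 hx0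
  have h5 := mul_le_mul_of_nonneg_left h3 (by linarith : (0 : ℝ) ≤ Real.log x + 1)
  push_cast
  calc _ ≤ x / ((pr r : ℝ) * m) * (E ^ 2 * ∑ σ, RR j pr Λ y (era j σ) ^ 2 * mulc pr hq σ) +
        (Real.log x + 1) * (E ^ 2 * (Gt pr * (Real.exp (Λ + R') * EP J pr)) ^ 2) :=
        add_le_add h4 h5
    _ = _ := by ring

theorem sum_biUnion_le {κ : Type} [Fintype κ] [DecidableEq κ] (W : ℕ → ℝ) (S : κ → Finset ℕ)
    (h : ∀ t, ∀ n ∈ S t, 0 ≤ W n) :
    ∑ n ∈ univ.biUnion S, W n ≤ ∑ t, ∑ n ∈ S t, W n := by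
  have key : ∀ s : Finset κ, ∑ n ∈ s.biUnion S, W n ≤ ∑ t ∈ s, ∑ n ∈ S t, W n := by
    intro s
    induction s using Finset.induction_on with
    | empty => simp
    | insert a s ha ih =>
      rw [Finset.biUnion_insert, Finset.sum_insert ha]
      have h1 := Finset.sum_union_inter (s₁ := S a) (s₂ := s.biUnion S) (f := W)
      have h2 : 0 ≤ ∑ n ∈ S a ∩ s.biUnion S, W n :=
        Finset.sum_nonneg fun n hn => h a n (Finset.mem_inter.1 hn).1
      linarith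
  exact key univ

/-- the lower bound for the rough values of one form -/
theorem roughB (hT1 : S1Upper) (pr : ι → ℕ) (L : J → ℕ → ℕ) (m v : ℕ) (hm1 : 1 ≤ m)
    (hs : SieveData ι J pr L m) (hJ : ∀ t, Fintype.card J ≤ pr t) (j : J)
    (Λ : ℝ) (hΛ : 0 < Λ) (θ : ℝ) (hθ0 : 0 ≤ θ) (hθ1 : θ ≤ 1 / 4)
    (hθ : ∑ t, Real.log (pr t) / pr t ≤ θ * Λ)
    (η : ℝ) (hη : ∑ t, (1 / (pr t : ℝ)) *
      (Real.log (pr t) / Λ + 2 * (Fintype.card J : ℝ) / ((pr t : ℝ) - 1)) ^ 2 ≤ η)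
    (y : (ι → Option J) → ℝ) (R' : ℝ) (hy : YHyp pr y R')
    (x : ℝ) (hx : 1 ≤ x) :
    x / m / Gt pr * ((1 - 2 * θ) / kap (Fintype.card J) pr *
        ∑ ρ ∈ avoid ι j, YY j pr y ρ ^ 2 *
          mulc pr (fun p => hm (Fintype.card J) p * ((p : ℝ) / ((p : ℝ) - 1))) ρ -
        η * (kap (Fintype.card J) pr / (1 - θ) ^ 2 *
          ∑ ρ ∈ avoid ι j, YY j pr y ρ ^ 2 *
            mulc pr (fun p => hq p * ((p : ℝ) / ((p : ℝ) - 1))) ρ)) -
      (Real.log x + 1) * (1 + ∑ t, (Real.log (pr t) / Λ +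
        2 * (Fintype.card J : ℝ) / ((pr t : ℝ) - 1)) ^ 2) *
          (Gt pr * (Real.exp (Λ + R') * EP J pr)) ^ 2 ≤
    ∑ n ∈ (Icc 1 ⌊x⌋₊).filter (fun n => n ≡ v [MOD m] ∧ ∀ t, ¬ pr t ∣ L j n),
        Real.log (x / n) * (∑ σ, cw pr y σ * hN L pr σ n) ^ 2 := by
  have hp : ∀ t, 2 ≤ pr t := fun t => (hs.prime t).two_le
  have hGp := Gt_pos hp
  have hlog : 0 ≤ Real.log x := Real.log_nonneg hx
  have hx0 : 0 < x := by linarith
  set K := Fintype.card J with hKd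
  set U := Gt pr * (Real.exp (Λ + R') * EP J pr) with hU
  set E : ι → ℝ := fun t => Real.log (pr t) / Λ + 2 * (K : ℝ) / ((pr t : ℝ) - 1) with hE
  set W : ℕ → ℝ := fun n =>
    Real.log (x / n) * (∑ σ, cw pr (ymod j pr (tent j pr Λ) y) σ * hN L pr σ n) ^ 2 with hW
  have hW0 : ∀ n ∈ Icc 1 ⌊x⌋₊, 0 ≤ W n := by
    intro n hn
    rw [Finset.mem_Icc] at hn
    have hn1 : (1 : ℝ) ≤ n := by exact_mod_cast hn.1
    have hnx : (n : ℝ) ≤ x := (Nat.le_floor_iff hx0.le).1 hn.2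
    apply mul_nonneg _ (sq_nonneg _)
    apply Real.log_nonneg
    rw [one_le_div (by linarith)]
    exact hnx
  -- the weights agree on the rough values
  have h1 : ∑ n ∈ (Icc 1 ⌊x⌋₊).filter (fun n => n ≡ v [MOD m] ∧ ∀ t, ¬ pr t ∣ L j n),
        Real.log (x / n) * (∑ σ, cw pr y σ * hN L pr σ n) ^ 2 =
      ∑ n ∈ (Icc 1 ⌊x⌋₊).filter (fun n => n ≡ v [MOD m] ∧ ∀ t, ¬ pr t ∣ L j n), W n := by
    refine Finset.sum_congr rfl fun n hn => ?_
    simp only [hW]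
    rw [sum_ymodN j pr hp L n (Finset.mem_filter.1 hn).2.2 (tent j pr Λ) y]
    intro ρ hρ
    have := YY_tent_pos j pr hp Λ ρ hρ
    linarith
  rw [h1]
  -- the residue classes
  have hres : ∀ t, ∃ v' : ℕ, ∀ n, (n ≡ v' [MOD (pr t * m)] ↔ (n ≡ v [MOD m] ∧ pr t ∣ L j n)) := by
    intro t
    obtain ⟨r0, hr0⟩ := hs.sol t j
    obtain ⟨v', hv'1, hv'2⟩ := Nat.chineseRemainder (hs.cop t) r0 v
    refine ⟨v', fun n => ?_⟩
    rw [← Nat.modEq_and_modEq_iff_modEq_mul (hs.cop t), hr0 n]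
    constructor
    · rintro ⟨ha, hb⟩
      exact ⟨hb.trans hv'2, ha.trans hv'1⟩
    · rintro ⟨ha, hb⟩
      exact ⟨hb.trans hv'1.symm, ha.trans hv'2.symm⟩
  choose v' hv' using hres
  -- splitting
  have h2 : ∑ n ∈ (Icc 1 ⌊x⌋₊).filter (fun n => n ≡ v [MOD m]), W n ≤
      ∑ n ∈ (Icc 1 ⌊x⌋₊).filter (fun n => n ≡ v [MOD m] ∧ ∀ t, ¬ pr t ∣ L j n), W n +
      ∑ t, ∑ n ∈ (Icc 1 ⌊x⌋₊).filter (fun n => n ≡ v' t [MOD (pr t * m)]), W n := by
    have hsub : (Icc 1 ⌊x⌋₊).filter (fun n => n ≡ v [MOD m]) ⊆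
        (Icc 1 ⌊x⌋₊).filter (fun n => n ≡ v [MOD m] ∧ ∀ t, ¬ pr t ∣ L j n) ∪
        univ.biUnion (fun t : ι => (Icc 1 ⌊x⌋₊).filter (fun n => n ≡ v' t [MOD (pr t * m)])) := by
      intro n hn
      rw [Finset.mem_filter] at hn
      rw [Finset.mem_union, Finset.mem_biUnion]
      by_cases h : ∀ t, ¬ pr t ∣ L j n
      · left
        exact Finset.mem_filter.2 ⟨hn.1, hn.2, h⟩
      · right
        push Not at h
        obtain ⟨t, ht⟩ := h
        exact ⟨t, mem_univ _, Finset.mem_filter.2 ⟨hn.1, (hv' t n).2 ⟨hn.2, ht⟩⟩⟩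
    have hI : ∀ n ∈ (Icc 1 ⌊x⌋₊).filter (fun n => n ≡ v [MOD m] ∧ ∀ t, ¬ pr t ∣ L j n) ∪
        univ.biUnion (fun t : ι => (Icc 1 ⌊x⌋₊).filter (fun n => n ≡ v' t [MOD (pr t * m)])),
        0 ≤ W n := by
      intro n hn
      rw [Finset.mem_union, Finset.mem_biUnion] at hn
      rcases hn with h | ⟨t, _, h⟩
      · exact hW0 n (Finset.mem_filter.1 h).1
      · exact hW0 n (Finset.mem_filter.1 h).1
    refine le_trans (Finset.sum_le_sum_of_subset_of_nonneg hsub fun n hn _ => hI n hn) ?_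
    have hun := Finset.sum_union_inter
      (s₁ := (Icc 1 ⌊x⌋₊).filter (fun n => n ≡ v [MOD m] ∧ ∀ t, ¬ pr t ∣ L j n))
      (s₂ := univ.biUnion (fun t : ι => (Icc 1 ⌊x⌋₊).filter (fun n => n ≡ v' t [MOD (pr t * m)])))
      (f := W)
    have hint : 0 ≤ ∑ n ∈ (Icc 1 ⌊x⌋₊).filter (fun n => n ≡ v [MOD m] ∧ ∀ t, ¬ pr t ∣ L j n) ∩
        univ.biUnion (fun t : ι => (Icc 1 ⌊x⌋₊).filter (fun n => n ≡ v' t [MOD (pr t * m)])),
        W n := by
      apply Finset.sum_nonneg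
      intro n hn
      exact hW0 n (Finset.mem_filter.1 (Finset.mem_inter.1 hn).1).1
    have hbi : ∑ n ∈ univ.biUnion (fun t : ι =>
        (Icc 1 ⌊x⌋₊).filter (fun n => n ≡ v' t [MOD (pr t * m)])), W n ≤
        ∑ t, ∑ n ∈ (Icc 1 ⌊x⌋₊).filter (fun n => n ≡ v' t [MOD (pr t * m)]), W n :=
      sum_biUnion_le W (fun t : ι => (Icc 1 ⌊x⌋₊).filter (fun n => n ≡ v' t [MOD (pr t * m)]))
        (fun t n hn => hW0 n (Finset.mem_filter.1 hn).1)
    linarith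
  -- the main term
  have h3 := S1lo pr L m v hm1 hs hJ (ymod j pr (tent j pr Λ) y) (Gt pr) (Λ + R') hGp.le
    (fun σ => by
      rw [ymod_eq, abs_of_nonneg (mul_nonneg (RR_nonneg j pr hp Λ y hy.nonneg _) (tt_nonneg _ _ _))]
      have h4 := RR_le_Gt j pr hp Λ y R' hy (era j σ) (era_ne j σ)
      have h5 := tt_le_one pr Λ hΛ (fib σ j)
      have h6 := tt_nonneg pr Λ (fib σ j)
      have h7 := RR_nonneg j pr hp Λ y hy.nonneg (era j σ)
      calc RR j pr Λ y (era j σ) * tt pr Λ (fib σ j) ≤ RR j pr Λ y (era j σ) * 1 :=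
            mul_le_mul_of_nonneg_left h5 h7
        _ ≤ Gt pr := by linarith)
    (fun σ => ymod_supp j pr Λ hΛ y R' hy σ) x hx
  have h4 := main1 j pr hp hJ Λ hΛ θ hθ0 hθ1 hθ y hy.nonneg
  have h5 := main2 j pr hp Λ hΛ θ hθ0 hθ1 hθ y hy.nonneg
  rw [← hKd] at h3 h4 h5
  have hxm : 0 ≤ x / m := by positivity
  -- the sum over the primes
  set S2 := ∑ σ, RR j pr Λ y (era j σ) ^ 2 * mulc pr hq σ with hS2
  have hS20 : 0 ≤ S2 := Finset.sum_nonneg fun σ _ =>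
    mul_nonneg (sq_nonneg _) (mulc_nonneg' pr _ (hq_nonneg hp) _)
  have h6 : ∑ t, ∑ n ∈ (Icc 1 ⌊x⌋₊).filter (fun n => n ≡ v' t [MOD (pr t * m)]), W n ≤
      x / m * (η * S2) + (Real.log x + 1) * (∑ t, E t ^ 2) * U ^ 2 := by
    calc _ ≤ ∑ t, (E t ^ 2 * (x / (pr t * m) * S2 + (Real.log x + 1) * U ^ 2)) := by
          apply Finset.sum_le_sum
          intro t _
          exact nonrough_r hT1 pr L m (v' t) hm1 hs t j (fun n hn => ((hv' t n).1 hn).2) Λ hΛ y R'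
            hy x hx
      _ = x / m * ((∑ t, (1 / (pr t : ℝ)) * E t ^ 2) * S2) +
          (Real.log x + 1) * (∑ t, E t ^ 2) * U ^ 2 := by
          rw [Finset.sum_mul, Finset.mul_sum, Finset.mul_sum, Finset.sum_mul,
            ← Finset.sum_add_distrib]
          refine Finset.sum_congr rfl fun t _ => ?_
          have h7 : x / ((pr t : ℝ) * m) = x / m * (1 / (pr t : ℝ)) := by
            rw [div_mul_div_comm, mul_one, mul_comm (m : ℝ)]
          rw [h7]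
          ring
      _ ≤ _ := by
          have h8 := mul_le_mul_of_nonneg_left (mul_le_mul_of_nonneg_right hη hS20) hxm
          linarith
  have hη0 : 0 ≤ η := le_trans (Finset.sum_nonneg fun t _ => by positivity) hη
  have h7 := mul_le_mul_of_nonneg_left h4 hxm
  have h8 := mul_le_mul_of_nonneg_left (mul_le_mul_of_nonneg_left h5 hη0) hxm
  have hEP : (Gt pr * (Real.exp (Λ + R') *
      ∏ t, (1 + 3 * (K : ℝ) / (pr t : ℝ)))) = U := rfl
  rw [hEP] at h3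
  have h9 : x / m / Gt pr * ((1 - 2 * θ) / kap K pr *
        ∑ ρ ∈ avoid ι j, YY j pr y ρ ^ 2 *
          mulc pr (fun p => hm K p * ((p : ℝ) / ((p : ℝ) - 1))) ρ -
        η * (kap K pr / (1 - θ) ^ 2 *
          ∑ ρ ∈ avoid ι j, YY j pr y ρ ^ 2 *
            mulc pr (fun p => hq p * ((p : ℝ) / ((p : ℝ) - 1))) ρ)) =
      x / m * ((1 - 2 * θ) / kap K pr / Gt pr *
        ∑ ρ ∈ avoid ι j, YY j pr y ρ ^ 2 *
          mulc pr (fun p => hm K p * ((p : ℝ) / ((p : ℝ) - 1))) ρ) -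
      x / m * (η * (kap K pr / (1 - θ) ^ 2 / Gt pr *
          ∑ ρ ∈ avoid ι j, YY j pr y ρ ^ 2 *
            mulc pr (fun p => hq p * ((p : ℝ) / ((p : ℝ) - 1))) ρ)) := by
    ring
  rw [h9]
  have h10 : (Real.log x + 1) * (1 + ∑ t, E t ^ 2) * U ^ 2 =
      (Real.log x + 1) * U ^ 2 + (Real.log x + 1) * (∑ t, E t ^ 2) * U ^ 2 := by ring
  have h11 : ∑ n ∈ (Icc 1 ⌊x⌋₊).filter (fun n => n ≡ v [MOD m]), W n =
      ∑ n ∈ (Icc 1 ⌊x⌋₊).filter (fun n => n ≡ v [MOD m]),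
        Real.log (x / n) * (∑ σ, cw pr (ymod j pr (tent j pr Λ) y) σ * hN L pr σ n) ^ 2 := rfl
  rw [h11] at h2
  rw [h10]
  linarith

end

end Pool.Agent.Y876.AP
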