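import Mathlib
import Pool.Agent.Y876.AP.RoB
import Pool.Agent.H410R2.MTuple

/-! The upper bound for the weighted number of `n` for which two of the forms have no prime factor
among the sieving primes (helper876). -/

set_option autoImplicit false

namespace Pool.Agent.Y876.AP

open Finset
open Pool.Agent.H410R2
open Pool.Agent.H362R2.CM (YY era ymod era_ne psi_supp sum_avoid YY_ymod YY_nonneg le_YY era_fib
  uj uj_nonneg uj_le_one YY_uj_pos ymod_le ymod_nonneg)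

section
variable {ι J : Type} [Fintype ι] [DecidableEq ι] [Fintype J] [DecidableEq J]

/-- `p ^ 5 / (p - 1) ^ 6` -/
noncomputable def h6 (p : ℕ) : ℝ := (p : ℝ) ^ 5 / ((p : ℝ) - 1) ^ 6

/-- the full sum with the indicator -/
noncomputable def ZZ (pr : ι → ℕ) (Λ : ℝ) : ℝ :=
  ∑ a : Finset ι, (if lg pr a ≤ Λ then (1 : ℝ) else 0) * ∏ t ∈ a, (1 / ((pr t : ℝ) - 1))

theorem one_le_ZZ (pr : ι → ℕ) (hp : ∀ t, 2 ≤ pr t) (Λ : ℝ) (hΛ : 0 ≤ Λ) : 1 ≤ ZZ pr Λ := by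
  have h1 : (if lg pr (∅ : Finset ι) ≤ Λ then (1 : ℝ) else 0) *
      ∏ t ∈ (∅ : Finset ι), (1 / ((pr t : ℝ) - 1)) ≤ ZZ pr Λ :=
    Finset.single_le_sum (f := fun a : Finset ι => (if lg pr a ≤ Λ then (1 : ℝ) else 0) *
      ∏ t ∈ a, (1 / ((pr t : ℝ) - 1))) (fun a _ => mul_nonneg (by split_ifs <;> norm_num)
        (prodhz_nonneg hp a)) (Finset.mem_univ ∅)
  have h2 : lg pr (∅ : Finset ι) ≤ Λ := by simpa [lg] using hΛ
  rw [if_pos h2, Finset.prod_empty] at h1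
  linarith

/-- general support bound -/
theorem ymod_supp_gen (j : J) (pr : ι → ℕ) (Λ : ℝ) (u y : (ι → Option J) → ℝ)
    (hu : ∀ σ, u σ ≠ 0 → lg pr (fib σ j) ≤ Λ)
    (R' : ℝ) (hy : ∀ σ, y σ ≠ 0 → lgt pr σ ≤ R') (σ : ι → Option J)
    (h : ymod j pr u y σ ≠ 0) : lgt pr σ ≤ Λ + R' := by
  unfold ymod at h
  have h3 : lg pr (fib σ j) ≤ Λ := hu σ (right_ne_zero_of_mul h)
  have h4 : YY j pr y (era j σ) ≠ 0 := by
    intro hz
    apply left_ne_zero_of_mul h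
    rw [hz, zero_div]
  rw [YY_eq j pr y _ (era_ne j σ)] at h4
  obtain ⟨a, ha, hne⟩ := Finset.exists_ne_zero_of_sum_ne_zero h4
  have h5 := hy _ (right_ne_zero_of_mul hne)
  rw [lgt_eq] at h5 ⊢
  rw [← Finset.add_sum_erase _ _ (Finset.mem_univ j)] at h5 ⊢
  have h6 : ∑ l ∈ univ.erase j, lg pr (fib (put j (era j σ) a) l) =
      ∑ l ∈ univ.erase j, lg pr (fib σ l) := by
    refine Finset.sum_congr rfl fun l hl => ?_
    have hlj : l ≠ j := Finset.ne_of_mem_erase hl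
    congr 1
    rw [← era_fib j σ l hlj]
    ext t
    rw [mem_fib, mem_fib]
    unfold put
    by_cases hta : t ∈ a
    · rw [if_pos hta, mem_free.1 (Finset.mem_powerset.1 ha hta)]
      constructor
      · intro h8
        exact absurd (Option.some.inj h8).symm hlj
      · intro h8
        exact absurd h8 (by simp)
    · rw [if_neg hta]
  rw [h6] at h5
  have h7 := lg_nonneg pr (fib (put j (era j σ) a) j)
  linarith

/-- the factor `∏ p / (p - 1)` of a set -/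
noncomputable def mm (pr : ι → ℕ) (a : Finset ι) : ℝ := ∏ t ∈ a, ((pr t : ℝ) / ((pr t : ℝ) - 1))

theorem mm_nonneg {pr : ι → ℕ} (hp : ∀ t, 2 ≤ pr t) (a : Finset ι) : 0 ≤ mm pr a :=
  Finset.prod_nonneg fun t _ => by
    have := one_le_pr hp t
    apply div_nonneg <;> linarith

theorem mulc_le_Gt (pr : ι → ℕ) (hp : ∀ t, 2 ≤ pr t) (σ : ι → Option J) :
    mulc pr (fun p => (p : ℝ) / ((p : ℝ) - 1)) σ ≤ Gt pr := by
  unfold mulc Gt
  apply Finset.prod_le_prod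
  · intro t _
    have := one_le_pr hp t
    split_ifs
    · norm_num
    · apply div_nonneg <;> linarith
  · intro t _
    have h := one_le_pr hp t
    split_ifs
    · rw [one_le_div (by linarith)]
      linarith
    · exact le_rfl

/-- the profile after one modification -/
noncomputable def G2 (pr : ι → ℕ) (Λ C : ℝ) (j2 : J) (GG : J → ℝ → ℝ) (l : J) (a : Finset ι) : ℝ :=
  if l = j2 then C * (mm pr a * if lg pr a ≤ Λ then 1 else 0) else mm pr a * GG l (lg pr a)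

theorem G2_nonneg {pr : ι → ℕ} (hp : ∀ t, 2 ≤ pr t) (Λ C : ℝ) (hC : 0 ≤ C) (j2 : J)
    (GG : J → ℝ → ℝ) (hGG : ∀ l s, 0 ≤ s → 0 ≤ GG l s) (l : J) (a : Finset ι) :
    0 ≤ G2 pr Λ C j2 GG l a := by
  unfold G2
  split_ifs
  · simpa using mul_nonneg hC (mm_nonneg hp a)
  · simp
  · exact mul_nonneg (mm_nonneg hp a) (hGG l _ (lg_nonneg _ _))

theorem first_mod (pr : ι → ℕ) (hp : ∀ t, 2 ≤ pr t) (Λ : ℝ) (hΛ : 0 ≤ Λ)
    (y : (ι → Option J) → ℝ) (GG : J → ℝ → ℝ) (hGG : ∀ l s, 0 ≤ s → 0 ≤ GG l s)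
    (hy : ∀ τ, y τ ≤ ∏ l, GG l (lg pr (fib τ l))) (j2 : J) (σ : ι → Option J) :
    ymod j2 pr (uj j2 pr Λ) y σ ≤ ∏ l, G2 pr Λ
      ((∑ a : Finset ι, GG j2 (lg pr a) * ∏ t ∈ a, (1 / ((pr t : ℝ) - 1))) / ZZ pr Λ) j2 GG l
        (fib σ l) := by
  set C := (∑ a : Finset ι, GG j2 (lg pr a) * ∏ t ∈ a, (1 / ((pr t : ℝ) - 1))) / ZZ pr Λ with hC
  refine le_trans (ymod_le j2 pr hp Λ hΛ y (fun l a => GG l (lg pr a))
    (fun l a => hGG l _ (lg_nonneg _ _)) hy σ) (le_of_eq ?_)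
  have e1 : mulc pr (fun p => (p : ℝ) / ((p : ℝ) - 1)) σ = ∏ l, mm pr (fib σ l) := by
    rw [mulc_eq]
    rfl
  rw [e1, ← Finset.mul_prod_erase univ (fun l => G2 pr Λ C j2 GG l (fib σ l)) (Finset.mem_univ j2),
    ← Finset.mul_prod_erase univ (fun l => mm pr (fib σ l)) (Finset.mem_univ j2)]
  have e2 : ∏ l ∈ univ.erase j2, G2 pr Λ C j2 GG l (fib σ l) =
      (∏ l ∈ univ.erase j2, mm pr (fib σ l)) * ∏ l ∈ univ.erase j2, GG l (lg pr (fib σ l)) := by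
    rw [← Finset.prod_mul_distrib]
    refine Finset.prod_congr rfl fun l hl => ?_
    unfold G2
    rw [if_neg (Finset.ne_of_mem_erase hl)]
  have e3 : G2 pr Λ C j2 GG j2 (fib σ j2) = C * (mm pr (fib σ j2) * uj j2 pr Λ σ) := by
    unfold G2 uj
    rw [if_pos rfl]
  rw [e2, e3]
  unfold ZZ at hC
  rw [← hC]
  ring

/-- the doubly modified weights -/
noncomputable def z2 (pr : ι → ℕ) (Λ : ℝ) (j1 j2 : J) (y : (ι → Option J) → ℝ) :
    (ι → Option J) → ℝ :=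
  ymod j1 pr (uj j1 pr Λ) (ymod j2 pr (uj j2 pr Λ) y)

theorem z2_nonneg (pr : ι → ℕ) (hp : ∀ t, 2 ≤ pr t) (Λ : ℝ) (j1 j2 : J)
    (y : (ι → Option J) → ℝ) (hy : ∀ σ, 0 ≤ y σ) (σ : ι → Option J) : 0 ≤ z2 pr Λ j1 j2 y σ :=
  ymod_nonneg j1 pr hp _ _ (uj_nonneg j1 pr Λ)
    (ymod_nonneg j2 pr hp _ _ (uj_nonneg j2 pr Λ) hy) σ

theorem z2_le (pr : ι → ℕ) (hp : ∀ t, 2 ≤ pr t) (Λ : ℝ) (hΛ : 0 ≤ Λ)
    (y : (ι → Option J) → ℝ) (GG : J → ℝ → ℝ) (hGG : ∀ l s, 0 ≤ s → 0 ≤ GG l s)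
    (hy : ∀ τ, y τ ≤ ∏ l, GG l (lg pr (fib τ l))) (j1 j2 : J) (hj : j1 ≠ j2) (σ : ι → Option J) :
    z2 pr Λ j1 j2 y σ ≤
      ((∑ a : Finset ι, GG j1 (lg pr a) * ∏ t ∈ a, ((pr t : ℝ) / ((pr t : ℝ) - 1) ^ 2)) / ZZ pr Λ) *
      ((∑ a : Finset ι, GG j2 (lg pr a) * ∏ t ∈ a, (1 / ((pr t : ℝ) - 1))) / ZZ pr Λ) *
      (mulc pr (fun p => ((p : ℝ) / ((p : ℝ) - 1)) * ((p : ℝ) / ((p : ℝ) - 1))) σ *
        ((∏ l ∈ (univ.erase j1).erase j2, GG l (lg pr (fib σ l))) *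
          (uj j1 pr Λ σ * uj j2 pr Λ σ))) := by
  set C := (∑ a : Finset ι, GG j2 (lg pr a) * ∏ t ∈ a, (1 / ((pr t : ℝ) - 1))) / ZZ pr Λ with hC
  have hZ := one_le_ZZ pr hp Λ hΛ
  have hC0 : 0 ≤ C := div_nonneg (Finset.sum_nonneg fun a _ =>
    mul_nonneg (hGG j2 _ (lg_nonneg _ _)) (prodhz_nonneg hp a)) (by linarith)
  have h1 := ymod_le j1 pr hp Λ hΛ (ymod j2 pr (uj j2 pr Λ) y) (G2 pr Λ C j2 GG)
    (fun l a => G2_nonneg hp Λ C hC0 j2 GG hGG l a)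
    (fun τ => first_mod pr hp Λ hΛ y GG hGG hy j2 τ) σ
  unfold z2
  refine le_trans h1 ?_
  have e1 : ∑ a : Finset ι, G2 pr Λ C j2 GG j1 a * ∏ t ∈ a, (1 / ((pr t : ℝ) - 1)) =
      ∑ a : Finset ι, GG j1 (lg pr a) * ∏ t ∈ a, ((pr t : ℝ) / ((pr t : ℝ) - 1) ^ 2) := by
    refine Finset.sum_congr rfl fun a _ => ?_
    unfold G2 mm
    rw [if_neg hj]
    have e : ∏ t ∈ a, ((pr t : ℝ) / ((pr t : ℝ) - 1) ^ 2) =
        (∏ t ∈ a, ((pr t : ℝ) / ((pr t : ℝ) - 1))) * ∏ t ∈ a, (1 / ((pr t : ℝ) - 1)) := by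
      rw [← Finset.prod_mul_distrib]
      refine Finset.prod_congr rfl fun t _ => ?_
      rw [div_mul_div_comm, mul_one, sq]
    rw [e]
    ring
  rw [e1]
  have hj2 : j2 ∈ univ.erase j1 := Finset.mem_erase.2 ⟨fun h => hj h.symm, Finset.mem_univ _⟩
  have e2 : ∏ l ∈ univ.erase j1, G2 pr Λ C j2 GG l (fib σ l) =
      C * (∏ l ∈ univ.erase j1, mm pr (fib σ l)) *
        ((∏ l ∈ (univ.erase j1).erase j2, GG l (lg pr (fib σ l))) * uj j2 pr Λ σ) := by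
    rw [← Finset.mul_prod_erase _ (fun l => G2 pr Λ C j2 GG l (fib σ l)) hj2,
      ← Finset.mul_prod_erase _ (fun l => mm pr (fib σ l)) hj2]
    have e3 : ∏ l ∈ (univ.erase j1).erase j2, G2 pr Λ C j2 GG l (fib σ l) =
        (∏ l ∈ (univ.erase j1).erase j2, mm pr (fib σ l)) *
          ∏ l ∈ (univ.erase j1).erase j2, GG l (lg pr (fib σ l)) := by
      rw [← Finset.prod_mul_distrib]
      refine Finset.prod_congr rfl fun l hl => ?_
      unfold G2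
      rw [if_neg (Finset.ne_of_mem_erase hl)]
    have e4 : G2 pr Λ C j2 GG j2 (fib σ j2) = C * (mm pr (fib σ j2) * uj j2 pr Λ σ) := by
      unfold G2 uj
      rw [if_pos rfl]
    rw [e3, e4]
    ring
  rw [e2]
  have e5 : ∏ l ∈ univ.erase j1, mm pr (fib σ l) ≤
      mulc pr (fun p => (p : ℝ) / ((p : ℝ) - 1)) σ := by
    rw [mulc_eq, ← Finset.mul_prod_erase univ _ (Finset.mem_univ j1)]
    have h2 : 1 ≤ ∏ t ∈ fib σ j1, ((pr t : ℝ) / ((pr t : ℝ) - 1)) := by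
      have h4 : ∏ _t ∈ fib σ j1, (1 : ℝ) ≤ ∏ t ∈ fib σ j1, ((pr t : ℝ) / ((pr t : ℝ) - 1)) := by
        apply Finset.prod_le_prod
        · intro t _
          norm_num
        · intro t _
          have := one_le_pr hp t
          rw [one_le_div (by linarith)]
          linarith
      rwa [Finset.prod_const_one] at h4
    have h3 : 0 ≤ ∏ l ∈ univ.erase j1, mm pr (fib σ l) :=
      Finset.prod_nonneg fun l _ => mm_nonneg hp _
    calc ∏ l ∈ univ.erase j1, mm pr (fib σ l) = 1 * ∏ l ∈ univ.erase j1, mm pr (fib σ l) := by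
          rw [one_mul]
      _ ≤ _ := mul_le_mul_of_nonneg_right h2 h3
  have hS0 : 0 ≤ ∑ a : Finset ι, GG j1 (lg pr a) * ∏ t ∈ a, ((pr t : ℝ) / ((pr t : ℝ) - 1) ^ 2) := by
    apply Finset.sum_nonneg
    intro a _
    apply mul_nonneg (hGG j1 _ (lg_nonneg _ _))
    apply Finset.prod_nonneg
    intro t _
    have := one_le_pr hp t
    apply div_nonneg (by linarith) (sq_nonneg _)
  have hZ' : ZZ pr Λ = ∑ a : Finset ι, (if lg pr a ≤ Λ then (1 : ℝ) else 0) *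
    ∏ t ∈ a, (1 / ((pr t : ℝ) - 1)) := rfl
  rw [← hZ']
  set S1 := (∑ a : Finset ι, GG j1 (lg pr a) * ∏ t ∈ a, ((pr t : ℝ) / ((pr t : ℝ) - 1) ^ 2)) /
    ZZ pr Λ with hS1
  have hS1n : 0 ≤ S1 := div_nonneg hS0 (by linarith)
  have hprod0 : 0 ≤ ∏ l ∈ (univ.erase j1).erase j2, GG l (lg pr (fib σ l)) :=
    Finset.prod_nonneg fun l _ => hGG l _ (lg_nonneg _ _)
  have hm0 : 0 ≤ mulc pr (fun p => (p : ℝ) / ((p : ℝ) - 1)) σ := by
    apply mulc_nonneg'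
    intro t
    have := one_le_pr hp t
    apply div_nonneg <;> linarith
  have hu1 := uj_nonneg j1 pr Λ σ
  have hu2 := uj_nonneg j2 pr Λ σ
  rw [mulc_mul pr (fun p => (p : ℝ) / ((p : ℝ) - 1)) (fun p => (p : ℝ) / ((p : ℝ) - 1)) σ]
  calc S1 * (mulc pr (fun p => (p : ℝ) / ((p : ℝ) - 1)) σ *
        (C * (∏ l ∈ univ.erase j1, mm pr (fib σ l)) *
          ((∏ l ∈ (univ.erase j1).erase j2, GG l (lg pr (fib σ l))) * uj j2 pr Λ σ) *
            uj j1 pr Λ σ))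
      = (S1 * C * mulc pr (fun p => (p : ℝ) / ((p : ℝ) - 1)) σ *
        ((∏ l ∈ (univ.erase j1).erase j2, GG l (lg pr (fib σ l))) *
          (uj j1 pr Λ σ * uj j2 pr Λ σ))) * (∏ l ∈ univ.erase j1, mm pr (fib σ l)) := by ring
    _ ≤ (S1 * C * mulc pr (fun p => (p : ℝ) / ((p : ℝ) - 1)) σ *
        ((∏ l ∈ (univ.erase j1).erase j2, GG l (lg pr (fib σ l))) *
          (uj j1 pr Λ σ * uj j2 pr Λ σ))) * mulc pr (fun p => (p : ℝ) / ((p : ℝ) - 1)) σ := by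
        apply mul_le_mul_of_nonneg_left e5
        positivity
    _ = _ := by ring

theorem h6_nonneg {pr : ι → ℕ} (hp : ∀ t, 2 ≤ pr t) (t : ι) : 0 ≤ h6 (pr t) := by
  have := one_le_pr hp t
  unfold h6
  apply div_nonneg (by positivity)
  apply pow_nonneg
  linarith

/-- the quadratic sum of the doubly modified weights -/
theorem z2_sum (pr : ι → ℕ) (hp : ∀ t, 2 ≤ pr t) (Λ : ℝ) (hΛ : 0 ≤ Λ)
    (y : (ι → Option J) → ℝ) (hy0 : ∀ σ, 0 ≤ y σ) (GG : J → ℝ → ℝ)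
    (hGG : ∀ l s, 0 ≤ s → 0 ≤ GG l s)
    (hy : ∀ τ, y τ ≤ ∏ l, GG l (lg pr (fib τ l))) (j1 j2 : J) (hj : j1 ≠ j2) (C : ℝ)
    (hC : C = ((∑ a : Finset ι, GG j1 (lg pr a) *
        ∏ t ∈ a, ((pr t : ℝ) / ((pr t : ℝ) - 1) ^ 2)) / ZZ pr Λ) *
      ((∑ a : Finset ι, GG j2 (lg pr a) * ∏ t ∈ a, (1 / ((pr t : ℝ) - 1))) / ZZ pr Λ)) :
    ∑ σ, z2 pr Λ j1 j2 y σ ^ 2 * mulc pr hq σ ≤
      C ^ 2 * ((∑ a : Finset ι, (∏ t ∈ a, h6 (pr t)) * (if lg pr a ≤ Λ then (1 : ℝ) else 0)) ^ 2 *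
        ∏ l ∈ (univ.erase j1).erase j2, ∑ a : Finset ι, (∏ t ∈ a, h6 (pr t)) *
          GG l (lg pr a) ^ 2) := by
  have hj2 : j2 ∈ univ.erase j1 := Finset.mem_erase.2 ⟨fun h => hj h.symm, Finset.mem_univ _⟩
  set FF : J → Finset ι → ℝ := fun l a => (∏ t ∈ a, h6 (pr t)) *
    (if l = j1 ∨ l = j2 then (if lg pr a ≤ Λ then (1 : ℝ) else 0) else GG l (lg pr a) ^ 2) with hFF
  have hph : ∀ a : Finset ι, 0 ≤ ∏ t ∈ a, h6 (pr t) := fun a =>
    Finset.prod_nonneg fun t _ => h6_nonneg hp t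
  have hFF0 : ∀ l a, 0 ≤ FF l a := by
    intro l a
    apply mul_nonneg (hph a)
    split_ifs
    · norm_num
    · norm_num
    · exact sq_nonneg _
  have hsplit : ∀ g : J → ℝ, ∏ l, g l = g j1 * (g j2 * ∏ l ∈ (univ.erase j1).erase j2, g l) := by
    intro g
    rw [← Finset.mul_prod_erase univ g (Finset.mem_univ j1), ← Finset.mul_prod_erase _ g hj2]
  have hterm : ∀ σ : ι → Option J, z2 pr Λ j1 j2 y σ ^ 2 * mulc pr hq σ ≤
      C ^ 2 * ∏ l, FF l (fib σ l) := by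
    intro σ
    have h1 := z2_le pr hp Λ hΛ y GG hGG hy j1 j2 hj σ
    rw [← hC] at h1
    have h2 := z2_nonneg pr hp Λ j1 j2 y hy0 σ
    have h3 := pow_le_pow_left₀ h2 h1 2
    have hmq : 0 ≤ mulc pr hq σ := mulc_nonneg' pr _ (hq_nonneg hp) σ
    refine le_trans (mul_le_mul_of_nonneg_right h3 hmq) ?_
    have e1 : ∏ l, FF l (fib σ l) = mulc pr h6 σ *
        ((∏ l ∈ (univ.erase j1).erase j2, GG l (lg pr (fib σ l)) ^ 2) *
          (uj j1 pr Λ σ ^ 2 * uj j2 pr Λ σ ^ 2)) := by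
      rw [mulc_eq]
      simp only [hFF]
      rw [Finset.prod_mul_distrib]
      congr 1
      rw [hsplit]
      have e2 : ∏ l ∈ (univ.erase j1).erase j2, (if l = j1 ∨ l = j2 then
          (if lg pr (fib σ l) ≤ Λ then (1 : ℝ) else 0) else GG l (lg pr (fib σ l)) ^ 2) =
          ∏ l ∈ (univ.erase j1).erase j2, GG l (lg pr (fib σ l)) ^ 2 := by
        refine Finset.prod_congr rfl fun l hl => ?_
        have h4 : l ≠ j2 := Finset.ne_of_mem_erase hl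
        have h5 : l ≠ j1 := Finset.ne_of_mem_erase (Finset.mem_of_mem_erase hl)
        rw [if_neg (by tauto)]
      rw [e2]
      have e3 : ∀ c : ℝ, (if c ≤ Λ then (1 : ℝ) else 0) ^ 2 = if c ≤ Λ then (1 : ℝ) else 0 := by
        intro c
        split_ifs <;> norm_num
      unfold uj
      rw [e3, e3, if_pos (Or.inl rfl), if_pos (Or.inr rfl)]
      ring
    have e4 : mulc pr (fun p => ((p : ℝ) / ((p : ℝ) - 1)) * ((p : ℝ) / ((p : ℝ) - 1))) σ ^ 2 *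
        mulc pr hq σ = mulc pr h6 σ := by
      rw [sq, mul_assoc, ← mulc_mul, ← mulc_mul]
      unfold mulc
      refine Finset.prod_congr rfl fun t _ => ?_
      have h4 := one_le_pr hp t
      have h5 : ((pr t : ℝ) - 1) ≠ 0 := by linarith
      split_ifs
      · rfl
      · unfold hq h6
        field_simp
    rw [e1, Finset.prod_pow]
    apply le_of_eq
    calc _ = C ^ 2 * ((mulc pr (fun p => ((p : ℝ) / ((p : ℝ) - 1)) * ((p : ℝ) / ((p : ℝ) - 1))) σ ^ 2 *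
        mulc pr hq σ) * ((∏ l ∈ (univ.erase j1).erase j2, GG l (lg pr (fib σ l))) ^ 2 *
          (uj j1 pr Λ σ ^ 2 * uj j2 pr Λ σ ^ 2))) := by ring
      _ = _ := by rw [e4]
  refine le_trans (Finset.sum_le_sum fun σ _ => hterm σ) ?_
  rw [← Finset.mul_sum]
  apply mul_le_mul_of_nonneg_left _ (sq_nonneg _)
  refine le_trans (sum_tuple_le FF hFF0) (le_of_eq ?_)
  rw [hsplit]
  simp only [hFF, true_or, or_true, if_true]
  have e5 : ∏ l ∈ (univ.erase j1).erase j2, ∑ a : Finset ι, (∏ t ∈ a, h6 (pr t)) *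
      (if l = j1 ∨ l = j2 then (if lg pr a ≤ Λ then (1 : ℝ) else 0) else GG l (lg pr a) ^ 2) =
      ∏ l ∈ (univ.erase j1).erase j2, ∑ a : Finset ι, (∏ t ∈ a, h6 (pr t)) *
          GG l (lg pr a) ^ 2 := by
    refine Finset.prod_congr rfl fun l hl => ?_
    have h4 : l ≠ j2 := Finset.ne_of_mem_erase hl
    have h5 : l ≠ j1 := Finset.ne_of_mem_erase (Finset.mem_of_mem_erase hl)
    refine Finset.sum_congr rfl fun a _ => ?_
    rw [if_neg (by tauto)]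
  rw [e5]
  ring

/-- the upper bound for pairs -/
theorem roughC (hT1 : S1Upper) (pr : ι → ℕ) (L : J → ℕ → ℕ) (m v : ℕ) (hm1 : 1 ≤ m)
    (hs : SieveData ι J pr L m) (Λ : ℝ) (hΛ : 0 ≤ Λ)
    (y : (ι → Option J) → ℝ) (R' : ℝ) (hyh : YHyp pr y R') (GG : J → ℝ → ℝ)
    (hGG : ∀ l s, 0 ≤ s → 0 ≤ GG l s) (hGG1 : ∀ l s, 0 ≤ s → GG l s ≤ 1)
    (hy : ∀ τ, y τ ≤ ∏ l, GG l (lg pr (fib τ l))) (j1 j2 : J) (hj : j1 ≠ j2) (C : ℝ)
    (hC : C = ((∑ a : Finset ι, GG j1 (lg pr a) *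
        ∏ t ∈ a, ((pr t : ℝ) / ((pr t : ℝ) - 1) ^ 2)) / ZZ pr Λ) *
      ((∑ a : Finset ι, GG j2 (lg pr a) * ∏ t ∈ a, (1 / ((pr t : ℝ) - 1))) / ZZ pr Λ))
    (x : ℝ) (hx : 1 ≤ x) :
    ∑ n ∈ (Icc 1 ⌊x⌋₊).filter (fun n => n ≡ v [MOD m] ∧ (∀ t, ¬ pr t ∣ L j1 n) ∧
        ∀ t, ¬ pr t ∣ L j2 n),
        Real.log (x / n) * (∑ σ, cw pr y σ * hN L pr σ n) ^ 2 ≤
      x / m * (C ^ 2 * ((∑ a : Finset ι, (∏ t ∈ a, h6 (pr t)) *
          (if lg pr a ≤ Λ then (1 : ℝ) else 0)) ^ 2 *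
        ∏ l ∈ (univ.erase j1).erase j2, ∑ a : Finset ι, (∏ t ∈ a, h6 (pr t)) *
          GG l (lg pr a) ^ 2)) +
      (Real.log x + 1) * (C * Gt pr ^ 2 * (Real.exp (Λ + (Λ + R')) * EP J pr)) ^ 2 := by
  have hp : ∀ t, 2 ≤ pr t := fun t => (hs.prime t).two_le
  have hx0 : 0 < x := by linarith
  have hZ := one_le_ZZ pr hp Λ hΛ
  have hC0 : 0 ≤ C := by
    rw [hC]
    apply mul_nonneg
    · apply div_nonneg _ (by linarith)
      apply Finset.sum_nonneg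
      intro a _
      apply mul_nonneg (hGG j1 _ (lg_nonneg _ _))
      apply Finset.prod_nonneg
      intro t _
      have := one_le_pr hp t
      apply div_nonneg (by linarith) (sq_nonneg _)
    · apply div_nonneg _ (by linarith)
      exact Finset.sum_nonneg fun a _ =>
        mul_nonneg (hGG j2 _ (lg_nonneg _ _)) (prodhz_nonneg hp a)
  have hGp := Gt_pos hp
  set z := z2 pr Λ j1 j2 y with hz
  -- the weights agree
  have h1 : ∑ n ∈ (Icc 1 ⌊x⌋₊).filter (fun n => n ≡ v [MOD m] ∧ (∀ t, ¬ pr t ∣ L j1 n) ∧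
        ∀ t, ¬ pr t ∣ L j2 n),
        Real.log (x / n) * (∑ σ, cw pr y σ * hN L pr σ n) ^ 2 =
      ∑ n ∈ (Icc 1 ⌊x⌋₊).filter (fun n => n ≡ v [MOD m] ∧ (∀ t, ¬ pr t ∣ L j1 n) ∧
        ∀ t, ¬ pr t ∣ L j2 n),
        Real.log (x / n) * (∑ σ, cw pr z σ * hN L pr σ n) ^ 2 := by
    refine Finset.sum_congr rfl fun n hn => ?_
    obtain ⟨-, -, hn1, hn2⟩ := Finset.mem_filter.1 hn
    rw [hz]
    unfold z2
    rw [sum_ymodN j1 pr hp L n hn1 (uj j1 pr Λ) (ymod j2 pr (uj j2 pr Λ) y)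
      (fun ρ hρ => (YY_uj_pos j1 pr hp Λ hΛ ρ hρ).ne'),
      sum_ymodN j2 pr hp L n hn2 (uj j2 pr Λ) y
      (fun ρ hρ => (YY_uj_pos j2 pr hp Λ hΛ ρ hρ).ne')]
  rw [h1]
  have h2 : ∑ n ∈ (Icc 1 ⌊x⌋₊).filter (fun n => n ≡ v [MOD m] ∧ (∀ t, ¬ pr t ∣ L j1 n) ∧
        ∀ t, ¬ pr t ∣ L j2 n),
        Real.log (x / n) * (∑ σ, cw pr z σ * hN L pr σ n) ^ 2 ≤
      ∑ n ∈ (Icc 1 ⌊x⌋₊).filter (fun n => n ≡ v [MOD m]),
        Real.log (x / n) * (∑ σ, cw pr z σ * hN L pr σ n) ^ 2 := by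
    apply Finset.sum_le_sum_of_subset_of_nonneg
    · intro n hn
      obtain ⟨h3, h4, -⟩ := Finset.mem_filter.1 hn
      exact Finset.mem_filter.2 ⟨h3, h4⟩
    · intro n hn _
      have hn' := Finset.mem_Icc.1 (Finset.mem_filter.1 hn).1
      have hn1 : (1 : ℝ) ≤ n := by exact_mod_cast hn'.1
      have hnx : (n : ℝ) ≤ x := (Nat.le_floor_iff hx0.le).1 hn'.2
      apply mul_nonneg _ (sq_nonneg _)
      apply Real.log_nonneg
      rw [one_le_div (by linarith)]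
      exact hnx
  refine le_trans h2 ?_
  have huj : ∀ (j : J) (σ : ι → Option J), uj j pr Λ σ ≠ 0 → lg pr (fib σ j) ≤ Λ := by
    intro j σ h
    by_contra hc
    apply h
    unfold uj
    rw [if_neg hc]
  have hsupp : ∀ σ, z σ ≠ 0 → lgt pr σ ≤ Λ + (Λ + R') := by
    intro σ hσ
    exact ymod_supp_gen j1 pr Λ (uj j1 pr Λ) _ (huj j1) (Λ + R')
      (fun τ hτ => ymod_supp_gen j2 pr Λ (uj j2 pr Λ) y (huj j2) R' hyh.supp τ hτ) σ hσ
  have hzn : ∀ σ, 0 ≤ z σ := z2_nonneg pr hp Λ j1 j2 y hyh.nonneg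
  have hB : ∀ σ, |z σ| ≤ C * Gt pr ^ 2 := by
    intro σ
    rw [abs_of_nonneg (hzn σ)]
    have h3 := z2_le pr hp Λ hΛ y GG hGG hy j1 j2 hj σ
    rw [← hC] at h3
    refine le_trans h3 (mul_le_mul_of_nonneg_left ?_ hC0)
    rw [mulc_mul, ← sq]
    have h4 := mulc_le_Gt pr hp σ
    have h5 : 0 ≤ mulc pr (fun p => (p : ℝ) / ((p : ℝ) - 1)) σ := by
      apply mulc_nonneg'
      intro t
      have := one_le_pr hp t
      apply div_nonneg <;> linarith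
    have h6 := pow_le_pow_left₀ h5 h4 2
    have h7 : (∏ l ∈ (univ.erase j1).erase j2, GG l (lg pr (fib σ l))) *
          (uj j1 pr Λ σ * uj j2 pr Λ σ) ≤ 1 := by
      have h8 : ∏ l ∈ (univ.erase j1).erase j2, GG l (lg pr (fib σ l)) ≤ 1 :=
        Finset.prod_le_one (fun l _ => hGG l _ (lg_nonneg _ _)) (fun l _ => hGG1 l _ (lg_nonneg _ _))
      have h9 : uj j1 pr Λ σ * uj j2 pr Λ σ ≤ 1 :=
        mul_le_one₀ (uj_le_one j1 pr Λ σ) (uj_nonneg j2 pr Λ σ) (uj_le_one j2 pr Λ σ)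
      exact mul_le_one₀ h8 (mul_nonneg (uj_nonneg j1 pr Λ σ) (uj_nonneg j2 pr Λ σ)) h9
    have h8 : 0 ≤ mulc pr (fun p => (p : ℝ) / ((p : ℝ) - 1)) σ ^ 2 := sq_nonneg _
    calc _ ≤ mulc pr (fun p => (p : ℝ) / ((p : ℝ) - 1)) σ ^ 2 * 1 :=
          mul_le_mul_of_nonneg_left h7 h8
      _ ≤ _ := by linarith
  refine le_trans (S1up hT1 pr L m v hm1 hs z (C * Gt pr ^ 2) (Λ + (Λ + R'))
    (mul_nonneg hC0 (sq_nonneg _)) hB hsupp x hx) ?_
  have h3 := z2_sum pr hp Λ hΛ y hyh.nonneg GG hGG hy j1 j2 hj C hC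
  have hxm : 0 ≤ x / m := by positivity
  have h4 := mul_le_mul_of_nonneg_left h3 hxm
  have e : EP J pr = ∏ t, (1 + 3 * (Fintype.card J : ℝ) / (pr t : ℝ)) := rfl
  rw [← e]
  linarith

end

end Pool.Agent.Y876.AP
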