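import Mathlib
import Pool.Agent.Y876.AP.RoC
import Pool.Agent.H410R2.MSieve3
import Pool.Agent.H410R2.MFin1
import Pool.Agent.H362R2.CM.QuadUp

/-! The sums of the squares of the weights over one colour (helper876). -/

set_option autoImplicit false

namespace Pool.Agent.Y876.AP

open Finset
open Pool.Agent.H410R2
open Pool.Agent.H362R2.CM (YY era ymod era_ne psi_supp sum_avoid YY_ymod YY_nonneg le_YY era_fib
  YY_le sum_avoid_tuple_le)

section
variable {ι J : Type} [Fintype ι] [DecidableEq ι] [Fintype J] [DecidableEq J]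

theorem pow_union_le (h : ι → ℝ) (hh : ∀ t, 0 ≤ h t) (G : Finset ι → ℝ) (hG0 : ∀ a, 0 ≤ G a)
    (hG : ∀ a b, a ⊆ b → G b ≤ G a) (S C : Finset ι) :
    ∑ a ∈ (S ∪ C).powerset, (∏ t ∈ a, h t) * G a ≤
      (∏ t ∈ C, (1 + h t)) * ∑ a ∈ S.powerset, (∏ t ∈ a, h t) * G a := by
  have hpn : ∀ a : Finset ι, 0 ≤ ∏ t ∈ a, h t := fun a => Finset.prod_nonneg fun t _ => hh t
  induction C using Finset.induction_on with
  | empty => simp
  | insert r C hr ih =>
    have h0 : 0 ≤ ∑ a ∈ S.powerset, (∏ t ∈ a, h t) * G a :=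
      Finset.sum_nonneg fun a _ => mul_nonneg (hpn a) (hG0 a)
    have h1 : 0 ≤ ∏ t ∈ C, (1 + h t) := Finset.prod_nonneg fun t _ => by
      have := hh t
      linarith
    rw [Finset.prod_insert hr]
    by_cases hrS : r ∈ S ∪ C
    · have e : S ∪ insert r C = S ∪ C := by
        rw [Finset.union_insert, Finset.insert_eq_of_mem hrS]
      rw [e]
      refine le_trans ih ?_
      have := hh r
      have h2 := mul_nonneg h1 h0
      nlinarith
    · have e : S ∪ insert r C = insert r (S ∪ C) := Finset.union_insert _ _ _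
      rw [e, Finset.sum_powerset_insert hrS]
      have h2 : ∑ a ∈ (S ∪ C).powerset, (∏ t ∈ insert r a, h t) * G (insert r a) ≤
          h r * ∑ a ∈ (S ∪ C).powerset, (∏ t ∈ a, h t) * G a := by
        rw [Finset.mul_sum]
        apply Finset.sum_le_sum
        intro a ha
        have hra : r ∉ a := fun h' => hrS (Finset.mem_powerset.1 ha h')
        rw [Finset.prod_insert hra, mul_assoc]
        apply mul_le_mul_of_nonneg_left _ (hh r)
        exact mul_le_mul_of_nonneg_left (hG _ _ (Finset.subset_insert r a)) (hpn a)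
      have h3 := mul_le_mul_of_nonneg_left ih (by have := hh r; linarith : (0 : ℝ) ≤ 1 + h r)
      calc _ ≤ (1 + h r) * ∑ a ∈ (S ∪ C).powerset, (∏ t ∈ a, h t) * G a := by linarith
        _ ≤ _ := by linarith

/-- comparing the full sum and the sum over the free elements -/
theorem full_le_free (pr : ι → ℕ) (hp : ∀ t, 2 ≤ pr t) (G : Finset ι → ℝ) (hG0 : ∀ a, 0 ≤ G a)
    (hG : ∀ a b, a ⊆ b → G b ≤ G a) (ρ : ι → Option J) :
    mulc pr (fun p => ((p : ℝ) - 1) / p) ρ * ∑ a : Finset ι, G a * ∏ t ∈ a, (1 / ((pr t : ℝ) - 1)) ≤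
      ∑ a ∈ (free ρ).powerset, (∏ t ∈ a, (1 / ((pr t : ℝ) - 1))) * G a := by
  have h1 := pow_union_le (fun t => hz (pr t)) (fun t => hz_nonneg hp t) G hG0 hG (free ρ)
    (univ \ free ρ)
  have e1 : (free ρ ∪ (univ \ free ρ)) = univ := by
    rw [Finset.union_sdiff_of_subset (Finset.subset_univ _)]
  rw [e1, Finset.powerset_univ] at h1
  have e2 : ∏ t ∈ univ \ free ρ, (1 + hz (pr t)) = mulc pr (fun p => (p : ℝ) / ((p : ℝ) - 1)) ρ := by
    unfold mulc
    rw [← Finset.prod_subset (Finset.subset_univ (univ \ free ρ))]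
    · refine Finset.prod_congr rfl fun t ht => ?_
      have h2 : ρ t ≠ none := fun h => (Finset.mem_sdiff.1 ht).2 (mem_free.2 h)
      rw [if_neg h2, one_add_hz hp t]
    · intro t _ ht
      have h2 : ρ t = none := by
        by_contra hc
        exact ht (Finset.mem_sdiff.2 ⟨mem_univ _, fun h => hc (mem_free.1 h)⟩)
      rw [if_pos h2]
  rw [e2] at h1
  have e3 : mulc pr (fun p => ((p : ℝ) - 1) / p) ρ * mulc pr (fun p => (p : ℝ) / ((p : ℝ) - 1)) ρ =
      1 := by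
    rw [← mulc_mul]
    unfold mulc
    apply Finset.prod_eq_one
    intro t _
    have h3 := one_le_pr hp t
    split_ifs
    · rfl
    · have h4 : ((pr t : ℝ) - 1) ≠ 0 := by linarith
      have h5 : (pr t : ℝ) ≠ 0 := by linarith
      field_simp
  have hm0 : 0 ≤ mulc pr (fun p => ((p : ℝ) - 1) / p) ρ := by
    apply mulc_nonneg'
    intro t
    have h3 := one_le_pr hp t
    apply div_nonneg <;> linarith
  have h2 := mul_le_mul_of_nonneg_left h1 hm0
  rw [← mul_assoc, e3, one_mul] at h2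
  refine le_trans (le_of_eq ?_) (le_trans h2 (le_of_eq ?_))
  · congr 1
    refine Finset.sum_congr rfl fun a _ => ?_
    unfold hz
    ring
  · rfl

theorem fib_put_ne (j : J) (ρ : ι → Option J) (a : Finset ι) (ha : a ⊆ free ρ) (l : J)
    (hl : l ≠ j) : fib (put j ρ a) l = fib ρ l := by
  ext t
  rw [mem_fib, mem_fib]
  unfold put
  by_cases hta : t ∈ a
  · rw [if_pos hta, mem_free.1 (ha hta)]
    constructor
    · intro h
      exact absurd (Option.some.inj h).symm hl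
    · intro h
      exact absurd h (by simp)
  · rw [if_neg hta]

theorem yw_put_ge (pr : ι → ℕ) (o i : J) (hio : i ≠ o) (GG : J → ℝ → ℝ) (hG : Prof J GG)
    (Lc M : ℝ) (hcut : ∀ j, j ≠ o → ∀ s, 0 ≤ s → M < s → GG j s = 0)
    (ρ : ι → Option J) (hρ : ρ ∈ goodC pr o i (Lc - M)) (a : Finset ι) (ha : a ⊆ free ρ) :
    (∏ j ∈ univ.erase i, GG j (lg pr (fib ρ j))) * GG i (lg pr a) ≤ yw pr o GG Lc (put i ρ a) := by
  obtain ⟨-, hσ1, hσ2⟩ := Finset.mem_filter.1 hρ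
  have hfi : fib (put i ρ a) i = a := fib_put i ρ hσ1 a
  have hfj : ∀ j, j ≠ i → fib (put i ρ a) j = fib ρ j := fun j hj => fib_put_ne i ρ a ha j hj
  by_cases hz : GG i (lg pr a) = 0
  · rw [hz, mul_zero]
    exact yw_nonneg pr o GG hG Lc _
  · have hla : lg pr a ≤ M := by
      by_contra hcon
      exact hz (hcut i hio _ (lg_nonneg _ _) (not_le.1 hcon))
    have hi' : i ∈ (univ : Finset J).erase o := Finset.mem_erase.2 ⟨hio, Finset.mem_univ _⟩
    have hcond : ∑ j ∈ univ.erase o, lg pr (fib (put i ρ a) j) ≤ Lc := by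
      rw [← Finset.add_sum_erase _ _ hi', hfi]
      have e1 : ∑ j ∈ (univ.erase o).erase i, lg pr (fib (put i ρ a) j) =
          ∑ j ∈ (univ.erase o).erase i, lg pr (fib ρ j) := by
        refine Finset.sum_congr rfl fun j hj => ?_
        rw [hfj j (Finset.ne_of_mem_erase hj)]
      have e2 : ∑ j ∈ (univ.erase o).erase i, lg pr (fib ρ j) ≤
          ∑ j ∈ univ.erase o, lg pr (fib ρ j) :=
        Finset.sum_le_sum_of_subset_of_nonneg (Finset.erase_subset _ _)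
          fun j _ _ => lg_nonneg _ _
      rw [e1]
      linarith
    unfold yw
    rw [if_pos hcond, mul_one, ← Finset.mul_prod_erase univ _ (Finset.mem_univ i), hfi, mul_comm]
    apply le_of_eq
    congr 1
    refine Finset.prod_congr rfl fun j hj => ?_
    rw [hfj j (Finset.ne_of_mem_erase hj)]

/-- lower bound for the sum over one colour -/
theorem YY_ge (pr : ι → ℕ) (hp : ∀ t, 2 ≤ pr t) (o i : J) (hio : i ≠ o) (GG : J → ℝ → ℝ)
    (hG : Prof J GG) (Lc M : ℝ) (hcut : ∀ j, j ≠ o → ∀ s, 0 ≤ s → M < s → GG j s = 0)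
    (ρ : ι → Option J) (hρ : ρ ∈ goodC pr o i (Lc - M)) :
    (∏ j ∈ univ.erase i, GG j (lg pr (fib ρ j))) * (mulc pr (fun p => ((p : ℝ) - 1) / p) ρ *
      ∑ a : Finset ι, GG i (lg pr a) * ∏ t ∈ a, (1 / ((pr t : ℝ) - 1))) ≤
      YY i pr (yw pr o GG Lc) ρ := by
  have hσ1 : ∀ t, ρ t ≠ some i := (Finset.mem_filter.1 hρ).2.1
  rw [YY_eq i pr _ ρ hσ1]
  have h1 := full_le_free pr hp (fun a => GG i (lg pr a)) (fun a => hG.nonneg i _ (lg_nonneg _ _))
    (fun a b hab => hG.anti i _ _ (lg_nonneg _ _) (lg_mono pr hab)) ρ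
  have h2 : 0 ≤ ∏ j ∈ univ.erase i, GG j (lg pr (fib ρ j)) :=
    Finset.prod_nonneg fun j _ => hG.nonneg j _ (lg_nonneg _ _)
  refine le_trans (mul_le_mul_of_nonneg_left h1 h2) ?_
  rw [Finset.mul_sum]
  apply Finset.sum_le_sum
  intro a ha
  have h3 := yw_put_ge pr o i hio GG hG Lc M hcut ρ hρ a (Finset.mem_powerset.1 ha)
  calc _ = (∏ t ∈ a, (1 / ((pr t : ℝ) - 1))) *
        ((∏ j ∈ univ.erase i, GG j (lg pr (fib ρ j))) * GG i (lg pr a)) := by ring
    _ ≤ _ := mul_le_mul_of_nonneg_left h3 (prodhz_nonneg hp a)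

theorem mulc_mono (pr : ι → ℕ) (f g : ℕ → ℝ) (hf : ∀ t, 0 ≤ f (pr t))
    (hfg : ∀ t, f (pr t) ≤ g (pr t)) (ρ : ι → Option J) : mulc pr f ρ ≤ mulc pr g ρ := by
  unfold mulc
  apply Finset.prod_le_prod
  · intro t _
    split_ifs
    · norm_num
    · exact hf t
  · intro t _
    split_ifs
    · exact le_rfl
    · exact hfg t

/-- lower bound for the sum of the squares -/
theorem YYlow (pr : ι → ℕ) (hp2 : ∀ t, 2 ≤ pr t) (hp : ∀ t, Fintype.card J + 1 ≤ pr t)
    (o i : J) (hio : i ≠ o)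
    (GG : J → ℝ → ℝ) (hG : Prof J GG) (Lc M lam : ℝ) (hlam : 0 ≤ lam) (EE : ℝ → ℝ)
    (hE0 : ∀ s, 0 ≤ s → 0 ≤ EE s)
    (hE : ∀ s, 0 ≤ s → s ≤ M → Real.exp (lam * s) ≤ EE s)
    (hcut : ∀ j, j ≠ o → ∀ s, 0 ≤ s → M < s → GG j s = 0) :
    (∑ a : Finset ι, GG i (lg pr a) * ∏ t ∈ a, (1 / ((pr t : ℝ) - 1))) ^ 2 *
      ((1 - (Fintype.card J : ℝ) ^ 2 * ∑ t, hb (Fintype.card J + 1) (pr t) ^ 2) *
        ((∑ a : Finset ι, (∏ t ∈ a, hb (Fintype.card J + 1) (pr t)) * GG o (lg pr a) ^ 2) *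
          ∏ j ∈ (univ.erase i).erase o, ∑ a : Finset ι,
            (∏ t ∈ a, hb (Fintype.card J + 1) (pr t)) * GG j (lg pr a) ^ 2) -
      Real.exp (-(lam * (Lc - M))) *
        ((∑ a : Finset ι, (∏ t ∈ a, hb (Fintype.card J + 1) (pr t)) * GG o (lg pr a) ^ 2) *
          ∏ j ∈ (univ.erase i).erase o,
            ∑ a : Finset ι, (∏ t ∈ a, hb (Fintype.card J + 1) (pr t)) *
              (GG j (lg pr a) ^ 2 * EE (lg pr a)))) ≤
    ∑ ρ ∈ avoid ι i, YY i pr (yw pr o GG Lc) ρ ^ 2 *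
      mulc pr (fun p => hm (Fintype.card J) p * ((p : ℝ) / ((p : ℝ) - 1))) ρ := by
  set K := Fintype.card J with hK
  set SI := ∑ a : Finset ι, GG i (lg pr a) * ∏ t ∈ a, (1 / ((pr t : ℝ) - 1)) with hSI
  have hb0 : ∀ t, 0 ≤ hb (K + 1) (pr t) := by
    intro t
    unfold hb
    have h1 : ((K + 1 : ℕ) : ℝ) ≤ pr t := by exact_mod_cast hp t
    exact div_nonneg (by linarith) (sq_nonneg _)
  have hmn : ∀ t, 0 ≤ hm K (pr t) * ((pr t : ℝ) / ((pr t : ℝ) - 1)) := by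
    intro t
    have h1 := one_le_pr hp2 t
    apply mul_nonneg
    · exact hm_nonneg hp2 (fun t => by have := hp t; omega) t
    · apply div_nonneg <;> linarith
  have hSI0 : 0 ≤ SI := Finset.sum_nonneg fun a _ =>
    mul_nonneg (hG.nonneg i _ (lg_nonneg _ _)) (prodhz_nonneg hp2 a)
  have h1 := tuple_lower pr o i hio (hb (K + 1)) hb0 GG hG (Lc - M) M lam hlam EE hE0 hE hcut
  refine le_trans (mul_le_mul_of_nonneg_left h1 (sq_nonneg _)) ?_
  rw [Finset.mul_sum]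
  have hsub : goodC pr o i (Lc - M) ⊆ avoid ι i := by
    intro ρ hρ
    exact mem_avoid.2 (Finset.mem_filter.1 hρ).2.1
  refine le_trans ?_ (Finset.sum_le_sum_of_subset_of_nonneg hsub fun ρ _ _ =>
    mul_nonneg (sq_nonneg _) (mulc_nonneg' pr _ hmn ρ))
  apply Finset.sum_le_sum
  intro ρ hρ
  have h2 := YY_ge pr hp2 o i hio GG hG Lc M hcut ρ hρ
  rw [← hSI] at h2
  set Pi := ∏ j ∈ univ.erase i, GG j (lg pr (fib ρ j)) with hPi
  have hPi0 : 0 ≤ Pi := Finset.prod_nonneg fun j _ => hG.nonneg j _ (lg_nonneg _ _)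
  set μ := mulc pr (fun p => ((p : ℝ) - 1) / p) ρ with hμ
  have hμ0 : 0 ≤ μ := by
    apply mulc_nonneg'
    intro t
    have h3 := one_le_pr hp2 t
    apply div_nonneg <;> linarith
  have h3 := pow_le_pow_left₀ (mul_nonneg hPi0 (mul_nonneg hμ0 hSI0)) h2 2
  have h4 := mul_le_mul_of_nonneg_right h3
    (mulc_nonneg' pr (fun p => hm K p * ((p : ℝ) / ((p : ℝ) - 1))) hmn ρ)
  refine le_trans ?_ h4
  have h5 : mulc pr (hb (K + 1)) ρ ≤
      μ ^ 2 * mulc pr (fun p => hm K p * ((p : ℝ) / ((p : ℝ) - 1))) ρ := by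
    have e1 : μ ^ 2 * mulc pr (fun p => hm K p * ((p : ℝ) / ((p : ℝ) - 1))) ρ =
        mulc pr (fun p => (((p : ℝ) - 1) / p) * ((((p : ℝ) - 1) / p) *
          (hm K p * ((p : ℝ) / ((p : ℝ) - 1))))) ρ := by
      rw [mulc_mul pr (fun p => ((p : ℝ) - 1) / p)
        (fun p => (((p : ℝ) - 1) / p) * (hm K p * ((p : ℝ) / ((p : ℝ) - 1)))),
        mulc_mul pr (fun p => ((p : ℝ) - 1) / p) (fun p => hm K p * ((p : ℝ) / ((p : ℝ) - 1)))]
      ring
    rw [e1]
    apply mulc_mono pr _ _ hb0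
    intro t
    have h6 := one_le_pr hp2 t
    have h7 : ((K + 1 : ℕ) : ℝ) ≤ pr t := by exact_mod_cast hp t
    push_cast at h7
    have h8 : (0 : ℝ) < (pr t : ℝ) - 1 := by linarith
    have h9 : (0 : ℝ) < (pr t : ℝ) := by linarith
    have e2 : ((pr t : ℝ) - 1) / pr t * (((pr t : ℝ) - 1) / pr t *
        (hm K (pr t) * ((pr t : ℝ) / ((pr t : ℝ) - 1)))) =
        ((pr t : ℝ) - K) / ((pr t : ℝ) * ((pr t : ℝ) - 1)) := by
      unfold hm
      field_simp
    rw [e2]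
    unfold hb
    push_cast
    rw [div_le_div_iff₀ (by positivity) (by positivity)]
    have h10 : (0 : ℝ) ≤ K := Nat.cast_nonneg K
    have h11 : ((pr t : ℝ) - (K + 1)) * pr t ≤ ((pr t : ℝ) - K) * ((pr t : ℝ) - 1) := by nlinarith
    calc ((pr t : ℝ) - (K + 1)) * ((pr t : ℝ) * ((pr t : ℝ) - 1)) =
        (((pr t : ℝ) - (K + 1)) * pr t) * ((pr t : ℝ) - 1) := by ring
      _ ≤ (((pr t : ℝ) - K) * ((pr t : ℝ) - 1)) * ((pr t : ℝ) - 1) :=
        mul_le_mul_of_nonneg_right h11 h8.le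
      _ = _ := by ring
  have h6 := mul_le_mul_of_nonneg_left h5 (mul_nonneg (sq_nonneg SI) (sq_nonneg Pi))
  calc SI ^ 2 * (Pi ^ 2 * mulc pr (hb (K + 1)) ρ) = SI ^ 2 * Pi ^ 2 * mulc pr (hb (K + 1)) ρ := by
        ring
    _ ≤ _ := h6
    _ = _ := by ring

/-- upper bound for the sum of the squares -/
theorem YYup (pr : ι → ℕ) (hp2 : ∀ t, 2 ≤ pr t) (o i : J)
    (GG : J → ℝ → ℝ) (hG : Prof J GG) (Lc : ℝ) :
    ∑ ρ ∈ avoid ι i, YY i pr (yw pr o GG Lc) ρ ^ 2 *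
      mulc pr (fun p => hq p * ((p : ℝ) / ((p : ℝ) - 1))) ρ ≤
    (∑ a : Finset ι, GG i (lg pr a) * ∏ t ∈ a, (1 / ((pr t : ℝ) - 1))) ^ 2 *
      ∏ l ∈ univ.erase i, ∑ a : Finset ι, (∏ t ∈ a, h6 (pr t)) *
        GG l (lg pr a) ^ 2 := by
  set SI := ∑ a : Finset ι, GG i (lg pr a) * ∏ t ∈ a, (1 / ((pr t : ℝ) - 1)) with hSI
  have hhn : ∀ t, 0 ≤ h6 (pr t) := h6_nonneg hp2
  have h0 : ∀ t, 0 ≤ hq (pr t) * ((pr t : ℝ) / ((pr t : ℝ) - 1)) := by
    intro t
    have h3 := one_le_pr hp2 t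
    apply mul_nonneg (hq_nonneg hp2 t)
    apply div_nonneg <;> linarith
  calc ∑ ρ ∈ avoid ι i, YY i pr (yw pr o GG Lc) ρ ^ 2 *
      mulc pr (fun p => hq p * ((p : ℝ) / ((p : ℝ) - 1))) ρ
      ≤ ∑ ρ ∈ avoid ι i, SI ^ 2 * ∏ l ∈ univ.erase i,
          ((∏ t ∈ fib ρ l, h6 (pr t)) * GG l (lg pr (fib ρ l)) ^ 2) := by
        apply Finset.sum_le_sum
        intro ρ hρ
        have hρ' := mem_avoid.1 hρ
        have h1 := YY_le i pr hp2 (yw pr o GG Lc) (fun l a => GG l (lg pr a))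
          (fun l a => hG.nonneg l _ (lg_nonneg _ _)) (fun τ => yw_le_prod pr o GG hG Lc τ) ρ hρ'
        rw [← hSI] at h1
        have h2 := YY_nonneg i pr hp2 (yw pr o GG Lc) (fun τ => yw_nonneg pr o GG hG Lc τ) ρ
        have h3 := pow_le_pow_left₀ h2 h1 2
        have h4 : mulc pr (fun p => hq p * ((p : ℝ) / ((p : ℝ) - 1))) ρ ≤
            ∏ l ∈ univ.erase i, ∏ t ∈ fib ρ l, h6 (pr t) := by
          have e1 : ∏ l ∈ univ.erase i, ∏ t ∈ fib ρ l, h6 (pr t) =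
              mulc pr h6 ρ := by
            rw [mulc_eq, ← Finset.mul_prod_erase univ _ (Finset.mem_univ i)]
            have : fib ρ i = ∅ := (fib_eq_empty ρ i).2 hρ'
            rw [this, Finset.prod_empty, one_mul]
          rw [e1]
          apply mulc_mono pr _ _ h0
          intro t
          have h5 := one_le_pr hp2 t
          have h6 : (0 : ℝ) < (pr t : ℝ) - 1 := by linarith
          unfold hq AP.h6
          rw [div_mul_div_comm, div_le_div_iff₀ (by positivity) (by positivity)]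
          have h7 : ((pr t : ℝ) - 1) ^ 3 ≤ (pr t : ℝ) ^ 3 := by
            apply pow_le_pow_left₀ h6.le
            linarith
          calc (pr t : ℝ) * pr t * ((pr t : ℝ) - 1) ^ 6 =
              ((pr t : ℝ) ^ 2 * ((pr t : ℝ) - 1) ^ 3) * ((pr t : ℝ) - 1) ^ 3 := by ring
            _ ≤ ((pr t : ℝ) ^ 2 * ((pr t : ℝ) - 1) ^ 3) * (pr t : ℝ) ^ 3 :=
              mul_le_mul_of_nonneg_left h7 (by positivity)
            _ = _ := by ring
        have h5 : 0 ≤ ((∏ l ∈ univ.erase i, GG l (lg pr (fib ρ l))) * SI) ^ 2 := sq_nonneg _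
        calc _ ≤ ((∏ l ∈ univ.erase i, GG l (lg pr (fib ρ l))) * SI) ^ 2 *
              ∏ l ∈ univ.erase i, ∏ t ∈ fib ρ l, h6 (pr t) :=
              mul_le_mul h3 h4 (mulc_nonneg' pr _ h0 ρ) h5
          _ = _ := by
              rw [Finset.prod_mul_distrib, Finset.prod_pow]
              ring
    _ = SI ^ 2 * ∑ ρ ∈ avoid ι i, ∏ l ∈ univ.erase i,
          ((∏ t ∈ fib ρ l, h6 (pr t)) * GG l (lg pr (fib ρ l)) ^ 2) := by
        rw [Finset.mul_sum]
    _ ≤ _ := by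
        apply mul_le_mul_of_nonneg_left _ (sq_nonneg _)
        exact sum_avoid_tuple_le i (fun l a => (∏ t ∈ a, h6 (pr t)) *
          GG l (lg pr a) ^ 2) (fun l a => mul_nonneg (Finset.prod_nonneg fun t _ => hhn t)
            (sq_nonneg _))

end

end Pool.Agent.Y876.AP
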