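import Mathlib
import Pool.Agent.Y876.AP.YS
import Pool.Agent.H362R2.CM.PairQ
import Pool.Agent.H362R2.CM.S1L

/-! The rough bounds for the concrete weights (helper876). -/

set_option autoImplicit false

namespace Pool.Agent.Y876.AP

open Finset Filter Topology
open Pool.Agent.H410R2 hiding GP GP_prof GP_cut_some GP_cut_none GP_lip gg_pos gg_le_one gg_anti ee_bound ee_nonneg gg_lip LB_gg LB_ee Sums exists_sums yx wx wxi Br sum_GP_none sum_GP_some sum_GP_some_ee sum_GP_some_one sum_GPr_none sum_GPr_some S1_final QI_final S2_final w_abs_le wmax gg ee I1 I2 IE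
open Pool.Agent.H361R2.GM
open Pool.Agent.H362R2.CM (YY YY_nonneg IP prP yP wP Q1 sumS_eq sum_GP_none_P sum_GP_some_P
  sum_GP_some_ee_P sum_GP_some_one_P sumZ_eq)

variable {k : ℕ}

/-- the one-dimensional sums for the upper bounds -/
structure SumsR (Q : SPar) (D : ℕ) (ε : ℝ) (L : ℝ) (P : Finset ℕ) : Prop where
  a : SS P h1 Q.c L Q.gg ≤ BD D * L * (Q.I1 + ε)
  b : SS P h0 Q.c L Q.gg ≤ BD D * L * (Q.I1 + ε)
  c : SS P h6 1 (L / 48) (fun t => (1 - t) ^ 2) ≤ BD D * (L / 48) * (1 / 3 + ε)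
  d : SS P h6 Q.c L (fun t => Q.gg t ^ 2) ≤ BD D * L * (Q.I2 + ε)

theorem yP_hyp (Q : SPar) (P : Finset ℕ) (L : ℝ) (hL : 0 < L) :
    YHyp (prP P) (yP Q k P L) (L / 48 + L) where
  nonneg := fun σ => yw_nonneg _ _ _ (GP_prof Q k L (L / 48) hL (by positivity)) _ σ
  le_one := fun σ => yw_le_one _ _ _ (GP_prof Q k L (L / 48) hL (by positivity)) _ σ
  anti := fun σ σ' h => yw_anti _ _ _ (GP_prof Q k L (L / 48) hL (by positivity)) _ σ σ' h
  supp := fun σ h => yw_supp _ _ _ _ _ (fun s hs hs' => GP_cut_none Q k _ _ s hs hs') σ h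

theorem YYlow_P (Q : SPar) {a b : Fin k → ℕ} {D v : ℕ} (hc : Ctx a b D v)
    (ε : ℝ) (hε : 0 < ε) (hε1 : ε < 1 / 3) (hI1 : ε < Q.I1) (hI2 : ε < Q.I2)
    (hBr : 0 < Br Q k ε) (L : ℝ) (hL : 0 < L) (P : Finset ℕ) (hP : ∀ p ∈ P, p.Prime ∧ D < p)
    (hovl : ((k + 1 : ℕ) : ℝ) ^ 2 * ∑ t : IP P, (hb (k + 2) (prP P t)) ^ 2 ≤ ε)
    (hS : Sums Q D ε (k + 2) L (L / 48) P) (i : Fin k) :
    (BD D * L * (Q.I1 - ε)) ^ 2 *
      (BD D * (L / 48) * (BD D * L) ^ (k - 1) * Br Q k ε) ≤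
      ∑ ρ ∈ avoid (IP P) (some i : Option (Fin k)), YY (some i) (prP P) (yP Q k P L) ρ ^ 2 *
        mulc (prP P) (fun p => hm (k + 1) p * ((p : ℝ) / ((p : ℝ) - 1))) ρ := by
  have hp0 : ∀ p ∈ P, 0 < p := fun p hp => (hP p hp).1.pos
  have hL0 : 0 < L / 48 := by positivity
  have hB := hc.BDpos
  have hprof := GP_prof Q k L (L / 48) hL hL0
  have hp2 : ∀ t : IP P, 2 ≤ prP P t := fun t => (hP t.1 t.2).1.two_le
  have hp : ∀ t : IP P, Fintype.card (Option (Fin k)) + 1 ≤ prP P t := by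
    intro t
    rw [cardJ]
    have h1 := (hP t.1 t.2).2
    have h2 := hc.hD
    have : prP P t = t.1 := rfl
    omega
  have hpr : ∀ t : IP P, 0 ≤ hb (k + 2) (prP P t) := by
    intro t
    have h1 := hp t
    rw [cardJ] at h1
    have h2 : (((k + 1 : ℕ) + 1 : ℕ) : ℝ) ≤ (prP P t : ℝ) := by exact_mod_cast h1
    push_cast at h2
    unfold hb
    push_cast
    apply div_nonneg
    · linarith
    · positivity
  have h := YYlow (prP P) hp2 hp none (some i) (by simp) (GP Q k L (L / 48)) hprof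
    L (Q.c * L) (Q.lam / L) (by have := Q.hlam; positivity) (fun s => Q.ee (s / L))
    (fun s hs => ee_nonneg Q L hL s hs) (fun s hs h => ee_bound Q L hL s hs h)
    (fun j hj s hs h => GP_cut_some Q k L (L / 48) j hj s hs h)
  rw [cardJ] at h
  refine le_trans ?_ h
  have e1 : ∑ a : Finset (IP P), GP Q k L (L / 48) (some i) (lg (prP P) a) *
      ∏ t ∈ a, (1 / ((prP P t : ℝ) - 1)) = SS P h0 Q.c L Q.gg :=
    sum_GP_some_one_P Q P hp0 L i h0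
  have e2 := sum_GP_none_P (k := k) Q P hp0 L (hb (k + 1 + 1))
  have e3 : ∏ j ∈ (univ.erase (some i)).erase none, ∑ a : Finset (IP P),
      (∏ t ∈ a, hb (k + 1 + 1) (prP P t)) * GP Q k L (L / 48) j (lg (prP P) a) ^ 2 =
      (SS P (hb (k + 1 + 1)) Q.c L (fun t => Q.gg t ^ 2)) ^ (k - 1) :=
    prod_erase_erase _ i _ (fun j => sum_GP_some_P Q P hp0 L j (hb (k + 1 + 1)))
  have e4 : ∏ j ∈ (univ.erase (some i)).erase none, ∑ a : Finset (IP P),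
      (∏ t ∈ a, hb (k + 1 + 1) (prP P t)) * (GP Q k L (L / 48) j (lg (prP P) a) ^ 2 *
        Q.ee (lg (prP P) a / L)) =
      (SS P (hb (k + 1 + 1)) Q.c L (fun t => Q.gg t ^ 2 * Q.ee t)) ^ (k - 1) :=
    prod_erase_erase _ i _ (fun j => sum_GP_some_ee_P Q P hp0 L j (hb (k + 1 + 1)))
  have e5 : Real.exp (-(Q.lam / L * (L - Q.c * L))) = Real.exp (-(Q.lam * (1 - Q.c))) := by
    congr 1
    field_simp
  simp only [e1, e2, e3, e4, e5]
  have hhb : ∀ p ∈ P, 0 ≤ hb (k + 1 + 1) p := fun p hp => hpr ⟨p, hp⟩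
  have nS0 : 0 ≤ SS P (hb (k + 1 + 1)) 1 (L / 48) (fun t => (1 - t) ^ 2) :=
    SS_nonneg _ _ _ _ _ hhb hp0 hL0 fun t _ => sq_nonneg _
  have nSE : 0 ≤ SS P (hb (k + 1 + 1)) Q.c L (fun t => Q.gg t ^ 2 * Q.ee t) :=
    SS_nonneg _ _ _ _ _ hhb hp0 hL fun t ht => by
      have := Q.hlam
      unfold SPar.ee
      positivity
  set S0 := SS P (hb (k + 1 + 1)) 1 (L / 48) (fun t => (1 - t) ^ 2) with hS0
  set S1 := SS P (hb (k + 1 + 1)) Q.c L (fun t => Q.gg t ^ 2) with hS1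
  set SE := SS P (hb (k + 1 + 1)) Q.c L (fun t => Q.gg t ^ 2 * Q.ee t) with hSE
  set SI := SS P h0 Q.c L Q.gg with hSI
  set ov := ((k + 1 : ℕ) : ℝ) ^ 2 * ∑ t : IP P, (hb (k + 1 + 1) (prP P t)) ^ 2 with hov
  have hov' : ov ≤ ε := hovl
  have b2 : (BD D * L * (Q.I1 - ε)) ^ 2 ≤ SI ^ 2 := by
    have h1 : 0 ≤ Q.I1 - ε := by linarith
    have := hS.d
    gcongr
  have b3 : (1 - ε) * ((BD D * (L / 48) * (1 / 3 - ε)) * (BD D * L * (Q.I2 - ε)) ^ (k - 1)) ≤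
      (1 - ov) * (S0 * S1 ^ (k - 1)) := by
    have h1 : 0 ≤ 1 / 3 - ε := by linarith
    have h2 : 0 ≤ Q.I2 - ε := by linarith
    have h3 : BD D * (L / 48) * (1 / 3 - ε) ≤ S0 := hS.e
    have h4 : BD D * L * (Q.I2 - ε) ≤ S1 := hS.f
    have h5 : 0 ≤ 1 - ε := by linarith
    have h6 : 1 - ε ≤ 1 - ov := by linarith
    have h7 : 0 ≤ 1 - ov := by linarith
    gcongr
  have b4 : Real.exp (-(Q.lam * (1 - Q.c))) * (S0 * SE ^ (k - 1)) ≤
      Real.exp (-(Q.lam * (1 - Q.c))) * ((BD D * (L / 48) * (1 / 3 + ε)) *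
        (BD D * L * (Q.IE + ε)) ^ (k - 1)) := by
    have h3 : S0 ≤ BD D * (L / 48) * (1 / 3 + ε) := hS.e'
    have h4 : SE ≤ BD D * L * (Q.IE + ε) := hS.g
    gcongr
  have b5 : BD D * (L / 48) * (BD D * L) ^ (k - 1) * Br Q k ε ≤
      (1 - ov) * (S0 * S1 ^ (k - 1)) - Real.exp (-(Q.lam * (1 - Q.c))) * (S0 * SE ^ (k - 1)) := by
    have e : BD D * (L / 48) * (BD D * L) ^ (k - 1) * Br Q k ε =
        (1 - ε) * ((BD D * (L / 48) * (1 / 3 - ε)) * (BD D * L * (Q.I2 - ε)) ^ (k - 1)) -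
        Real.exp (-(Q.lam * (1 - Q.c))) * ((BD D * (L / 48) * (1 / 3 + ε)) *
        (BD D * L * (Q.IE + ε)) ^ (k - 1)) := by
      unfold Br
      rw [mul_pow (BD D * L) (Q.I2 - ε), mul_pow (BD D * L) (Q.IE + ε)]
      ring
    rw [e]
    linarith
  have n5 : 0 ≤ BD D * (L / 48) * (BD D * L) ^ (k - 1) * Br Q k ε := by positivity
  gcongr

theorem YYup_P (Q : SPar) {a b : Fin k → ℕ} {D v : ℕ} (hc : Ctx a b D v)
    (ε : ℝ) (hε : 0 < ε) (hI1 : 0 < Q.I1) (hI2 : 0 < Q.I2)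
    (L : ℝ) (hL : 0 < L) (P : Finset ℕ) (hP : ∀ p ∈ P, p.Prime ∧ D < p)
    (hS : SumsR Q D ε L P) (i : Fin k) :
    ∑ ρ ∈ avoid (IP P) (some i : Option (Fin k)), YY (some i) (prP P) (yP Q k P L) ρ ^ 2 *
        mulc (prP P) (fun p => hq p * ((p : ℝ) / ((p : ℝ) - 1))) ρ ≤
      (BD D * L * (Q.I1 + ε)) ^ 2 *
      ((BD D * (L / 48) * (1 / 3 + ε)) * (BD D * L * (Q.I2 + ε)) ^ (k - 1)) := by
  have hp0 : ∀ p ∈ P, 0 < p := fun p hp => (hP p hp).1.pos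
  have hL0 : 0 < L / 48 := by positivity
  have hB := hc.BDpos
  have hprof := GP_prof Q k L (L / 48) hL hL0
  have hp2 : ∀ t : IP P, 2 ≤ prP P t := fun t => (hP t.1 t.2).1.two_le
  have h := YYup (prP P) hp2 none (some i) (GP Q k L (L / 48)) hprof L
  refine le_trans h ?_
  have e1 : ∑ a : Finset (IP P), GP Q k L (L / 48) (some i) (lg (prP P) a) *
      ∏ t ∈ a, (1 / ((prP P t : ℝ) - 1)) = SS P h0 Q.c L Q.gg :=
    sum_GP_some_one_P Q P hp0 L i h0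
  have hn : (none : Option (Fin k)) ∈ univ.erase (some i) := by simp
  have e2 : ∏ l ∈ univ.erase (some i), ∑ a : Finset (IP P), (∏ t ∈ a, h6 (prP P t)) *
        GP Q k L (L / 48) l (lg (prP P) a) ^ 2 =
      SS P h6 1 (L / 48) (fun t => (1 - t) ^ 2) *
        (SS P h6 Q.c L (fun t => Q.gg t ^ 2)) ^ (k - 1) := by
    rw [← Finset.mul_prod_erase _ _ hn]
    rw [prod_erase_erase _ i _ (fun j => sum_GP_some_P Q P hp0 L j h6),
      sum_GP_none_P (k := k) Q P hp0 L h6]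
  have hSI0 : 0 ≤ SS P h0 Q.c L Q.gg := SS_nonneg _ _ _ _ _ (fun p hp => by
    have h1 : (2 : ℝ) ≤ p := by exact_mod_cast (hP p hp).1.two_le
    unfold h0
    apply div_nonneg zero_le_one (by linarith)) hp0 hL (fun t ht => (gg_pos Q ht).le)
  have hh6 : ∀ p ∈ P, 0 ≤ h6 p := fun p hp => h6_nonneg hp2 ⟨p, hp⟩
  have n1 : 0 ≤ SS P h6 1 (L / 48) (fun t => (1 - t) ^ 2) :=
    SS_nonneg _ _ _ _ _ hh6 hp0 hL0 fun t _ => sq_nonneg _
  have n2 : 0 ≤ SS P h6 Q.c L (fun t => Q.gg t ^ 2) :=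
    SS_nonneg _ _ _ _ _ hh6 hp0 hL fun t _ => sq_nonneg _
  rw [e1, e2]
  have b1 := hS.b
  have b2 := hS.c
  have b3 := hS.d
  gcongr

end Pool.Agent.Y876.AP
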