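import Mathlib
import Pool.Agent.Y876.AP.Conc

/-! The rough bounds for the concrete weights, final form (helper876). -/

set_option autoImplicit false

namespace Pool.Agent.Y876.AP

open Finset Filter Topology
open Pool.Agent.H410R2 hiding GP GP_prof GP_cut_some GP_cut_none GP_lip gg_pos gg_le_one gg_anti ee_bound ee_nonneg gg_lip LB_gg LB_ee Sums exists_sums yx wx wxi Br sum_GP_none sum_GP_some sum_GP_some_ee sum_GP_some_one sum_GPr_none sum_GPr_some S1_final QI_final S2_final w_abs_le wmax gg ee I1 I2 IE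
open Pool.Agent.H361R2.GM
open Pool.Agent.H362R2.CM (YY YY_nonneg IP prP yP wP Q1 sumS_eq sum_GP_none_P sum_GP_some_P
  sum_GP_some_ee_P sum_GP_some_one_P sumZ_eq)

variable {k : ℕ}

/-- the error term of the lower bound -/
noncomputable def ErrB (k : ℕ) (P : Finset ℕ) (L Λ x : ℝ) : ℝ :=
  (Real.log x + 1) * (1 + ∑ t : IP P, (Real.log (prP P t) / Λ +
    2 * ((k + 1 : ℕ) : ℝ) / ((prP P t : ℝ) - 1)) ^ 2) *
      (Gt (prP P) * (Real.exp (Λ + (L / 48 + L)) *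
        ∏ t : IP P, (1 + 3 * ((k + 1 : ℕ) : ℝ) / (prP P t : ℝ)))) ^ 2

/-- the error term of the upper bound -/
noncomputable def ErrC (k : ℕ) (P : Finset ℕ) (L Λ x C : ℝ) : ℝ :=
  (Real.log x + 1) * (C * Gt (prP P) ^ 2 * (Real.exp (Λ + (Λ + (L / 48 + L))) *
    ∏ t : IP P, (1 + 3 * ((k + 1 : ℕ) : ℝ) / (prP P t : ℝ)))) ^ 2

theorem rough_low (Q : SPar) (hT1 : S1Upper) {a b : Fin k → ℕ} {D v : ℕ} (hc : Ctx a b D v)
    (ε : ℝ) (hε : 0 < ε) (hε1 : ε < 1 / 3) (hI1 : ε < Q.I1) (hI2 : ε < Q.I2)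
    (hBr : 0 < Br Q k ε) (L : ℝ) (hL : 0 < L) (P : Finset ℕ) (hP : ∀ p ∈ P, p.Prime ∧ D < p)
    (hκ : kap (k + 1) (prP P) ≤ 1 + ε)
    (hovl : ((k + 1 : ℕ) : ℝ) ^ 2 * ∑ t : IP P, (hb (k + 2) (prP P t)) ^ 2 ≤ ε)
    (hS : Sums Q D ε (k + 2) L (L / 48) P) (hR : SumsR Q D ε L P)
    (Λ : ℝ) (hΛ : 0 < Λ) (θ : ℝ) (hθ0 : 0 ≤ θ) (hθ1 : θ ≤ 1 / 4)
    (hθ : ∑ t : IP P, Real.log (prP P t) / prP P t ≤ θ * Λ)
    (η : ℝ) (hη : ∑ t : IP P, (1 / (prP P t : ℝ)) *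
      (Real.log (prP P t) / Λ + 2 * ((k + 1 : ℕ) : ℝ) / ((prP P t : ℝ) - 1)) ^ 2 ≤ η)
    (x : ℝ) (hx : 1 ≤ x) (i : Fin k) :
    Q1 k D x L * (BD D * L / Gt (prP P)) *
        ((1 - 2 * θ) / (1 + ε) * ((Q.I1 - ε) ^ 2 * Br Q k ε) -
          η * ((1 + ε) / (1 - θ) ^ 2 * ((Q.I1 + ε) ^ 2 * ((1 / 3 + ε) * (Q.I2 + ε) ^ (k - 1))))) -
      ErrB k P L Λ x ≤
    ∑ n ∈ (Icc 1 ⌊x⌋₊).filter (fun n => n ≡ v [MOD (WW D)] ∧ ∀ t : IP P, ¬ prP P t ∣ a i * n + b i),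
        Real.log (x / n) * (wP Q a b P L n) ^ 2 := by
  have hB := hc.BDpos
  have hp2 : ∀ t : IP P, 2 ≤ prP P t := fun t => (hP t.1 t.2).1.two_le
  have hJ : ∀ t : IP P, Fintype.card (Option (Fin k)) ≤ prP P t := by
    intro t
    rw [cardJ]
    have h1 := (hP t.1 t.2).2
    have h2 := hc.hD
    have : prP P t = t.1 := rfl
    omega
  have hG := Gt_pos hp2
  have hW : (0 : ℝ) < WW D := by exact_mod_cast hc.hW
  have hsd := hc.sd P hP
  have h := roughB hT1 (prP P) (LF a b) (WW D) v hc.hW hsd hJ (some i) Λ hΛ θ hθ0 hθ1 hθ η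
    (by rw [cardJ]; exact hη) (yP Q k P L) (L / 48 + L) (yP_hyp Q P L hL) x hx
  rw [cardJ] at h
  have h2 := YYlow_P Q hc ε hε hε1 hI1 hI2 hBr L hL P hP hovl hS i
  have h3 := YYup_P Q hc ε hε (hε.trans hI1) (hε.trans hI2) L hL P hP hR i
  set Y1 := ∑ ρ ∈ avoid (IP P) (some i : Option (Fin k)),
    YY (some i) (prP P) (yP Q k P L) ρ ^ 2 *
      mulc (prP P) (fun p => hm (k + 1) p * ((p : ℝ) / ((p : ℝ) - 1))) ρ with hY1
  set Y2 := ∑ ρ ∈ avoid (IP P) (some i : Option (Fin k)),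
    YY (some i) (prP P) (yP Q k P L) ρ ^ 2 *
      mulc (prP P) (fun p => hq p * ((p : ℝ) / ((p : ℝ) - 1))) ρ with hY2
  have hEr : (Real.log x + 1) * (1 + ∑ t : IP P, (Real.log (prP P t) / Λ +
        2 * ((k + 1 : ℕ) : ℝ) / ((prP P t : ℝ) - 1)) ^ 2) *
          (Gt (prP P) * (Real.exp (Λ + (L / 48 + L)) * EP (Option (Fin k)) (prP P))) ^ 2 =
      ErrB k P L Λ x := by
    unfold EP ErrB
    rw [cardJ]
  rw [hEr] at h
  have hfil : (Icc 1 ⌊x⌋₊).filter (fun n => n ≡ v [MOD (WW D)] ∧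
      ∀ t : IP P, ¬ prP P t ∣ LF a b (some i) n) =
      (Icc 1 ⌊x⌋₊).filter (fun n => n ≡ v [MOD (WW D)] ∧
        ∀ t : IP P, ¬ prP P t ∣ a i * n + b i) := rfl
  rw [hfil] at h
  refine le_trans (sub_le_sub_right ?_ _) h
  set κ := kap (k + 1) (prP P) with hκd
  set G := Gt (prP P) with hGd
  have hκ0 : 0 < κ := by
    rw [hκd]
    unfold kap
    apply Finset.prod_pos
    intro t _
    positivity
  have hη0 : 0 ≤ η := le_trans (Finset.sum_nonneg fun t _ => by positivity) hη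
  have h1θ : 0 < (1 - θ) ^ 2 := by
    have : 0 < 1 - θ := by linarith
    positivity
  have h2θ : 0 ≤ 1 - 2 * θ := by linarith
  set A1 := (BD D * L * (Q.I1 - ε)) ^ 2 *
      (BD D * (L / 48) * (BD D * L) ^ (k - 1) * Br Q k ε) with hA1
  set A2 := (BD D * L * (Q.I1 + ε)) ^ 2 *
      ((BD D * (L / 48) * (1 / 3 + ε)) * (BD D * L * (Q.I2 + ε)) ^ (k - 1)) with hA2
  have hA10 : 0 ≤ A1 := by
    rw [hA1]
    positivity
  have hI10 : 0 < Q.I1 := hε.trans hI1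
  have hI20 : 0 < Q.I2 := hε.trans hI2
  have hA20 : 0 ≤ A2 := by
    rw [hA2]
    positivity
  have hb1 : (1 - 2 * θ) / (1 + ε) * A1 ≤ (1 - 2 * θ) / κ * Y1 := by
    calc (1 - 2 * θ) / (1 + ε) * A1 ≤ (1 - 2 * θ) / κ * A1 := by
          apply mul_le_mul_of_nonneg_right _ hA10
          exact div_le_div_of_nonneg_left h2θ hκ0 hκ
      _ ≤ _ := mul_le_mul_of_nonneg_left h2 (div_nonneg h2θ hκ0.le)
  have hb2 : η * (κ / (1 - θ) ^ 2 * Y2) ≤ η * ((1 + ε) / (1 - θ) ^ 2 * A2) := by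
    apply mul_le_mul_of_nonneg_left _ hη0
    calc κ / (1 - θ) ^ 2 * Y2 ≤ κ / (1 - θ) ^ 2 * A2 :=
          mul_le_mul_of_nonneg_left h3 (div_nonneg hκ0.le h1θ.le)
      _ ≤ _ := by
          apply mul_le_mul_of_nonneg_right _ hA20
          exact div_le_div_of_nonneg_right hκ h1θ.le
  have hxx : 0 ≤ x / WW D / G := by positivity
  have hk1 : k - 1 + 1 = k := by
    have := i.2
    omega
  have e1 : Q1 k D x L * (BD D * L / G) *
        ((1 - 2 * θ) / (1 + ε) * ((Q.I1 - ε) ^ 2 * Br Q k ε) -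
          η * ((1 + ε) / (1 - θ) ^ 2 * ((Q.I1 + ε) ^ 2 * ((1 / 3 + ε) * (Q.I2 + ε) ^ (k - 1))))) =
      x / WW D / G * ((1 - 2 * θ) / (1 + ε) * A1 - η * ((1 + ε) / (1 - θ) ^ 2 * A2)) := by
    have e2 : (BD D * L) ^ k = (BD D * L) ^ (k - 1) * (BD D * L) := by
      rw [← pow_succ, hk1]
    have e3 : Q1 k D x L = x / WW D * (BD D * (L / 48) * (BD D * L) ^ k) := rfl
    rw [hA1, hA2, e3, e2, mul_pow (BD D * L) (Q.I2 + ε) (k - 1)]
    field_simp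
  rw [e1]
  apply mul_le_mul_of_nonneg_left _ hxx
  linarith

theorem prod_erase2 (f : Option (Fin k) → ℝ) (i j : Fin k) (hij : i ≠ j) (A B : ℝ)
    (h1 : f none = A) (h2 : ∀ i, f (some i) = B) :
    ∏ l ∈ (univ.erase (some i)).erase (some j), f l = A * B ^ (k - 2) := by
  have hj0 : (some j : Option (Fin k)) ∈ (univ : Finset (Option (Fin k))).erase (some i) :=
    Finset.mem_erase.2 ⟨fun h => hij (Option.some.inj h).symm, Finset.mem_univ _⟩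
  have hn : (none : Option (Fin k)) ∈
      ((univ : Finset (Option (Fin k))).erase (some i)).erase (some j) := by simp
  rw [← Finset.mul_prod_erase _ _ hn, h1]
  congr 1
  have e1 : ∀ l ∈ (((univ : Finset (Option (Fin k))).erase (some i)).erase (some j)).erase none,
      f l = B := by
    intro l hl
    rcases l with _ | l
    · simp at hl
    · exact h2 l
  rw [Finset.prod_congr rfl e1, Finset.prod_const]
  congr 1
  rw [Finset.card_erase_of_mem hn, Finset.card_erase_of_mem hj0,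
    Finset.card_erase_of_mem (Finset.mem_univ _), Finset.card_univ, cardJ]
  omega

theorem rough_pair (Q : SPar) (hT1 : S1Upper) {a b : Fin k → ℕ} {D v : ℕ} (hc : Ctx a b D v)
    (ε : ℝ) (hε : 0 < ε) (hI1 : 0 < Q.I1) (hI2 : 0 < Q.I2)
    (L : ℝ) (hL : 0 < L) (P : Finset ℕ) (hP : ∀ p ∈ P, p.Prime ∧ D < p)
    (hR : SumsR Q D ε L P)
    (Λ : ℝ) (hΛ : 0 < Λ) (θ : ℝ) (hθ1 : θ ≤ 1 / 4)
    (hZ : (1 - θ) * Gt (prP P) ≤ ZZ (prP P) Λ)
    (hH : ∑ a : Finset (IP P), (∏ t ∈ a, h6 (prP P t)) *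
      (if lg (prP P) a ≤ Λ then (1 : ℝ) else 0) ≤ (1 + ε) * Gt (prP P))
    (x : ℝ) (hx : 1 ≤ x) (i j : Fin k) (hij : i ≠ j) :
    ∑ n ∈ (Icc 1 ⌊x⌋₊).filter (fun n => n ≡ v [MOD (WW D)] ∧
        (∀ t : IP P, ¬ prP P t ∣ a i * n + b i) ∧ ∀ t : IP P, ¬ prP P t ∣ a j * n + b j),
        Real.log (x / n) * (wP Q a b P L n) ^ 2 ≤
    Q1 k D x L * (BD D * L / Gt (prP P)) ^ 2 *
        ((1 + ε) ^ 2 / (1 - θ) ^ 4 * ((Q.I1 + ε) ^ 4 * ((1 / 3 + ε) * (Q.I2 + ε) ^ (k - 2)))) +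
      ErrC k P L Λ x (((BD D * L * (Q.I1 + ε)) / ((1 - θ) * Gt (prP P))) ^ 2) := by
  have hB := hc.BDpos
  have hp0 : ∀ p ∈ P, 0 < p := fun p hp => (hP p hp).1.pos
  have hp2' : ∀ p ∈ P, 2 ≤ p := fun p hp => (hP p hp).1.two_le
  have hp2 : ∀ t : IP P, 2 ≤ prP P t := fun t => (hP t.1 t.2).1.two_le
  have hG := Gt_pos hp2
  have hW : (0 : ℝ) < WW D := by exact_mod_cast hc.hW
  have hprof := GP_prof Q k L (L / 48) hL (by positivity)
  have h1θ : 0 < 1 - θ := by linarith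
  have hsd := hc.sd P hP
  set C := ((∑ a : Finset (IP P), GP Q k L (L / 48) (some i) (lg (prP P) a) *
        ∏ t ∈ a, ((prP P t : ℝ) / ((prP P t : ℝ) - 1) ^ 2)) / ZZ (prP P) Λ) *
      ((∑ a : Finset (IP P), GP Q k L (L / 48) (some j) (lg (prP P) a) *
        ∏ t ∈ a, (1 / ((prP P t : ℝ) - 1))) / ZZ (prP P) Λ) with hCd
  have h := roughC hT1 (prP P) (LF a b) (WW D) v hc.hW hsd Λ hΛ.le (yP Q k P L) (L / 48 + L)
    (yP_hyp Q P L hL) (GP Q k L (L / 48)) hprof.nonneg hprof.le_one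
    (fun τ => yw_le_prod _ _ _ hprof _ τ) (some i) (some j)
    (fun h => hij (Option.some.inj h)) C hCd x hx
  have hfil : (Icc 1 ⌊x⌋₊).filter (fun n => n ≡ v [MOD (WW D)] ∧
      (∀ t : IP P, ¬ prP P t ∣ LF a b (some i) n) ∧ ∀ t : IP P, ¬ prP P t ∣ LF a b (some j) n) =
      (Icc 1 ⌊x⌋₊).filter (fun n => n ≡ v [MOD (WW D)] ∧
        (∀ t : IP P, ¬ prP P t ∣ a i * n + b i) ∧ ∀ t : IP P, ¬ prP P t ∣ a j * n + b j) := rfl
  rw [hfil] at h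
  refine le_trans h ?_
  -- the constant
  have e1 : ∑ a : Finset (IP P), GP Q k L (L / 48) (some i) (lg (prP P) a) *
      ∏ t ∈ a, ((prP P t : ℝ) / ((prP P t : ℝ) - 1) ^ 2) = SS P h1 Q.c L Q.gg :=
    sum_GP_some_one_P Q P hp0 L i h1
  have e2 : ∑ a : Finset (IP P), GP Q k L (L / 48) (some j) (lg (prP P) a) *
      ∏ t ∈ a, (1 / ((prP P t : ℝ) - 1)) = SS P h0 Q.c L Q.gg :=
    sum_GP_some_one_P Q P hp0 L j h0
  rw [e1, e2] at hCd
  have hh0 : ∀ p ∈ P, 0 ≤ h0 p := fun p hp => by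
    have h1 : (2 : ℝ) ≤ p := by exact_mod_cast hp2' p hp
    unfold h0
    apply div_nonneg zero_le_one (by linarith)
  have hh1 : ∀ p ∈ P, 0 ≤ h1 p := fun p hp => by
    unfold h1
    positivity
  have nA : 0 ≤ SS P h1 Q.c L Q.gg :=
    SS_nonneg _ _ _ _ _ hh1 hp0 hL (fun t ht => (gg_pos Q ht).le)
  have nB : 0 ≤ SS P h0 Q.c L Q.gg :=
    SS_nonneg _ _ _ _ _ hh0 hp0 hL (fun t ht => (gg_pos Q ht).le)
  have hZ0 : 0 < (1 - θ) * Gt (prP P) := by positivity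
  have hZp : 0 < ZZ (prP P) Λ := lt_of_lt_of_le hZ0 hZ
  have hC0 : 0 ≤ C := by
    rw [hCd]
    positivity
  set c0 := (BD D * L * (Q.I1 + ε)) / ((1 - θ) * Gt (prP P)) with hc0
  have hc0n : 0 ≤ c0 := by
    rw [hc0]
    positivity
  have hCle : C ≤ c0 ^ 2 := by
    rw [hCd, sq]
    have b1 : SS P h1 Q.c L Q.gg / ZZ (prP P) Λ ≤ c0 := by
      rw [hc0]
      exact div_le_div₀ (by positivity) hR.a hZ0 hZ
    have b2 : SS P h0 Q.c L Q.gg / ZZ (prP P) Λ ≤ c0 := by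
      rw [hc0]
      exact div_le_div₀ (by positivity) hR.b hZ0 hZ
    exact mul_le_mul b1 b2 (by positivity) hc0n
  have hh6 : ∀ p ∈ P, 0 ≤ h6 p := fun p hp => h6_nonneg hp2 ⟨p, hp⟩
  have n1 : 0 ≤ SS P h6 1 (L / 48) (fun t => (1 - t) ^ 2) :=
    SS_nonneg _ _ _ _ _ hh6 hp0 (by positivity) fun t _ => sq_nonneg _
  have n2 : 0 ≤ SS P h6 Q.c L (fun t => Q.gg t ^ 2) :=
    SS_nonneg _ _ _ _ _ hh6 hp0 hL fun t _ => sq_nonneg _
  have e3 : ∏ l ∈ (univ.erase (some i)).erase (some j), ∑ a : Finset (IP P),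
      (∏ t ∈ a, h6 (prP P t)) * GP Q k L (L / 48) l (lg (prP P) a) ^ 2 =
      SS P h6 1 (L / 48) (fun t => (1 - t) ^ 2) *
        (SS P h6 Q.c L (fun t => Q.gg t ^ 2)) ^ (k - 2) :=
    prod_erase2 _ i j hij _ _ (sum_GP_none_P (k := k) Q P hp0 L h6)
      (fun j => sum_GP_some_P Q P hp0 L j h6)
  have nH : 0 ≤ ∑ a : Finset (IP P), (∏ t ∈ a, h6 (prP P t)) *
      (if lg (prP P) a ≤ Λ then (1 : ℝ) else 0) :=
    Finset.sum_nonneg fun a _ => mul_nonneg (Finset.prod_nonneg fun t _ => h6_nonneg hp2 t)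
      (by split_ifs <;> norm_num)
  have hxm : 0 ≤ x / WW D := by positivity
  apply add_le_add
  · rw [e3]
    have hk2 : k - 2 + 2 = k := by
      have h1 := i.2
      have h2 := j.2
      have h3 : (i : ℕ) ≠ j := fun h => hij (Fin.ext h)
      omega
    calc x / WW D * (C ^ 2 * ((∑ a : Finset (IP P), (∏ t ∈ a, h6 (prP P t)) *
          (if lg (prP P) a ≤ Λ then (1 : ℝ) else 0)) ^ 2 *
          (SS P h6 1 (L / 48) (fun t => (1 - t) ^ 2) *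
            (SS P h6 Q.c L (fun t => Q.gg t ^ 2)) ^ (k - 2))))
        ≤ x / WW D * ((c0 ^ 2) ^ 2 * (((1 + ε) * Gt (prP P)) ^ 2 *
          ((BD D * (L / 48) * (1 / 3 + ε)) * (BD D * L * (Q.I2 + ε)) ^ (k - 2)))) := by
          have b1 := hR.c
          have b2 := hR.d
          gcongr
      _ = _ := by
          have e4 : (BD D * L) ^ k = (BD D * L) ^ (k - 2) * (BD D * L) ^ 2 := by
            rw [← pow_add, hk2]
          have e5 : Q1 k D x L = x / WW D * (BD D * (L / 48) * (BD D * L) ^ k) := rfl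
          rw [hc0, e5, e4, mul_pow (BD D * L) (Q.I2 + ε) (k - 2)]
          have hne : 1 - θ ≠ 0 := h1θ.ne'
          field_simp
  · unfold ErrC EP
    rw [cardJ]
    have hlog : 0 ≤ Real.log x := Real.log_nonneg hx
    have hEP : 0 ≤ ∏ t : IP P, (1 + 3 * ((k + 1 : ℕ) : ℝ) / (prP P t : ℝ)) :=
      Finset.prod_nonneg fun t _ => by positivity
    gcongr

end Pool.Agent.Y876.AP
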