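import Mathlib
import Pool.Agent.Y876.AP.Conc2
import Pool.Agent.Helper256.KM.Mertens
import Pool.Agent.H362R2.CM.Sum
import Pool.Agent.H362R2.CM.Err

/-! The asymptotic facts about the sieving primes `D < p ≤ x ^ δ` (helper876). -/

set_option autoImplicit false

namespace Pool.Agent.Y876.AP

open Finset Filter Topology
open Pool.Agent.H410R2 hiding GP GP_prof GP_cut_some GP_cut_none GP_lip gg_pos gg_le_one gg_anti ee_bound ee_nonneg gg_lip LB_gg LB_ee Sums exists_sums yx wx wxi Br sum_GP_none sum_GP_some sum_GP_some_ee sum_GP_some_one sum_GPr_none sum_GPr_some S1_final QI_final S2_final w_abs_le wmax gg ee I1 I2 IE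
open Pool.Agent.H361R2.GM
open Pool.Agent.H362R2.CM (IP prP yP wP Lr Pr Sum_tendsto_Lr Sum_isWin_Pr sumZ_eq)

/-- the sieving primes `D < p ≤ x ^ δ` -/
noncomputable def Pz (D : ℕ) (δ x : ℝ) : Finset ℕ := PW D (Real.exp (δ * Real.log x))

/-- the level of the one-dimensional sieves -/
noncomputable def Λ₀ (x : ℝ) : ℝ := Real.log x / 16

theorem mem_Pz {D : ℕ} {δ x : ℝ} {p : ℕ} : p ∈ Pz D δ x ↔
    p.Prime ∧ D < p ∧ (p : ℝ) ≤ Real.exp (δ * Real.log x) := by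
  unfold Pz PW
  rw [Finset.mem_filter, Finset.mem_Icc]
  constructor
  · rintro ⟨⟨h1, h2⟩, h3⟩
    exact ⟨h3, by omega, (Nat.le_floor_iff (Real.exp_pos _).le).1 h2⟩
  · rintro ⟨h1, h2, h3⟩
    exact ⟨⟨by omega, Nat.le_floor h3⟩, h1⟩

theorem Pz_prime (D : ℕ) (δ x : ℝ) : ∀ p ∈ Pz D δ x, p.Prime ∧ D < p := fun p hp =>
  ⟨(mem_Pz.1 hp).1, (mem_Pz.1 hp).2.1⟩

theorem Pz_log (D : ℕ) (δ x : ℝ) : ∀ p ∈ Pz D δ x, Real.log p ≤ δ * Real.log x := fun p hp => by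
  obtain ⟨h1, -, h3⟩ := mem_Pz.1 hp
  rw [Real.log_le_iff_le_exp (by exact_mod_cast h1.pos)]
  exact h3

theorem Pz_isWin (D : ℕ) (δ x y : ℝ) (hy : y ≤ Real.exp (δ * Real.log x)) :
    IsWin D y (Pz D δ x) :=
  ⟨Pz_prime D δ x, fun _ hp hD hle => mem_Pz.2 ⟨hp, hD, hle.trans hy⟩⟩

theorem Pz_sub_Pr (D : ℕ) (δ x : ℝ) (hδ : δ ≤ 1 / 4) (hx : 1 ≤ x) : Pz D δ x ⊆ Pr D x := by
  intro p hp
  obtain ⟨h1, h2, h3⟩ := mem_Pz.1 hp
  unfold Pr PW
  rw [Finset.mem_filter, Finset.mem_Icc]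
  refine ⟨⟨by omega, Nat.le_floor (h3.trans (Real.exp_le_exp.2 ?_))⟩, h1⟩
  have := Real.log_nonneg hx
  nlinarith

theorem sum_IP (P : Finset ℕ) (f : ℕ → ℝ) : ∑ t : IP P, f (prP P t) = ∑ p ∈ P, f p :=
  Finset.sum_coe_sort P f

theorem prod_IP (P : Finset ℕ) (f : ℕ → ℝ) : ∏ t : IP P, f (prP P t) = ∏ p ∈ P, f p :=
  Finset.prod_coe_sort P f

/-- Mertens -/
theorem mert (δ : ℝ) (hδ : 0 < δ) (D : ℕ) : ∀ᶠ x : ℝ in atTop,
    ∑ t : IP (Pz D δ x), Real.log (prP (Pz D δ x) t) / prP (Pz D δ x) t ≤ 2 * δ * Real.log x := by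
  obtain ⟨C, hC⟩ := Pool.Agent.Helper256.KM.mertens_log
  have htend : Tendsto (fun x : ℝ => δ * Real.log x) atTop atTop :=
    Real.tendsto_log_atTop.const_mul_atTop hδ
  filter_upwards [htend.eventually_ge_atTop C, htend.eventually_ge_atTop 1] with x h1 h2
  rw [sum_IP (Pz D δ x) (fun p => Real.log p / p)]
  set N := ⌊Real.exp (δ * Real.log x)⌋₊ with hN
  have hN1 : 1 ≤ N := by
    rw [hN]
    apply Nat.le_floor
    have := Real.add_one_le_exp (δ * Real.log x)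
    push_cast
    linarith
  have h3 := (abs_le.1 (hC N hN1)).2
  have h4 : Real.log N ≤ δ * Real.log x := by
    have h5 : (N : ℝ) ≤ Real.exp (δ * Real.log x) := Nat.floor_le (Real.exp_pos _).le
    rw [Real.log_le_iff_le_exp (by exact_mod_cast hN1)]
    exact h5
  have h5 : ∑ p ∈ Pz D δ x, Real.log p / p ≤
      ∑ p ∈ (Finset.Icc 1 N).filter Nat.Prime, Real.log p / p := by
    apply Finset.sum_le_sum_of_subset_of_nonneg
    · intro p hp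
      obtain ⟨h6, h7, h8⟩ := mem_Pz.1 hp
      rw [Finset.mem_filter, Finset.mem_Icc]
      exact ⟨⟨h6.one_lt.le, Nat.le_floor h8⟩, h6⟩
    · intro p _ _
      exact div_nonneg (Real.log_natCast_nonneg p) (Nat.cast_nonneg p)
  linarith

theorem theta_of (δ : ℝ) (hδ : 0 < δ) (D : ℕ) : ∀ᶠ x : ℝ in atTop,
    ∑ t : IP (Pz D δ x), Real.log (prP (Pz D δ x) t) / prP (Pz D δ x) t ≤ (32 * δ) * Λ₀ x := by
  filter_upwards [mert δ hδ D] with x h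
  unfold Λ₀
  linarith

theorem eta_of (hTail : TailBound) (k : ℕ) (δ : ℝ) (hδ : 0 < δ) (ε : ℝ) (hε : 0 < ε) :
    ∃ D₀ : ℕ, ∀ D, D₀ ≤ D → ∀ᶠ x : ℝ in atTop,
    ∑ t : IP (Pz D δ x), (1 / (prP (Pz D δ x) t : ℝ)) * (Real.log (prP (Pz D δ x) t) / Λ₀ x +
      2 * ((k + 1 : ℕ) : ℝ) / ((prP (Pz D δ x) t : ℝ) - 1)) ^ 2 ≤ (32 * δ) ^ 2 + ε := by
  obtain ⟨D₀, h0⟩ := hTail (8 * ((k + 1 : ℕ) : ℝ) ^ 2) (by positivity) ε hε
  refine ⟨D₀, fun D hD => ?_⟩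
  filter_upwards [mert δ hδ D, eventually_gt_atTop (1 : ℝ)] with x h hx
  have hl : 0 < Real.log x := Real.log_pos hx
  have hΛ : 0 < Λ₀ x := by
    unfold Λ₀
    positivity
  rw [sum_IP (Pz D δ x) (fun p => Real.log p / p)] at h
  rw [sum_IP (Pz D δ x) (fun p => (1 / (p : ℝ)) * (Real.log p / Λ₀ x +
      2 * ((k + 1 : ℕ) : ℝ) / ((p : ℝ) - 1)) ^ 2)]
  have h2 := (h0 D hD (Pz D δ x) (Pz_prime D δ x)).2
  have hterm : ∀ p ∈ Pz D δ x, (1 / (p : ℝ)) * (Real.log p / Λ₀ x +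
      2 * ((k + 1 : ℕ) : ℝ) / ((p : ℝ) - 1)) ^ 2 ≤
      (2 * (δ * Real.log x) / Λ₀ x ^ 2) * (Real.log p / p) +
        8 * ((k + 1 : ℕ) : ℝ) ^ 2 / ((p : ℝ) - 1) ^ 2 := by
    intro p hp
    have hp1 := (mem_Pz.1 hp).1
    have h3 : (2 : ℝ) ≤ p := by exact_mod_cast hp1.two_le
    have h4 := Pz_log D δ x p hp
    have h5 : 0 ≤ Real.log p := Real.log_natCast_nonneg p
    have h6 : (0 : ℝ) < (p : ℝ) - 1 := by linarith
    have h7 : (0 : ℝ) < p := by linarith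
    set u := Real.log p / Λ₀ x with hu
    set v := 2 * ((k + 1 : ℕ) : ℝ) / ((p : ℝ) - 1) with hv
    have h8 : (u + v) ^ 2 ≤ 2 * u ^ 2 + 2 * v ^ 2 := by nlinarith [sq_nonneg (u - v)]
    have h9 : (1 / (p : ℝ)) * (2 * u ^ 2) ≤ (2 * (δ * Real.log x) / Λ₀ x ^ 2) * (Real.log p / p) := by
      rw [hu]
      have e1 : (1 / (p : ℝ)) * (2 * (Real.log p / Λ₀ x) ^ 2) =
          (2 * Real.log p / Λ₀ x ^ 2) * (Real.log p / p) := by
        field_simp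
      rw [e1]
      apply mul_le_mul_of_nonneg_right _ (by positivity)
      apply div_le_div_of_nonneg_right _ (by positivity)
      linarith
    have h10 : (1 / (p : ℝ)) * (2 * v ^ 2) ≤ 8 * ((k + 1 : ℕ) : ℝ) ^ 2 / ((p : ℝ) - 1) ^ 2 := by
      have e1 : 8 * ((k + 1 : ℕ) : ℝ) ^ 2 / ((p : ℝ) - 1) ^ 2 = 1 * (2 * v ^ 2) := by
        rw [hv]
        field_simp
        ring
      rw [e1]
      apply mul_le_mul_of_nonneg_right _ (by positivity)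
      rw [div_le_one h7]
      linarith
    have h11 : 0 ≤ 1 / (p : ℝ) := by positivity
    have h12 := mul_le_mul_of_nonneg_left h8 h11
    calc _ ≤ 1 / (p : ℝ) * (2 * u ^ 2 + 2 * v ^ 2) := h12
      _ = 1 / (p : ℝ) * (2 * u ^ 2) + 1 / (p : ℝ) * (2 * v ^ 2) := by ring
      _ ≤ _ := add_le_add h9 h10
  refine le_trans (Finset.sum_le_sum hterm) ?_
  rw [Finset.sum_add_distrib, ← Finset.mul_sum]
  have h3 : 0 ≤ 2 * (δ * Real.log x) / Λ₀ x ^ 2 := by positivity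
  have h4 := mul_le_mul_of_nonneg_left h h3
  have e1 : 2 * (δ * Real.log x) / Λ₀ x ^ 2 * (2 * δ * Real.log x) = (32 * δ) ^ 2 := by
    unfold Λ₀
    field_simp
    ring
  rw [e1] at h4
  exact add_le_add h4 h2

theorem kap_of (hTail : TailBound) (K : ℕ) (ε : ℝ) (hε : 0 < ε) : ∃ D₀ : ℕ, ∀ D, D₀ ≤ D →
    ∀ P : Finset ℕ, (∀ p ∈ P, p.Prime ∧ D < p) → kap K (prP P) ≤ 1 + ε := by
  obtain ⟨D₀, h0⟩ := hTail (K : ℝ) (Nat.cast_nonneg K) ε hε
  refine ⟨D₀, fun D hD P hP => ?_⟩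
  unfold kap
  rw [prod_IP P (fun p => 1 + (K : ℝ) / ((p : ℝ) - 1) ^ 2)]
  exact (h0 D hD P hP).1

theorem ovl_of' (hTail : TailBound) (k : ℕ) (ε : ℝ) (hε : 0 < ε) : ∃ D₀ : ℕ, ∀ D, D₀ ≤ D →
    ∀ P : Finset ℕ, (∀ p ∈ P, p.Prime ∧ D < p) →
      ((k + 1 : ℕ) : ℝ) ^ 2 * ∑ t : IP P, (hb (k + 2) (prP P t)) ^ 2 ≤ ε := by
  obtain ⟨D₀, h0⟩ := hTail (((k + 1 : ℕ) : ℝ) ^ 2) (by positivity) ε hε
  refine ⟨D₀ + k + 2, fun D hD P hP => ?_⟩
  rw [sum_IP P (fun p => hb (k + 2) p ^ 2)]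
  refine le_trans ?_ (h0 D (by omega) P hP).2
  rw [Finset.mul_sum]
  apply Finset.sum_le_sum
  intro p hp
  obtain ⟨h1, h2⟩ := hP p hp
  have h3 : ((k + 2 : ℕ) : ℝ) ≤ p := by
    have : k + 2 ≤ p := by omega
    exact_mod_cast this
  have h5 : (2 : ℝ) ≤ p := by exact_mod_cast h1.two_le
  have h4 : (0 : ℝ) < (p : ℝ) - 1 := by linarith
  have h6 : 0 ≤ hb (k + 2) p := by
    unfold hb
    exact div_nonneg (by linarith) (sq_nonneg _)
  have h7 : hb (k + 2) p ≤ 1 / ((p : ℝ) - 1) := by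
    unfold hb
    rw [div_le_div_iff₀ (by positivity) h4]
    push_cast
    have : (0 : ℝ) ≤ k := Nat.cast_nonneg k
    nlinarith
  have h8 := pow_le_pow_left₀ h6 h7 2
  calc ((k + 1 : ℕ) : ℝ) ^ 2 * hb (k + 2) p ^ 2 ≤ ((k + 1 : ℕ) : ℝ) ^ 2 * (1 / ((p : ℝ) - 1)) ^ 2 :=
        mul_le_mul_of_nonneg_left h8 (by positivity)
    _ = _ := by
        rw [div_pow, one_pow]
        ring

theorem H6_of (hTail : TailBound) (ε : ℝ) (hε : 0 < ε) : ∃ D₀ : ℕ, ∀ D, D₀ ≤ D →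
    ∀ P : Finset ℕ, (∀ p ∈ P, p.Prime ∧ D < p) → ∀ Λ : ℝ,
      ∑ a : Finset (IP P), (∏ t ∈ a, h6 (prP P t)) *
        (if lg (prP P) a ≤ Λ then (1 : ℝ) else 0) ≤ (1 + ε) * Gt (prP P) := by
  obtain ⟨D₀, h0⟩ := hTail 200 (by norm_num) ε hε
  refine ⟨D₀, fun D hD P hP Λ => ?_⟩
  have hp2 : ∀ t : IP P, 2 ≤ prP P t := fun t => (hP t.1 t.2).1.two_le
  have h1 : ∑ a : Finset (IP P), (∏ t ∈ a, h6 (prP P t)) *
        (if lg (prP P) a ≤ Λ then (1 : ℝ) else 0) ≤ ∏ t : IP P, (1 + h6 (prP P t)) := by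
    rw [← sum_pow_one, Finset.powerset_univ]
    apply Finset.sum_le_sum
    intro a _
    apply mul_le_of_le_one_right (Finset.prod_nonneg fun t _ => h6_nonneg hp2 t)
    split_ifs <;> norm_num
  refine le_trans h1 ?_
  have h2 := (h0 D hD P hP).1
  rw [← prod_IP P (fun p => 1 + (200 : ℝ) / ((p : ℝ) - 1) ^ 2)] at h2
  have h3 : ∏ t : IP P, (1 + h6 (prP P t)) ≤
      (∏ t : IP P, (1 + (200 : ℝ) / ((prP P t : ℝ) - 1) ^ 2)) * Gt (prP P) := by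
    unfold Gt
    rw [← Finset.prod_mul_distrib]
    apply Finset.prod_le_prod
    · intro t _
      have := h6_nonneg hp2 t
      linarith
    · intro t _
      have h4 := one_le_pr hp2 t
      have h5 : (0 : ℝ) < (prP P t : ℝ) - 1 := by linarith
      unfold h6
      generalize (prP P t : ℝ) = r at h4 h5
      obtain ⟨s, hs⟩ : ∃ s : ℝ, s = r - 1 := ⟨_, rfl⟩
      have hr : r = s + 1 := by linarith
      rw [← hs] at h4 h5 ⊢
      subst hr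
      have e1 : 1 + (s + 1) ^ 5 / s ^ 6 = (s ^ 6 + (s + 1) ^ 5) / s ^ 6 := by
        field_simp
      have e2 : (1 + 200 / s ^ 2) * ((s + 1) / s) = ((s ^ 2 + 200) * (s + 1) * s ^ 3) / s ^ 6 := by
        field_simp
      rw [e1, e2]
      apply div_le_div_of_nonneg_right _ (by positivity)
      have h6 : 1 ≤ s := h4
      have h7 : 0 ≤ s - 1 := by linarith
      have e3 : (s ^ 2 + 200) * (s + 1) * s ^ 3 - (s ^ 6 + (s + 1) ^ 5) =
          195 * s ^ 4 + 190 * s ^ 3 - 10 * s ^ 2 - 5 * s - 1 := by ring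
      have h8 : 1 ≤ s ^ 2 := one_le_pow₀ h6
      have h9 : s ^ 2 ≤ s ^ 3 := pow_le_pow_right₀ h6 (by norm_num)
      have h10 : s ≤ s ^ 3 := le_self_pow₀ h6 (by norm_num)
      have h11 : s ^ 3 ≤ s ^ 4 := pow_le_pow_right₀ h6 (by norm_num)
      nlinarith
  refine le_trans h3 ?_
  exact mul_le_mul_of_nonneg_right h2 (Gt_pos hp2).le

/-- the one-dimensional sieve sum is almost the full product -/
theorem Z_of {ι : Type} [Fintype ι] [DecidableEq ι] (pr : ι → ℕ) (hp : ∀ t, 2 ≤ pr t) (Λ : ℝ)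
    (hΛ : 0 < Λ) (θ : ℝ) (hθ : ∑ t, Real.log (pr t) / pr t ≤ θ * Λ) :
    (1 - θ) * Gt pr ≤ ZZ pr Λ := by
  have h1 := tent_lower pr hp Λ hΛ θ hθ univ
  have e1 : ∏ t, (1 + hz (pr t)) = Gt pr := by
    unfold Gt
    exact Finset.prod_congr rfl fun t _ => one_add_hz hp t
  rw [e1, Finset.powerset_univ] at h1
  refine le_trans h1 ?_
  unfold ZZ
  apply Finset.sum_le_sum
  intro a _
  rw [mul_comm]
  apply mul_le_mul_of_nonneg_right _ (prodhz_nonneg hp a)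
  unfold tt
  split_ifs with h
  · apply max_le zero_le_one
    have : 0 ≤ lg pr a / Λ := div_nonneg (lg_nonneg _ _) hΛ.le
    linarith
  · apply max_le le_rfl
    have : 1 ≤ lg pr a / Λ := by
      rw [le_div_iff₀ hΛ]
      linarith
    linarith

theorem SS_mono_P (P P' : Finset ℕ) (h : P' ⊆ P) (g : ℕ → ℝ) (hg : ∀ p ∈ P, 0 ≤ g p)
    (c L : ℝ) : SS P' g c L (fun _ => 1) ≤ SS P g c L (fun _ => 1) := by
  unfold SS
  apply Finset.sum_le_sum_of_subset_of_nonneg (Finset.powerset_mono.2 h)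
  intro a ha _
  apply mul_nonneg
  · exact Finset.prod_nonneg fun p hp => hg p (Finset.mem_powerset.1 ha hp)
  · split_ifs <;> norm_num

/-- upper bound for the product over the sieving primes -/
theorem Gt_le (hOD : OneDim) (δ : ℝ) (hδ : 0 < δ) (hδ1 : δ ≤ 1 / 64) :
    ∃ D₀ : ℕ, ∀ D, D₀ ≤ D → ∀ᶠ x : ℝ in atTop, Gt (prP (Pz D δ x)) ≤ 4 * (BD D * Λ₀ x) := by
  obtain ⟨Df, hf⟩ := hOD.use 2 1 1 _ one_pos LB_one 1 one_pos
  refine ⟨Df, fun D hD => ?_⟩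
  have hf1 := hf D hD h0 (fun p hp _ => h0_bound p hp)
  have ht : Tendsto Λ₀ atTop atTop := by
    unfold Λ₀
    exact Real.tendsto_log_atTop.atTop_div_const (by norm_num)
  filter_upwards [ht.eventually hf1, theta_of δ hδ D, eventually_gt_atTop (1 : ℝ)] with x h1 h2 hx
  have hl : 0 < Real.log x := Real.log_pos hx
  have hΛ : 0 < Λ₀ x := by
    unfold Λ₀
    positivity
  have hp2 : ∀ t : IP (Pz D δ x), 2 ≤ prP (Pz D δ x) t := fun t =>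
    (Pz_prime D δ x t.1 t.2).1.two_le
  have h3 := Z_of (prP (Pz D δ x)) hp2 (Λ₀ x) hΛ (32 * δ) h2
  have hW : IsWin D (Real.exp (1 * Λ₀ x)) (Pr D x) := by
    apply Sum_isWin_Pr D x _ (Real.exp_le_exp.2 _)
    unfold Λ₀
    linarith
  have h4 := (abs_le.1 (h1 (Pr D x) hW)).2
  have hint1 : (∫ t in (0 : ℝ)..1, (1 : ℝ)) = 1 := by simp
  rw [hint1] at h4
  have h5 : ZZ (prP (Pz D δ x)) (Λ₀ x) = SS (Pz D δ x) h0 1 (Λ₀ x) (fun _ => 1) :=
    sumZ_eq (Pz D δ x) (fun p hp => (Pz_prime D δ x p hp).1.two_le) (Λ₀ x) h0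
  have h6 := SS_mono_P (Pr D x) (Pz D δ x) (Pz_sub_Pr D δ x (by linarith) hx.le) h0 (fun p hp => by
    have h7 : p.Prime := (Finset.mem_filter.1 hp).2
    have h8 : (2 : ℝ) ≤ p := by exact_mod_cast h7.two_le
    unfold h0
    apply div_nonneg zero_le_one (by linarith)) 1 (Λ₀ x)
  have hG := Gt_pos hp2
  have h7 : (1 / 2) * Gt (prP (Pz D δ x)) ≤ (1 - 32 * δ) * Gt (prP (Pz D δ x)) := by
    apply mul_le_mul_of_nonneg_right _ hG.le
    linarith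
  linarith

end Pool.Agent.Y876.AP
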