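import Mathlib
import Pool.Agent.Y876.AP.Asy

/-! The one-dimensional sums and the error terms for the sieving primes `D < p ≤ x ^ δ` (helper876). -/

set_option autoImplicit false

namespace Pool.Agent.Y876.AP

open Finset Filter Topology
open Pool.Agent.H410R2 hiding GP GP_prof GP_cut_some GP_cut_none GP_lip gg_pos gg_le_one gg_anti ee_bound ee_nonneg gg_lip LB_gg LB_ee Sums exists_sums yx wx wxi Br sum_GP_none sum_GP_some sum_GP_some_ee sum_GP_some_one sum_GPr_none sum_GPr_some S1_final QI_final S2_final w_abs_le wmax gg ee I1 I2 IE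
open Pool.Agent.H361R2.GM
open Pool.Agent.H362R2.CM (IP prP yP wP Lr Pr Sum_tendsto_Lr Sum_isWin_Pr sumZ_eq prodPr_le)

theorem h6_bound (p : ℕ) (hp : p.Prime) : |h6 p - 1 / p| ≤ 400 / (p : ℝ) ^ 2 := by
  unfold h6
  have h2 : (2 : ℝ) ≤ p := by exact_mod_cast hp.two_le
  generalize (p : ℝ) = r at h2
  have hr1 : (0 : ℝ) < r - 1 := by linarith
  have hr0 : (0 : ℝ) < r := by linarith
  have e : r ^ 5 / (r - 1) ^ 6 - 1 / r = (r ^ 6 - (r - 1) ^ 6) / (r * (r - 1) ^ 6) := by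
    field_simp
  have hle : (r - 1) ^ 6 ≤ r ^ 6 := by gcongr; linarith
  rw [e, abs_of_nonneg (div_nonneg (by linarith) (by positivity)),
    div_le_div_iff₀ (by positivity) (by positivity)]
  have h3 : (r / 2) ^ 6 ≤ (r - 1) ^ 6 := by
    apply pow_le_pow_left₀ (by positivity)
    linarith
  have h4 : r ^ 6 - (r - 1) ^ 6 ≤ 6 * r ^ 5 := by
    have h5 : (1 : ℝ) - 1 / r ≥ 0 := by
      rw [ge_iff_le, sub_nonneg, div_le_one hr0]
      linarith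
    have h6 := one_add_mul_le_pow (a := -(1 / r)) (by linarith) 6
    have e2 : (r - 1) ^ 6 = r ^ 6 * (1 + -(1 / r)) ^ 6 := by
      rw [← mul_pow]
      congr 1
      field_simp
      ring
    have h7 := mul_le_mul_of_nonneg_left h6 (by positivity : 0 ≤ r ^ 6)
    rw [← e2] at h7
    have e3 : r ^ 6 * (1 + ((6 : ℕ) : ℝ) * -(1 / r)) = r ^ 6 - 6 * r ^ 5 := by
      push_cast
      field_simp
      ring
    rw [e3] at h7
    linarith
  calc (r ^ 6 - (r - 1) ^ 6) * r ^ 2 ≤ 6 * r ^ 5 * r ^ 2 := by gcongr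
    _ = 384 * (r * (r / 2) ^ 6) := by ring
    _ ≤ 400 * (r * (r - 1) ^ 6) := by
        have : r * (r / 2) ^ 6 ≤ r * (r - 1) ^ 6 := by gcongr
        have h5 : 0 ≤ r * (r - 1) ^ 6 := by positivity
        linarith

theorem sumsR_all (Q : SPar) (hOD : OneDim) (k : ℕ) (ε : ℝ) (hε : 0 < ε) (ρ : ℝ) (hρ : 0 < ρ)
    (δ : ℝ) (hρδ : ρ ≤ δ) :
    ∃ D₀ : ℕ, ∀ D, D₀ ≤ D → ∀ᶠ x : ℝ in atTop,
      Sums Q D ε (k + 2) (Lr ρ x) (Lr ρ x / 48) (Pz D δ x) ∧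
        SumsR Q D ε (Lr ρ x) (Pz D δ x) := by
  obtain ⟨D₁, hS⟩ := exists_sums Q hOD (k + 2) ε hε
  have hG0 : 0 ≤ Q.G := Q.G0.le
  obtain ⟨Da, ha⟩ := hOD.use (4 * ((0 : ℕ) + 2)) Q.c _ _ Q.hc (LB_gg Q) ε hε
  obtain ⟨Db, hb'⟩ := hOD.use 2 Q.c _ _ Q.hc (LB_gg Q) ε hε
  obtain ⟨Dc, hc⟩ := hOD.use 400 1 2 _ one_pos LB_f0 ε hε
  obtain ⟨Dd, hd⟩ := hOD.use 400 Q.c _ _ Q.hc ((LB_gg Q).mul (LB_gg Q) hG0 hG0) ε hε
  refine ⟨D₁ + Da + Db + Dc + Dd, fun D hD => ?_⟩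
  have ha1 := ha D (by omega) h1 (fun p hp _ => by rw [h1_eq]; exact hb_bound 0 p hp)
  have hb1 := hb' D (by omega) h0 (fun p hp _ => h0_bound p hp)
  have hc1 := hc D (by omega) h6 (fun p hp _ => h6_bound p hp)
  have hd1 := hd D (by omega) h6 (fun p hp _ => h6_bound p hp)
  have hr := Sum_tendsto_Lr ρ hρ
  have hr48 : Tendsto (fun x : ℝ => Lr ρ x / 48) atTop atTop :=
    hr.atTop_div_const (by norm_num)
  filter_upwards [hr.eventually (hS D (by omega)), hr.eventually ha1, hr.eventually hb1,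
    hr48.eventually hc1, hr.eventually hd1,
    eventually_ge_atTop (1 : ℝ)] with x s1 a1 b1 c1 d1 hx
  have hl : 0 ≤ Real.log x := Real.log_nonneg hx
  have hlr : 0 ≤ Lr ρ x := mul_nonneg hρ.le hl
  have hrle : Lr ρ x ≤ δ * Real.log x := by
    unfold Lr
    nlinarith
  have w0 : IsWin D (Real.exp (Lr ρ x)) (Pz D δ x) :=
    Pz_isWin D δ x _ (Real.exp_le_exp.2 hrle)
  have w1 : IsWin D (Real.exp (Q.c * Lr ρ x)) (Pz D δ x) := by
    apply Pz_isWin D δ x _ (Real.exp_le_exp.2 _)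
    have := Q.hc1
    nlinarith
  have w2 : IsWin D (Real.exp (1 * (Lr ρ x / 48))) (Pz D δ x) := by
    apply Pz_isWin D δ x _ (Real.exp_le_exp.2 _)
    linarith
  refine ⟨s1 _ w0, ?_⟩
  have a2 := abs_le.1 (a1 _ w1)
  have b2 := abs_le.1 (b1 _ w1)
  have c2 := abs_le.1 (c1 _ w2)
  have d2 := abs_le.1 (d1 _ w1)
  rw [int_f0] at c2
  have hI2 : (∫ t in (0 : ℝ)..Q.c, Q.gg t * Q.gg t) = Q.I2 := by
    unfold SPar.I2
    congr 1
    funext t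
    ring
  have hsq : (fun t => Q.gg t ^ 2) = fun t => Q.gg t * Q.gg t := by funext t; ring
  rw [hI2] at d2
  have hI1 : (∫ t in (0 : ℝ)..Q.c, Q.gg t) = Q.I1 := rfl
  rw [hI1] at a2 b2
  constructor
  · linarith [a2.2]
  · linarith [b2.2]
  · linarith [c2.2]
  · rw [hsq]; linarith [d2.2]

theorem prodPz_le (hPB : ProdBound) (c : ℝ) (hc : 0 ≤ c) (D : ℕ) (δ : ℝ) (hδ : δ ≤ 1 / 4) :
    ∃ C : ℝ, 0 < C ∧ ∃ m : ℕ, ∀ᶠ x : ℝ in atTop,
      ∏ t : IP (Pz D δ x), (1 + c / (prP (Pz D δ x) t : ℝ)) ≤ C * (Real.log x) ^ m := by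
  obtain ⟨C, hC, m, h⟩ := prodPr_le hPB c hc D
  refine ⟨C, hC, m, ?_⟩
  filter_upwards [h, eventually_ge_atTop (1 : ℝ)] with x h1 hx
  refine le_trans ?_ h1
  rw [prod_IP (Pz D δ x) (fun p => 1 + c / (p : ℝ)), prod_IP (Pr D x) (fun p => 1 + c / (p : ℝ))]
  apply prod_le_prod_subset _ _ (Pz_sub_Pr D δ x hδ hx)
  intro p _
  have : 0 ≤ c / (p : ℝ) := by positivity
  linarith

theorem Gt_le_prod (P : Finset ℕ) (hP : ∀ p ∈ P, 2 ≤ p) :
    Gt (prP P) ≤ ∏ t : IP P, (1 + 2 / (prP P t : ℝ)) := by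
  unfold Gt
  have hp2 : ∀ t : IP P, 2 ≤ prP P t := fun t => hP t.1 t.2
  apply Finset.prod_le_prod
  · intro t _
    have := one_le_pr hp2 t
    apply div_nonneg <;> linarith
  · intro t _
    have h1 := one_le_pr hp2 t
    have h2 : (0 : ℝ) < prP P t := by linarith
    have e : 1 + 2 / (prP P t : ℝ) = ((prP P t : ℝ) + 2) / prP P t := by
      field_simp
    rw [e, div_le_div_iff₀ (by linarith) h2]
    nlinarith

theorem one_le_Gt {ι : Type} [Fintype ι] [DecidableEq ι] (pr : ι → ℕ) (hp : ∀ t, 2 ≤ pr t) : 1 ≤ Gt pr := by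
  unfold Gt
  have h4 : ∏ _t : ι, (1 : ℝ) ≤ ∏ t, ((pr t : ℝ) / ((pr t : ℝ) - 1)) := by
    apply Finset.prod_le_prod
    · intro t _
      norm_num
    · intro t _
      have := one_le_pr hp t
      rw [one_le_div (by linarith)]
      linarith
  rwa [Finset.prod_const_one] at h4

theorem card_Pz (D : ℕ) (δ x : ℝ) (hx : 0 < x) : ((Pz D δ x).card : ℝ) ≤ x ^ δ := by
  have h1 : Pz D δ x ⊆ Finset.Icc 1 ⌊Real.exp (δ * Real.log x)⌋₊ := by
    intro p hp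
    obtain ⟨h2, -, h3⟩ := mem_Pz.1 hp
    rw [Finset.mem_Icc]
    exact ⟨h2.one_lt.le, Nat.le_floor h3⟩
  have h2 := Finset.card_le_card h1
  rw [Nat.card_Icc, Nat.add_sub_cancel] at h2
  calc ((Pz D δ x).card : ℝ) ≤ (⌊Real.exp (δ * Real.log x)⌋₊ : ℝ) := by exact_mod_cast h2
    _ ≤ Real.exp (δ * Real.log x) := Nat.floor_le (Real.exp_pos _).le
    _ = x ^ δ := by rw [Real.rpow_def_of_pos hx, mul_comm]

/-- the error term of the lower bound is small -/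
theorem errB_le (hPB : ProdBound) (k D : ℕ) (hD : k + 2 ≤ D) (δ : ℝ) (hδ : 0 < δ)
    (hδ1 : δ ≤ 1 / 64) (ρ : ℝ) (hρδ : ρ ≤ δ) :
    ∀ᶠ x : ℝ in atTop, ErrB k (Pz D δ x) (Lr ρ x) (Λ₀ x) x ≤ x ^ (3 / 4 : ℝ) := by
  obtain ⟨C1, hC1, m1, h1⟩ := prodPz_le hPB (3 * ((k + 1 : ℕ) : ℝ)) (by positivity) D δ (by linarith)
  obtain ⟨C2, hC2, m2, h2⟩ := prodPz_le hPB 2 (by norm_num) D δ (by linarith)
  filter_upwards [h1, h2, ev_polylog (20 * (C1 * C2) ^ 2) (1 + (m1 + m2) * 2) (1 / 4) (3 / 4)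
    (by norm_num), eventually_ge_atTop (Real.exp 1)] with x h1 h2 h3 hx
  have hx0 : 0 < x := lt_of_lt_of_le (Real.exp_pos _) hx
  have hlx : 1 ≤ Real.log x := (Real.le_log_iff_exp_le hx0).2 hx
  have hx1 : 1 ≤ x := by
    have := Real.add_one_le_exp (1 : ℝ)
    linarith
  have hP2 : ∀ p ∈ Pz D δ x, 2 ≤ p := fun p hp => (Pz_prime D δ x p hp).1.two_le
  have hp2 : ∀ t : IP (Pz D δ x), 2 ≤ prP (Pz D δ x) t := fun t => hP2 t.1 t.2
  have hG := Gt_le_prod (Pz D δ x) hP2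
  have hG0 := (Gt_pos hp2).le
  have hsum : ∑ t : IP (Pz D δ x), (Real.log (prP (Pz D δ x) t) / Λ₀ x +
    2 * ((k + 1 : ℕ) : ℝ) / ((prP (Pz D δ x) t : ℝ) - 1)) ^ 2 ≤ 9 * x ^ δ := by
    calc _ ≤ ∑ _t : IP (Pz D δ x), (9 : ℝ) := by
          apply Finset.sum_le_sum
          intro t _
          have h4 := Pz_log D δ x t.1 t.2
          have h5 : 0 ≤ Real.log (prP (Pz D δ x) t) := Real.log_natCast_nonneg _
          have h6 : Real.log (prP (Pz D δ x) t) / Λ₀ x ≤ 1 := by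
            unfold Λ₀
            rw [div_le_one (by positivity)]
            have h7 : Real.log (prP (Pz D δ x) t) ≤ δ * Real.log x := h4
            nlinarith
          have h7 : 0 ≤ Real.log (prP (Pz D δ x) t) / Λ₀ x := by
            unfold Λ₀
            positivity
          have h8 : ((k + 1 : ℕ) : ℝ) ≤ (prP (Pz D δ x) t : ℝ) - 1 := by
            have h9 := (Pz_prime D δ x t.1 t.2).2
            have h10 : k + 1 + 1 ≤ prP (Pz D δ x) t := by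
              have : prP (Pz D δ x) t = t.1 := rfl
              omega
            have h11 : ((k + 1 + 1 : ℕ) : ℝ) ≤ (prP (Pz D δ x) t : ℝ) := by exact_mod_cast h10
            push_cast at h11 ⊢
            linarith
          have h9 := one_le_pr hp2 t
          have h10 : 2 * ((k + 1 : ℕ) : ℝ) / ((prP (Pz D δ x) t : ℝ) - 1) ≤ 2 := by
            rw [div_le_iff₀ (by linarith)]
            linarith
          have h11 : 0 ≤ 2 * ((k + 1 : ℕ) : ℝ) / ((prP (Pz D δ x) t : ℝ) - 1) :=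
            div_nonneg (by positivity) (by linarith)
          nlinarith
      _ = 9 * ((Pz D δ x).card : ℝ) := by
          rw [Finset.sum_const, nsmul_eq_mul, Finset.card_univ, Fintype.card_coe]
          ring
      _ ≤ _ := by
          have := card_Pz D δ x hx0
          linarith
  have hsum0 : 0 ≤ ∑ t : IP (Pz D δ x), (Real.log (prP (Pz D δ x) t) / Λ₀ x +
    2 * ((k + 1 : ℕ) : ℝ) / ((prP (Pz D δ x) t : ℝ) - 1)) ^ 2 :=
    Finset.sum_nonneg fun t _ => sq_nonneg _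
  have hP0 : 0 ≤ ∏ t : IP (Pz D δ x), (1 + 3 * ((k + 1 : ℕ) : ℝ) / (prP (Pz D δ x) t : ℝ)) :=
    Finset.prod_nonneg fun t _ => by positivity
  have hxδ : 1 ≤ x ^ δ := Real.one_le_rpow hx1 hδ.le
  have he : Real.exp (Λ₀ x + (Lr ρ x / 48 + Lr ρ x)) = x ^ (1 / 16 + 49 / 48 * ρ : ℝ) := by
    rw [Real.rpow_def_of_pos hx0]
    congr 1
    unfold Lr Λ₀
    ring
  have he2 : x ^ (1 / 16 + 49 / 48 * ρ : ℝ) ≤ x ^ (3 / 32 : ℝ) := by
    apply Real.rpow_le_rpow_of_exponent_le hx1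
    linarith
  have he3 : x ^ δ ≤ x ^ (1 / 16 : ℝ) := by
    apply Real.rpow_le_rpow_of_exponent_le hx1
    linarith
  unfold ErrB
  rw [he]
  calc (Real.log x + 1) * (1 + ∑ t : IP (Pz D δ x), (Real.log (prP (Pz D δ x) t) / Λ₀ x +
    2 * ((k + 1 : ℕ) : ℝ) / ((prP (Pz D δ x) t : ℝ) - 1)) ^ 2) *
      (Gt (prP (Pz D δ x)) * (x ^ (1 / 16 + 49 / 48 * ρ : ℝ) *
        ∏ t : IP (Pz D δ x), (1 + 3 * ((k + 1 : ℕ) : ℝ) / (prP (Pz D δ x) t : ℝ)))) ^ 2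
      ≤ (Real.log x + Real.log x) * (x ^ δ + 9 * x ^ δ) *
        ((C2 * (Real.log x) ^ m2) * (x ^ (3 / 32 : ℝ) * (C1 * (Real.log x) ^ m1))) ^ 2 := by
        have hG' := hG.trans h2
        gcongr
    _ = 20 * (C1 * C2) ^ 2 * (Real.log x) ^ (1 + (m1 + m2) * 2) * (x ^ δ * (x ^ (3 / 32 : ℝ)) ^ 2) := by
        ring
    _ ≤ 20 * (C1 * C2) ^ 2 * (Real.log x) ^ (1 + (m1 + m2) * 2) * x ^ (1 / 4 : ℝ) := by
        apply mul_le_mul_of_nonneg_left _ (by positivity)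
        calc x ^ δ * (x ^ (3 / 32 : ℝ)) ^ 2 ≤ x ^ (1 / 16 : ℝ) * (x ^ (3 / 32 : ℝ)) ^ 2 := by
              gcongr
          _ = x ^ (1 / 4 : ℝ) := by
              rw [← Real.rpow_natCast, ← Real.rpow_mul hx0.le, ← Real.rpow_add hx0]
              congr 1
              norm_num
    _ ≤ _ := h3

/-- the error term of the upper bound is small -/
theorem errC_le (hPB : ProdBound) (k D : ℕ) (δ : ℝ)
    (hδ1 : δ ≤ 1 / 64) (ρ : ℝ) (hρ : 0 < ρ) (hρδ : ρ ≤ δ) (c : ℝ) (hc : 0 ≤ c) (θ : ℝ)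
    (hθ : θ ≤ 1 / 4) :
    ∀ᶠ x : ℝ in atTop, ErrC k (Pz D δ x) (Lr ρ x) (Λ₀ x) x
      (((c * Lr ρ x) / ((1 - θ) * Gt (prP (Pz D δ x)))) ^ 2) ≤ x ^ (3 / 4 : ℝ) := by
  obtain ⟨C1, hC1, m1, h1⟩ := prodPz_le hPB (3 * ((k + 1 : ℕ) : ℝ)) (by positivity) D δ (by linarith)
  obtain ⟨C2, hC2, m2, h2⟩ := prodPz_le hPB 2 (by norm_num) D δ (by linarith)
  filter_upwards [h1, h2, ev_polylog (2 * ((2 * c) ^ 2 * C2 ^ 2 * C1) ^ 2)
    (1 + (2 + m2 * 2 + m1) * 2) (3 / 8) (3 / 4)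
    (by norm_num), eventually_ge_atTop (Real.exp 1)] with x h1 h2 h3 hx
  have hx0 : 0 < x := lt_of_lt_of_le (Real.exp_pos _) hx
  have hlx : 1 ≤ Real.log x := (Real.le_log_iff_exp_le hx0).2 hx
  have hx1 : 1 ≤ x := by
    have := Real.add_one_le_exp (1 : ℝ)
    linarith
  have hP2 : ∀ p ∈ Pz D δ x, 2 ≤ p := fun p hp => (Pz_prime D δ x p hp).1.two_le
  have hp2 : ∀ t : IP (Pz D δ x), 2 ≤ prP (Pz D δ x) t := fun t => hP2 t.1 t.2
  have hG := Gt_le_prod (Pz D δ x) hP2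
  have hG0 := (Gt_pos hp2).le
  have hG1 := one_le_Gt (prP (Pz D δ x)) hp2
  have hP0 : 0 ≤ ∏ t : IP (Pz D δ x), (1 + 3 * ((k + 1 : ℕ) : ℝ) / (prP (Pz D δ x) t : ℝ)) :=
    Finset.prod_nonneg fun t _ => by positivity
  have hLr : 0 ≤ Lr ρ x := by
    unfold Lr
    positivity
  have hLr1 : Lr ρ x ≤ Real.log x := by
    unfold Lr
    nlinarith
  have hC : (c * Lr ρ x) / ((1 - θ) * Gt (prP (Pz D δ x))) ≤ 2 * c * Real.log x := by
    have h4 : (1 / 2 : ℝ) ≤ (1 - θ) * Gt (prP (Pz D δ x)) := by nlinarith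
    rw [div_le_iff₀ (by linarith)]
    have h5 : 0 ≤ 2 * c * Real.log x := by positivity
    have h6 := mul_le_mul_of_nonneg_left h4 h5
    have h7 := mul_le_mul_of_nonneg_left hLr1 hc
    linarith
  have hC0 : 0 ≤ (c * Lr ρ x) / ((1 - θ) * Gt (prP (Pz D δ x))) := by
    apply div_nonneg (mul_nonneg hc hLr)
    apply mul_nonneg _ hG0
    linarith
  have he : Real.exp (Λ₀ x + (Λ₀ x + (Lr ρ x / 48 + Lr ρ x))) = x ^ (1 / 8 + 49 / 48 * ρ : ℝ) := by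
    rw [Real.rpow_def_of_pos hx0]
    congr 1
    unfold Lr Λ₀
    ring
  have he2 : x ^ (1 / 8 + 49 / 48 * ρ : ℝ) ≤ x ^ (3 / 16 : ℝ) := by
    apply Real.rpow_le_rpow_of_exponent_le hx1
    linarith
  unfold ErrC
  rw [he]
  calc (Real.log x + 1) * (((c * Lr ρ x) / ((1 - θ) * Gt (prP (Pz D δ x)))) ^ 2 *
        Gt (prP (Pz D δ x)) ^ 2 * (x ^ (1 / 8 + 49 / 48 * ρ : ℝ) *
        ∏ t : IP (Pz D δ x), (1 + 3 * ((k + 1 : ℕ) : ℝ) / (prP (Pz D δ x) t : ℝ)))) ^ 2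
      ≤ (Real.log x + Real.log x) * ((2 * c * Real.log x) ^ 2 *
        (C2 * (Real.log x) ^ m2) ^ 2 * (x ^ (3 / 16 : ℝ) * (C1 * (Real.log x) ^ m1))) ^ 2 := by
        have hG' := hG.trans h2
        gcongr
    _ = 2 * ((2 * c) ^ 2 * C2 ^ 2 * C1) ^ 2 * (Real.log x) ^ (1 + (2 + m2 * 2 + m1) * 2) *
        (x ^ (3 / 16 : ℝ)) ^ 2 := by
        ring
    _ = 2 * ((2 * c) ^ 2 * C2 ^ 2 * C1) ^ 2 * (Real.log x) ^ (1 + (2 + m2 * 2 + m1) * 2) *
        x ^ (3 / 8 : ℝ) := by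
        congr 1
        rw [← Real.rpow_natCast, ← Real.rpow_mul hx0.le]
        congr 1
        norm_num
    _ ≤ _ := h3

end Pool.Agent.Y876.AP
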