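import Mathlib
import Pool.Agent.Y876.AP.Asy2

/-! Combination of the mass bounds; prime factors of rough numbers (helper876). -/

set_option autoImplicit false

namespace Pool.Agent.Y876.AP

open Finset Filter Topology

open Classical in
/-- abstract combination -/
theorem comb {T : ℕ} (hT : 1 ≤ T) (N : Finset ℕ) (u : ℕ → ℝ) (hu : ∀ n ∈ N, 0 ≤ u n)
    (p q : Fin T → ℕ → Prop) (e : ℝ) (he0 : 0 < e) (M : ℝ)
    (hU : ∑ n ∈ N, u n ≤ M)
    (hp : ∀ g, (1 / 4 - e / 4) * M ≤ ∑ n ∈ N, if p g n then u n else 0)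
    (hq : ∀ g, (1 - e ^ 2 / 4) * M ≤ ∑ n ∈ N, if q g n then u n else 0) (he1 : e ≤ 1 / 4) :
    e / 2 * M ≤ ∑ n ∈ N.filter (fun n =>
      (1 / 4 - e) * T ≤ ((univ.filter (fun g : Fin T => p g n)).card : ℝ) ∧
      (1 - e) * T ≤ ((univ.filter (fun g : Fin T => q g n)).card : ℝ)), u n := by
  have hT0 : (0 : ℝ) < T := by exact_mod_cast hT
  set cp : ℕ → ℝ := fun n => ((univ.filter (fun g : Fin T => p g n)).card : ℝ) with hcp
  set cq : ℕ → ℝ := fun n => ((univ.filter (fun g : Fin T => q g n)).card : ℝ) with hcq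
  have hsum : ∀ r : Fin T → ℕ → Prop, ∑ g : Fin T, (∑ n ∈ N, if r g n then u n else 0) =
      ∑ n ∈ N, ((univ.filter (fun g : Fin T => r g n)).card : ℝ) * u n := by
    intro r
    rw [Finset.sum_comm]
    refine Finset.sum_congr rfl fun n _ => ?_
    rw [← Finset.sum_filter, Finset.sum_const, nsmul_eq_mul]
  have h1 : T * ((1 / 4 - e / 4) * M) ≤ ∑ n ∈ N, cp n * u n := by
    have h2 := Finset.card_nsmul_le_sum (univ : Finset (Fin T))
      (fun g => ∑ n ∈ N, if p g n then u n else 0) ((1 / 4 - e / 4) * M) (fun g _ => hp g)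
    rw [Finset.card_univ, Fintype.card_fin, nsmul_eq_mul, hsum p] at h2
    exact h2
  have h2 : T * ((1 - e ^ 2 / 4) * M) ≤ ∑ n ∈ N, cq n * u n := by
    have h2 := Finset.card_nsmul_le_sum (univ : Finset (Fin T))
      (fun g => ∑ n ∈ N, if q g n then u n else 0) ((1 - e ^ 2 / 4) * M) (fun g _ => hq g)
    rw [Finset.card_univ, Fintype.card_fin, nsmul_eq_mul, hsum q] at h2
    exact h2
  have hcpT : ∀ n, cp n ≤ T := by
    intro n
    have := Finset.card_le_univ (univ.filter (fun g : Fin T => p g n))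
    rw [Fintype.card_fin] at this
    simp only [hcp]
    exact_mod_cast this
  have hcqT : ∀ n, cq n ≤ T := by
    intro n
    have := Finset.card_le_univ (univ.filter (fun g : Fin T => q g n))
    rw [Fintype.card_fin] at this
    simp only [hcq]
    exact_mod_cast this
  have hpt : ∀ n ∈ N, cp n * u n ≤ (1 / 4 - e) * T * u n + (T * u n - cq n * u n) / e +
      T * (if ((1 / 4 - e) * T ≤ cp n ∧ (1 - e) * T ≤ cq n) then u n else 0) := by
    intro n hn
    have hun := hu n hn
    have hcp1 := hcpT n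
    have hcq1 := hcqT n
    have h3 : 0 ≤ (T * u n - cq n * u n) / e := by
      apply div_nonneg _ he0.le
      nlinarith
    have h4 : 0 ≤ (1 / 4 - e) * T * u n := by
      apply mul_nonneg (mul_nonneg (by linarith) hT0.le) hun
    split_ifs with hgood
    · have h5 : cp n * u n ≤ T * u n := mul_le_mul_of_nonneg_right hcp1 hun
      linarith
    · rw [not_and_or, not_le, not_le] at hgood
      rcases hgood with h5 | h5
      · have h6 : cp n * u n ≤ (1 / 4 - e) * T * u n := mul_le_mul_of_nonneg_right h5.le hun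
        linarith
      · have h6 : cp n * u n ≤ (T * u n - cq n * u n) / e := by
          rw [le_div_iff₀ he0]
          have h7 : e * T ≤ T - cq n := by linarith
          have h8 : cp n * e ≤ T - cq n := by nlinarith
          have h9 := mul_le_mul_of_nonneg_right h8 hun
          linarith
        linarith
  have h3 := Finset.sum_le_sum hpt
  rw [Finset.sum_add_distrib, Finset.sum_add_distrib, ← Finset.mul_sum, ← Finset.mul_sum,
    ← Finset.sum_div, Finset.sum_sub_distrib, ← Finset.mul_sum, ← Finset.sum_filter] at h3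
  set G := ∑ n ∈ N.filter (fun n => (1 / 4 - e) * T ≤ cp n ∧ (1 - e) * T ≤ cq n), u n with hG
  have h4 : (T * ∑ n ∈ N, u n - ∑ n ∈ N, cq n * u n) / e ≤ T * (e / 4 * M) := by
    rw [div_le_iff₀ he0]
    have h5 := mul_le_mul_of_nonneg_left hU hT0.le
    nlinarith
  have h5 : (1 / 4 - e) * T * ∑ n ∈ N, u n ≤ (1 / 4 - e) * T * M := by
    apply mul_le_mul_of_nonneg_left hU
    apply mul_nonneg (by linarith) hT0.le
  have h6 : T * (e / 2 * M) ≤ T * G := by
    have h7 : T * ((1 / 4 - e / 4) * M) ≤ (1 / 4 - e) * T * M + T * (e / 4 * M) + T * G := by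
      linarith
    linarith
  exact le_of_mul_le_mul_left h6 hT0

/-- a list of large numbers -/
theorem list_prod_ge (c : ℝ) (hc : 0 ≤ c) (l : List ℕ) (h : ∀ p ∈ l, c ≤ (p : ℝ)) :
    c ^ l.length ≤ (l.prod : ℝ) := by
  induction l with
  | nil => simp
  | cons a l ih =>
    rw [List.length_cons, List.prod_cons, pow_succ, Nat.cast_mul]
    have h1 := ih (fun p hp => h p (List.mem_cons_of_mem a hp))
    have h2 := h a List.mem_cons_self
    calc c ^ l.length * c ≤ (l.prod : ℝ) * a := by
          apply mul_le_mul h1 h2 hc (Nat.cast_nonneg _)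
      _ = _ := mul_comm _ _

/-- rough numbers have few prime factors -/
theorem rough_omega (m W D : ℕ) (δ x : ℝ) (hδ : 0 < δ) (hx : 1 < x) (hm : 1 ≤ m)
    (hW : ∀ p : ℕ, p.Prime → p ≤ D → p ∣ W) (hcop : m.Coprime W)
    (hr : ∀ p ∈ Pz D δ x, ¬ p ∣ m) (hle : (m : ℝ) ≤ x ^ (1 + δ)) :
    (m.primeFactorsList.length : ℝ) ≤ 1 / δ + 1 := by
  have hx0 : 0 < x := by linarith
  have hlx : 0 < Real.log x := Real.log_pos hx
  have h1 : ∀ p ∈ m.primeFactorsList, Real.exp (δ * Real.log x) ≤ (p : ℝ) := by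
    intro p hp
    have hpp := Nat.prime_of_mem_primeFactorsList hp
    have hpd := Nat.dvd_of_mem_primeFactorsList hp
    by_contra hcon
    push Not at hcon
    have hD : D < p := by
      by_contra hle
      push Not at hle
      have h2 := Nat.dvd_gcd hpd (hW p hpp hle)
      rw [hcop] at h2
      exact hpp.one_lt.ne' (Nat.dvd_one.1 h2)
    exact hr p (mem_Pz.2 ⟨hpp, hD, hcon.le⟩) hpd
  have h2 := list_prod_ge _ (Real.exp_pos _).le m.primeFactorsList h1
  rw [Nat.prod_primeFactorsList (by omega)] at h2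
  have h3 := h2.trans hle
  have h4 := Real.log_le_log (by positivity) h3
  rw [Real.log_pow, Real.log_exp, Real.log_rpow hx0] at h4
  have h5 : (m.primeFactorsList.length : ℝ) * δ ≤ 1 + δ := by
    have h6 : ((m.primeFactorsList.length : ℝ) * δ) * Real.log x ≤ (1 + δ) * Real.log x := by
      linarith
    exact le_of_mul_le_mul_right h6 hlx
  have h7 : 1 / δ + 1 = (1 + δ) / δ := by
    field_simp
  rw [h7, le_div_iff₀ hδ]
  exact h5

end Pool.Agent.Y876.AP
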