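import Mathlib
import Pool.Agent.H362R2.CM.Num

/-! The choice of the parameters (helper876). -/

set_option autoImplicit false

namespace Pool.Agent.Y876.AP

open Finset Filter Topology
open Pool.Agent.H410R2 hiding GP GP_prof GP_cut_some GP_cut_none GP_lip gg_pos gg_le_one gg_anti ee_bound ee_nonneg gg_lip LB_gg LB_ee Sums exists_sums yx wx wxi Br sum_GP_none sum_GP_some sum_GP_some_ee sum_GP_some_one sum_GPr_none sum_GPr_some S1_final QI_final S2_final w_abs_le wmax gg ee I1 I2 IE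
open Pool.Agent.H361R2.GM
open Pool.Agent.H362R2.CM (Ac βc γc exists_parS Br_zero_bounds)

/-- the constant of the lower bound for the rough values -/
noncomputable def bR (Q : SPar) (k : ℕ) (θ ε : ℝ) : ℝ :=
  (1 - 2 * θ) / (1 + ε) * ((Q.I1 - ε) ^ 2 * Br Q k ε) -
    (θ ^ 2 + ε) * ((1 + ε) / (1 - θ) ^ 2 *
      ((Q.I1 + ε) ^ 2 * ((1 / 3 + ε) * (Q.I2 + ε) ^ (k - 1))))

/-- the constant of the upper bound for the pairs of rough values -/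
noncomputable def gR (Q : SPar) (k : ℕ) (θ ε : ℝ) : ℝ :=
  (1 + ε) ^ 2 / (1 - θ) ^ 4 * ((Q.I1 + ε) ^ 4 * ((1 / 3 + ε) * (Q.I2 + ε) ^ (k - 2)))

theorem nL1 (θ : ℝ) (h1 : θ ≤ 1 / 1024) (h0 : 0 < θ) : (1 / 2 : ℝ) ≤ (1 - θ) ^ 2 := by nlinarith

theorem nL2 (θ : ℝ) (h1 : θ ≤ 1 / 1024) (h0 : 0 < θ) : 1 / (1 - θ) ^ 4 ≤ 1 + 5 * θ := by
  have h1θ' : 1 - 4 * θ ≤ (1 - θ) ^ 4 := by
    have h2 := one_add_mul_le_pow (a := -θ) (by linarith) 4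
    have e1 : (1 + -θ) ^ 4 = (1 - θ) ^ 4 := by ring
    rw [e1] at h2
    push_cast at h2
    linarith
  have h1θp : 0 < (1 - θ) ^ 4 := by
    have : 0 < 1 - θ := by linarith
    positivity
  rw [div_le_iff₀ h1θp]
  have h2 := mul_le_mul_of_nonneg_left h1θ' (by linarith : (0 : ℝ) ≤ 1 + 5 * θ)
  nlinarith

theorem nL3 (θ b : ℝ) (h1 : θ ≤ 1 / 1024) (h0 : 0 < θ) (hb : 1 - θ / 100 ≤ b) :
    1 - 3 * θ ≤ (1 - 2 * θ) * b - θ ^ 2 / (1 - θ) ^ 2 := by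
  have h1θ := nL1 θ h1 h0
  have h2 : θ ^ 2 / (1 - θ) ^ 2 ≤ 2 * θ ^ 2 := by
    rw [div_le_iff₀ (by linarith)]
    nlinarith [sq_nonneg θ]
  have h3 : (1 - 2 * θ) * (1 - θ / 100) ≤ (1 - 2 * θ) * b :=
    mul_le_mul_of_nonneg_left hb (by linarith)
  nlinarith

theorem nL4 (θ b : ℝ) (h1 : θ ≤ 1 / 1024) (h0 : 0 < θ) (hb0 : 0 < b) (hb : b ≤ 1) :
    (1 - 2 * θ) * b - θ ^ 2 / (1 - θ) ^ 2 ≤ 1 := by
  have h2 : 0 ≤ θ ^ 2 / (1 - θ) ^ 2 := by positivity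
  nlinarith

theorem nL5 (ρ : ℝ) (h1 : ρ ≤ 1 / 65536) (h0 : 0 < ρ) : 1 / (1 / 4 - 2 * ρ) ≤ 4 + 40 * ρ := by
  rw [div_le_iff₀ (by linarith)]
  nlinarith

theorem nL6 (e θ ρ b : ℝ) (he0 : 0 < e) (he1 : e ≤ 1 / 4) (hθ0 : 0 < θ) (hρ0 : 0 < ρ)
    (hθ : θ ≤ e / 256) (hρ : ρ ≤ e / 16384) (hb : 1 - θ / 100 ≤ b) :
    (1 / 4 - e / 4) * (θ / 100 + (4 + 40 * ρ)) < b ^ 2 := by
  have h9 : (1 - θ / 100) ^ 2 ≤ b ^ 2 := by
    apply pow_le_pow_left₀ (by linarith) hb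
  have h10 : 1 - θ / 50 ≤ (1 - θ / 100) ^ 2 := by nlinarith [sq_nonneg (θ / 100)]
  have h11 : (1 / 4 - e / 4) * (θ / 100 + (4 + 40 * ρ)) ≤
      1 - e + (1 / 4) * (θ / 100 + 40 * ρ) := by
    have h12 : 0 ≤ e / 4 * (θ / 100 + 40 * ρ) := by positivity
    have e1 : (1 / 4 - e / 4) * (θ / 100 + (4 + 40 * ρ)) =
      1 - e + (1 / 4) * (θ / 100 + 40 * ρ) - e / 4 * (θ / 100 + 40 * ρ) := by ring
    linarith
  linarith

theorem nL7 (e θ c : ℝ) (hθ0 : 0 < θ) (hθ1 : θ ≤ 1 / 1024) (hθ : θ = e ^ 2 / 64)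
    (hc1 : 1 - 3 * θ ≤ c) : (1 - e ^ 2 / 4) * (θ / 400 + (1 + 5 * θ)) < c ^ 2 := by
  have h9 : (1 - 3 * θ) ^ 2 ≤ c ^ 2 := pow_le_pow_left₀ (by linarith) hc1 2
  have h12 : e ^ 2 / 4 = 16 * θ := by
    rw [hθ]
    ring
  rw [h12]
  have e1 : (1 - 16 * θ) * (θ / 400 + (1 + 5 * θ)) =
      1 - (11 - 1 / 400) * θ - (16 * (5 + 1 / 400)) * θ ^ 2 := by ring
  have e2 : (1 - 3 * θ) ^ 2 = 1 - 6 * θ + 9 * θ ^ 2 := by ring
  rw [e2] at h9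
  rw [e1]
  have h13 : 0 ≤ θ ^ 2 := sq_nonneg θ
  linarith

theorem base_R (e : ℝ) (he0 : 0 < e) (he1 : e ≤ 1 / 4) (T : ℕ) (hT1 : 1 ≤ T) (ρ θ : ℝ)
    (hρ : ρ = e ^ 2 / 4096) (hθ : θ = e ^ 2 / 64) :
    ∃ (K : ℕ) (Q : SPar), 2 ≤ K ∧ 0 < Q.I1 ∧ 0 < Q.I2 ∧ 0 < Br Q (T * K) 0 ∧
      0 < bR Q (T * K) θ 0 ∧
      (1 / 4 - e / 4) * (Ac Q (T * K) 0 *
        (K * (ρ * βc Q (T * K) 0) + (K : ℝ) ^ 2 * γc Q (T * K) ρ 0)) <
          (K * (ρ * βc Q (T * K) 0)) ^ 2 ∧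
      (1 - e ^ 2 / 4) * (Ac Q (T * K) 0 *
        ((1 - 0) * bR Q (T * K) θ 0 + K * (4 * ρ) * ((1 + 0) * gR Q (T * K) θ 0))) <
          K * (4 * ρ) * ((1 - 0) * bR Q (T * K) θ 0) ^ 2 := by
  have hT : (1 : ℝ) ≤ T := by exact_mod_cast hT1
  have he2 : e ^ 2 ≤ e / 4 := by nlinarith
  have hθ0 : 0 < θ := by rw [hθ]; positivity
  have hρ0 : 0 < ρ := by rw [hρ]; positivity
  have hθ1 : θ ≤ 1 / 1024 := by
    rw [hθ]
    nlinarith
  have hρ1 : ρ ≤ 1 / 65536 := by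
    rw [hρ]
    nlinarith
  set s : ℝ := 2 + 100 / θ with hs
  set A : ℝ := 2 * s + 4 + 100 * T / (ρ * θ) with hA
  have hs0 : 0 < 100 / θ := by positivity
  have hs1 : 1 ≤ s := by rw [hs]; linarith
  have hA0 : 0 < 100 * T / (ρ * θ) := by positivity
  have hAs : 2 * s + 4 ≤ A := by rw [hA]; linarith
  have hA4 : 4 ≤ A := by linarith
  obtain ⟨K', hK'⟩ := exists_nat_ge (100 * s ^ 2 * Real.exp A)
  set K : ℕ := K' + 2 with hK
  have hKR : 100 * s ^ 2 * Real.exp A ≤ (K : ℝ) := by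
    rw [hK]; push_cast; linarith
  have hK2 : 2 ≤ K := by omega
  have hK2R : (2 : ℝ) ≤ K := by exact_mod_cast hK2
  have hkK : (K : ℝ) ≤ ((T * K : ℕ) : ℝ) := by
    push_cast
    nlinarith
  obtain ⟨Q, hQG, hQc, hQl⟩ := exists_parS A s hA4 hs1 (T * K) (hKR.trans hkK)
  obtain ⟨hI1, hI2, hI2le, hBl, hBu⟩ := Br_zero_bounds A s hs1 hAs (T * K) (hKR.trans hkK) Q hQG hQc hQl
  set η : ℝ := Real.exp (-s + 2) with hη
  have hη0 : 0 < η := Real.exp_pos _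
  have hηle : η ≤ θ / 100 := by
    have h1 : η * Real.exp (100 / θ) = 1 := by
      rw [hη, ← Real.exp_add, hs]
      rw [show -(2 + 100 / θ) + 2 + 100 / θ = 0 by ring, Real.exp_zero]
    have h2 : 100 / θ ≤ Real.exp (100 / θ) := by
      have := Real.add_one_le_exp (100 / θ)
      linarith
    have h3 : η * (100 / θ) ≤ 1 := by
      calc η * (100 / θ) ≤ η * Real.exp (100 / θ) := by gcongr
        _ = 1 := h1
    have h4 : η * (100 / θ) = η * 100 / θ := by ring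
    rw [h4, div_le_one hθ0] at h3
    linarith
  set k : ℕ := T * K with hk
  have hkcast : (k : ℝ) = T * K := by rw [hk]; push_cast; ring
  have hk2 : 2 ≤ k := by
    rw [hk]
    calc 2 ≤ K := hK2
      _ ≤ T * K := Nat.le_mul_of_pos_left K hT1
  have hk0 : (0 : ℝ) < k := by rw [hkcast]; positivity
  have hK0 : (0 : ℝ) < K := by linarith
  set P : ℝ := (1 / 3) * Q.I2 ^ (k - 2) with hP
  have hP0 : 0 < P := by positivity
  have hpow1 : (1 / 3) * Q.I2 ^ (k - 1) = P * Q.I2 := by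
    have : k - 1 = (k - 2) + 1 := by omega
    rw [this, pow_succ, hP]; ring
  have hpow2 : (1 / 3) * Q.I2 ^ k = P * Q.I2 ^ 2 := by
    have : k = (k - 2) + 2 := by omega
    rw [hP, mul_assoc, ← pow_add, ← this]
  set b : ℝ := Br Q k 0 / (P * Q.I2) with hb
  have hPI : 0 < P * Q.I2 := by positivity
  have hBb : Br Q k 0 = b * (P * Q.I2) := by
    rw [hb]; field_simp
  rw [hpow1] at hBl hBu
  have hb1 : 1 - η ≤ b := by
    rw [hb, le_div_iff₀ hPI]; exact hBl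
  have hb2 : b ≤ 1 := by
    rw [hb, div_le_one hPI]; exact hBu
  have hb0 : 0 < b := by linarith
  have hBpos : 0 < Br Q k 0 := by rw [hBb]; positivity
  -- values
  have hAc : Ac Q k 0 = P * Q.I2 ^ 2 := by
    unfold Ac
    rw [← hpow2]; simp
  have hβ : βc Q k 0 = Q.I1 ^ 2 * (b * (P * Q.I2)) := by
    unfold βc
    rw [hBb]; simp
  have hγ : γc Q k ρ 0 = ρ ^ 2 / (1 / 4 - 2 * ρ) * (Q.I1 ^ 4 * P) := by
    unfold γc
    rw [hP]; simp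
  set c : ℝ := (1 - 2 * θ) * b - θ ^ 2 / (1 - θ) ^ 2 with hc
  have hbR : bR Q k θ 0 = Q.I1 ^ 2 * (P * Q.I2) * c := by
    unfold bR
    simp only [add_zero, sub_zero]
    rw [hBb, hc, hpow1]
    ring
  have hgR : gR Q k θ 0 = Q.I1 ^ 4 * P * (1 / (1 - θ) ^ 4) := by
    unfold gR
    rw [hP]
    simp
    ring
  have hbθ : 1 - θ / 100 ≤ b := by linarith only [hb1, hηle]
  have hc1 : 1 - 3 * θ ≤ c := nL3 θ b hθ1 hθ0 hbθ
  have hc2 : c ≤ 1 := nL4 θ b hθ1 hθ0 hb0 hb2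
  have hc0 : 0 < c := by linarith only [hc1, hθ1]
  have hg1 : 1 / (1 - θ) ^ 4 ≤ 1 + 5 * θ := nL2 θ hθ1 hθ0
  have hI1pos : 0 < Q.I1 := by rw [hI1]; positivity
  have hkI2 : k * Q.I2 ≤ ρ * θ / (100 * T) := by
    calc k * Q.I2 ≤ k * (1 / (A * k)) := by gcongr
      _ = 1 / A := by field_simp
      _ ≤ 1 / (100 * T / (ρ * θ)) := by
          apply one_div_le_one_div_of_le hA0
          rw [hA]
          linarith
      _ = ρ * θ / (100 * T) := by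
          rw [one_div_div]
  have hKk : (K : ℝ) / k = 1 / T := by
    rw [hkcast]
    field_simp
  refine ⟨K, Q, hK2, hI1pos, hI2, hBpos, by rw [hbR]; positivity, ?_, ?_⟩
  · -- primes
    rw [hAc, hβ, hγ]
    have hq0 : 0 < 1 / 4 - 2 * ρ := by linarith
    have h4 : 1 / (1 / 4 - 2 * ρ) ≤ 4 + 40 * ρ := nL5 ρ hρ1 hρ0
    have hμ : 0 ≤ 1 / 4 - e / 4 := by linarith
    have hmain : (1 / 4 - e / 4) * (k * Q.I2 * b + ρ / T * (1 / (1 / 4 - 2 * ρ))) <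
        ρ / T * b ^ 2 := by
      have hρT : 0 < ρ / T := by positivity
      have h5 : k * Q.I2 * b ≤ ρ / T * (θ / 100) := by
        calc k * Q.I2 * b ≤ (ρ * θ / (100 * T)) * 1 := by gcongr
          _ = ρ / T * (θ / 100) := by field_simp
      have h6 : k * Q.I2 * b + ρ / T * (1 / (1 / 4 - 2 * ρ)) ≤ ρ / T * (θ / 100 + (4 + 40 * ρ)) := by
        have := mul_le_mul_of_nonneg_left h4 hρT.le
        linarith
      have h7 := mul_le_mul_of_nonneg_left h6 hμ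
      have h12 : θ ≤ e / 256 := by
        rw [hθ]
        linarith only [he2]
      have h13 : ρ ≤ e / 16384 := by
        rw [hρ]
        linarith only [he2]
      have h8 : (1 / 4 - e / 4) * (θ / 100 + (4 + 40 * ρ)) < b ^ 2 :=
        nL6 e θ ρ b he0 he1 hθ0 hρ0 h12 h13 hbθ
      calc _ ≤ (1 / 4 - e / 4) * (ρ / T * (θ / 100 + (4 + 40 * ρ))) := h7
        _ = ρ / T * ((1 / 4 - e / 4) * (θ / 100 + (4 + 40 * ρ))) := by ring
        _ < _ := mul_lt_mul_of_pos_left h8 hρT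
    have hfin := mul_lt_mul_of_pos_left hmain (by positivity :
      0 < P ^ 2 * Q.I2 ^ 2 * (K * ρ * Q.I1 ^ 2) / k)
    have hT0 : (T : ℝ) ≠ 0 := by linarith
    have e3 : (1 / 4 - e / 4) * (P * Q.I2 ^ 2 * (K * (ρ * (Q.I1 ^ 2 * (b * (P * Q.I2)))) +
        (K : ℝ) ^ 2 * (ρ ^ 2 / (1 / 4 - 2 * ρ) * (Q.I1 ^ 4 * P)))) =
        P ^ 2 * Q.I2 ^ 2 * (K * ρ * Q.I1 ^ 2) / k *
          ((1 / 4 - e / 4) * (k * Q.I2 * b + ρ / T * (1 / (1 / 4 - 2 * ρ)))) := by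
      rw [hI1, hkcast]
      field_simp
    have e4 : (K * (ρ * (Q.I1 ^ 2 * (b * (P * Q.I2))))) ^ 2 =
        P ^ 2 * Q.I2 ^ 2 * (K * ρ * Q.I1 ^ 2) / k * (ρ / T * b ^ 2) := by
      rw [hI1, hkcast]
      field_simp
    rw [e3, e4]
    exact hfin
  · -- rough values
    rw [hAc, hbR, hgR]
    have hω : 0 ≤ 1 - e ^ 2 / 4 := by linarith only [he2, he1]
    have hmain : (1 - e ^ 2 / 4) * (k * Q.I2 * c + 4 * ρ / T * (1 / (1 - θ) ^ 4)) <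
        4 * ρ / T * c ^ 2 := by
      have hρT : 0 < 4 * ρ / T := by positivity
      have h5 : k * Q.I2 * c ≤ 4 * ρ / T * (θ / 400) := by
        calc k * Q.I2 * c ≤ (ρ * θ / (100 * T)) * 1 := by gcongr
          _ = 4 * ρ / T * (θ / 400) := by field_simp; ring
      have h6 : k * Q.I2 * c + 4 * ρ / T * (1 / (1 - θ) ^ 4) ≤
          4 * ρ / T * (θ / 400 + (1 + 5 * θ)) := by
        have := mul_le_mul_of_nonneg_left hg1 hρT.le
        linarith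
      have h7 := mul_le_mul_of_nonneg_left h6 hω
      have h8 : (1 - e ^ 2 / 4) * (θ / 400 + (1 + 5 * θ)) < c ^ 2 := nL7 e θ c hθ0 hθ1 hθ hc1
      calc _ ≤ (1 - e ^ 2 / 4) * (4 * ρ / T * (θ / 400 + (1 + 5 * θ))) := h7
        _ = 4 * ρ / T * ((1 - e ^ 2 / 4) * (θ / 400 + (1 + 5 * θ))) := by ring
        _ < _ := mul_lt_mul_of_pos_left h8 hρT
    have hfin := mul_lt_mul_of_pos_left hmain (by positivity :
      0 < P ^ 2 * Q.I2 ^ 2 * Q.I1 ^ 2 / k)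
    have hT0 : (T : ℝ) ≠ 0 := by linarith
    have e3 : (1 - e ^ 2 / 4) * (P * Q.I2 ^ 2 * ((1 - 0) * (Q.I1 ^ 2 * (P * Q.I2) * c) +
        K * (4 * ρ) * ((1 + 0) * (Q.I1 ^ 4 * P * (1 / (1 - θ) ^ 4))))) =
        P ^ 2 * Q.I2 ^ 2 * Q.I1 ^ 2 / k *
          ((1 - e ^ 2 / 4) * (k * Q.I2 * c + 4 * ρ / T * (1 / (1 - θ) ^ 4))) := by
      rw [hI1, hkcast]
      field_simp
      ring
    have e4 : K * (4 * ρ) * ((1 - 0) * (Q.I1 ^ 2 * (P * Q.I2) * c)) ^ 2 =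
        P ^ 2 * Q.I2 ^ 2 * Q.I1 ^ 2 / k * (4 * ρ / T * c ^ 2) := by
      rw [hI1, hkcast]
      field_simp
      ring
    rw [e3, e4]
    exact hfin

theorem num_R (e : ℝ) (he0 : 0 < e) (he1 : e ≤ 1 / 4) (T : ℕ) (hT1 : 1 ≤ T) (ρ θ : ℝ)
    (hρ : ρ = e ^ 2 / 4096) (hθ : θ = e ^ 2 / 64) :
    ∃ (K : ℕ) (Q : SPar) (ε : ℝ), 2 ≤ K ∧ 0 < ε ∧ ε < 1 / 3 ∧ ε < Q.I1 ∧ ε < Q.I2 ∧
      0 < Br Q (T * K) ε ∧ 0 < bR Q (T * K) θ ε ∧
      (1 / 4 - e / 4) * (Ac Q (T * K) ε *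
        (K * (ρ * βc Q (T * K) ε) + (K : ℝ) ^ 2 * γc Q (T * K) ρ ε)) <
          (K * (ρ * βc Q (T * K) ε)) ^ 2 ∧
      (1 - e ^ 2 / 4) * (Ac Q (T * K) ε *
        ((1 - ε) * bR Q (T * K) θ ε + K * (4 * ρ) * ((1 + ε) * gR Q (T * K) θ ε))) <
          K * (4 * ρ) * ((1 - ε) * bR Q (T * K) θ ε) ^ 2 := by
  obtain ⟨K, Q, hK, hI1, hI2, hB, hbr, hp, hr⟩ := base_R e he0 he1 T hT1 ρ θ hρ hθ
  have hθ1 : θ ≤ 1 / 4 := by
    rw [hθ]
    nlinarith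
  have h1θ : (1 - θ) ≠ 0 := by
    have : 0 < 1 - θ := by linarith
    exact this.ne'
  have hcB : Continuous fun ε : ℝ => Br Q (T * K) ε := by
    unfold Br
    fun_prop
  have hcβ : Continuous fun ε : ℝ => βc Q (T * K) ε := by
    unfold βc
    fun_prop
  have hcA : Continuous fun ε : ℝ => Ac Q (T * K) ε := by
    unfold Ac
    fun_prop
  have hcγ : ContinuousAt (fun ε : ℝ => γc Q (T * K) ρ ε) 0 := by
    unfold γc
    have h1 : ContinuousAt (fun ε : ℝ => (1 + ε) ^ 8 / (1 - ε) ^ 4) 0 := by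
      apply ContinuousAt.div (by fun_prop) (by fun_prop)
      norm_num
    have h2 : ContinuousAt (fun ε : ℝ =>
        (Q.I1 + ε) ^ 4 * ((1 / 3 + ε) * (Q.I2 + ε) ^ (T * K - 2))) 0 := by fun_prop
    exact (continuousAt_const.mul h1).mul h2
  have hcb : ContinuousAt (fun ε : ℝ => bR Q (T * K) θ ε) 0 := by
    unfold bR
    have h1 : ContinuousAt (fun ε : ℝ => (1 - 2 * θ) / (1 + ε)) 0 := by
      apply ContinuousAt.div (by fun_prop) (by fun_prop)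
      norm_num
    have h2 : ContinuousAt (fun ε : ℝ => (Q.I1 - ε) ^ 2 * Br Q (T * K) ε) 0 :=
      ContinuousAt.mul (by fun_prop) hcB.continuousAt
    have h3 : ContinuousAt (fun ε : ℝ => (θ ^ 2 + ε) * ((1 + ε) / (1 - θ) ^ 2 *
      ((Q.I1 + ε) ^ 2 * ((1 / 3 + ε) * (Q.I2 + ε) ^ (T * K - 1))))) 0 := by fun_prop
    exact (h1.mul h2).sub h3
  have hcg : Continuous (fun ε : ℝ => gR Q (T * K) θ ε) := by
    unfold gR
    fun_prop
  have c1 : ContinuousAt (fun ε : ℝ => (1 / 4 - e / 4) * (Ac Q (T * K) ε *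
        (K * (ρ * βc Q (T * K) ε) + (K : ℝ) ^ 2 * γc Q (T * K) ρ ε))) 0 := by
    apply continuousAt_const.mul
    apply hcA.continuousAt.mul
    apply ContinuousAt.add
    · exact continuousAt_const.mul (continuousAt_const.mul hcβ.continuousAt)
    · exact continuousAt_const.mul hcγ
  have c2 : ContinuousAt (fun ε : ℝ => (K * (ρ * βc Q (T * K) ε)) ^ 2) 0 :=
    (continuousAt_const.mul (continuousAt_const.mul hcβ.continuousAt)).pow 2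
  have c3 : ContinuousAt (fun ε : ℝ => (1 - e ^ 2 / 4) * (Ac Q (T * K) ε *
        ((1 - ε) * bR Q (T * K) θ ε + K * (4 * ρ) * ((1 + ε) * gR Q (T * K) θ ε)))) 0 := by
    apply continuousAt_const.mul
    apply hcA.continuousAt.mul
    apply ContinuousAt.add
    · exact ContinuousAt.mul (by fun_prop) hcb
    · apply continuousAt_const.mul
      exact ContinuousAt.mul (by fun_prop) hcg.continuousAt
  have c4 : ContinuousAt (fun ε : ℝ => K * (4 * ρ) * ((1 - ε) * bR Q (T * K) θ ε) ^ 2) 0 := by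
    apply continuousAt_const.mul
    exact (ContinuousAt.mul (by fun_prop) hcb).pow 2
  have ev1 : ∀ᶠ ε : ℝ in 𝓝 0, (1 / 4 - e / 4) * (Ac Q (T * K) ε *
        (K * (ρ * βc Q (T * K) ε) + (K : ℝ) ^ 2 * γc Q (T * K) ρ ε)) <
          (K * (ρ * βc Q (T * K) ε)) ^ 2 := c1.tendsto.eventually_lt c2.tendsto hp
  have ev2 : ∀ᶠ ε : ℝ in 𝓝 0, (1 - e ^ 2 / 4) * (Ac Q (T * K) ε *
        ((1 - ε) * bR Q (T * K) θ ε + K * (4 * ρ) * ((1 + ε) * gR Q (T * K) θ ε))) <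
          K * (4 * ρ) * ((1 - ε) * bR Q (T * K) θ ε) ^ 2 := c3.tendsto.eventually_lt c4.tendsto hr
  have ev3 : ∀ᶠ ε : ℝ in 𝓝 0, 0 < bR Q (T * K) θ ε := hcb.eventually_const_lt hbr
  have ev4 : ∀ᶠ ε : ℝ in 𝓝 0, 0 < Br Q (T * K) ε := hcB.continuousAt.eventually_const_lt hB
  have ev5 : ∀ᶠ ε : ℝ in 𝓝 0, ε < 1 / 3 := gt_mem_nhds (by norm_num)
  have ev6 : ∀ᶠ ε : ℝ in 𝓝 0, ε < Q.I1 := gt_mem_nhds hI1
  have ev7 : ∀ᶠ ε : ℝ in 𝓝 0, ε < Q.I2 := gt_mem_nhds hI2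
  have hall := ev1.and (ev2.and (ev3.and (ev4.and (ev5.and (ev6.and ev7)))))
  have h8 : ∀ᶠ ε : ℝ in 𝓝[>] 0, 0 < ε := self_mem_nhdsWithin
  obtain ⟨ε, ⟨h1, h2, h3, h4, h5, h6, h7⟩, h8⟩ := ((hall.filter_mono nhdsWithin_le_nhds).and h8).exists
  exact ⟨K, Q, ε, hK, h8, h5, h6, h7, h4, h3, h1, h2⟩

end Pool.Agent.Y876.AP
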