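import Mathlib
import Pool.Agent.Y876.AP.Conc

/-! The weights do not depend on the large sieving primes (helper876). -/

set_option autoImplicit false

namespace Pool.Agent.Y876.AP

open Finset Filter Topology
open Pool.Agent.H410R2 hiding GP GP_prof GP_cut_some GP_cut_none GP_lip gg_pos gg_le_one gg_anti ee_bound ee_nonneg gg_lip LB_gg LB_ee Sums exists_sums yx wx wxi Br sum_GP_none sum_GP_some sum_GP_some_ee sum_GP_some_one sum_GPr_none sum_GPr_some S1_final QI_final S2_final w_abs_le wmax gg ee I1 I2 IE
open Pool.Agent.H361R2.GM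
open Pool.Agent.H362R2.CM (IP prP yP wP)

variable {k : ℕ}

/-- extension of a colouring -/
def ext' {J : Type} (P P' : Finset ℕ) (σ : IP P' → Option J) (t : IP P) : Option J :=
  if h : t.1 ∈ P' then σ ⟨t.1, h⟩ else none

/-- inclusion -/
def inc {P P' : Finset ℕ} (h : P' ⊆ P) (t : IP P') : IP P := ⟨t.1, h t.2⟩

theorem inc_inj {P P' : Finset ℕ} (h : P' ⊆ P) : Function.Injective (inc h) := by
  intro s t hst
  unfold inc at hst
  exact Subtype.ext (Subtype.mk.inj hst)

theorem ext'_inc {J : Type} {P P' : Finset ℕ} (h : P' ⊆ P) (σ : IP P' → Option J) (t : IP P') :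
    ext' P P' σ (inc h t) = σ t := by
  unfold ext' inc
  rw [dif_pos t.2]

theorem ext'_out {J : Type} {P P' : Finset ℕ} (h : P' ⊆ P) (σ : IP P' → Option J) (t : IP P)
    (ht : t ∉ Set.range (inc h)) : ext' P P' σ t = none := by
  unfold ext'
  rw [dif_neg]
  intro h'
  exact ht ⟨⟨t.1, h'⟩, rfl⟩

theorem ext'_inj {J : Type} {P P' : Finset ℕ} (h : P' ⊆ P) :
    Function.Injective (ext' P P' : (IP P' → Option J) → (IP P → Option J)) := by
  intro σ τ hst
  funext t
  rw [← ext'_inc h σ t, ← ext'_inc h τ t, hst]

theorem lg_ext' {P P' : Finset ℕ} (h : P' ⊆ P) (σ : IP P' → Option (Option (Fin k)))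
    (j : Option (Fin k)) : lg (prP P) (fib (ext' P P' σ) j) = lg (prP P') (fib σ j) := by
  unfold lg fib
  rw [Finset.sum_filter, Finset.sum_filter]
  symm
  apply Fintype.sum_of_injective (inc h) (inc_inj h)
  · intro t ht
    rw [ext'_out h σ t ht]
    simp
  · intro t
    rw [ext'_inc h]
    rfl

theorem wP_restrict (Q : SPar) (a b : Fin k → ℕ) (P P' : Finset ℕ) (hP : ∀ p ∈ P, 2 ≤ p)
    (h : P' ⊆ P) (L : ℝ) (hL : 0 < L) (hbig : ∀ p ∈ P, p ∉ P' → L / 48 + L < Real.log p) (n : ℕ) :
    wP Q a b P L n = wP Q a b P' L n := by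
  unfold wP
  symm
  apply Fintype.sum_of_injective (ext' P P') (ext'_inj h)
  · intro σ hσ
    have hex : ∃ t : IP P, t.1 ∉ P' ∧ σ t ≠ none := by
      by_contra hcon
      push Not at hcon
      apply hσ
      refine ⟨fun t => σ (inc h t), ?_⟩
      funext t
      unfold ext'
      split_ifs with ht
      · rfl
      · exact (hcon t ht).symm
    obtain ⟨t, ht1, ht2⟩ := hex
    have hy : yP Q k P L σ = 0 := by
      by_contra hne
      have h1 := (yP_hyp Q P L hL).supp σ hne
      have h2 := hbig t.1 t.2 ht1
      have h3 : Real.log (prP P t) ≤ lgt (prP P) σ := by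
        unfold lgt
        have h4 := Finset.single_le_sum (f := fun s : IP P => if σ s = none then 0 else
          Real.log (prP P s)) (fun s _ => by
            split_ifs
            · exact le_rfl
            · exact Real.log_natCast_nonneg _) (Finset.mem_univ t)
        simp only [if_neg ht2] at h4
        exact h4
      have h5 : Real.log (prP P t) = Real.log (t.1 : ℝ) := rfl
      linarith
    unfold cw
    rw [hy]
    simp
  · intro σ
    have e1 : cw (prP P') (yP Q k P' L) σ = cw (prP P) (yP Q k P L) (ext' P P' σ) := by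
      unfold cw yP yw
      simp only [lg_ext' h]
      congr 1
      apply Fintype.prod_of_injective (inc h) (inc_inj h)
      · intro t ht
        rw [ext'_out h σ t ht]
        rfl
      · intro t
        rw [ext'_inc h]
        rfl
    have e2 : hN (LF a b) (prP P') σ n = hN (LF a b) (prP P) (ext' P P' σ) n := by
      unfold hN
      apply Fintype.prod_of_injective (inc h) (inc_inj h)
      · intro t ht
        rw [ext'_out h σ t ht]
        rfl
      · intro t
        rw [ext'_inc h]
        rfl
    rw [e1, e2]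

end Pool.Agent.Y876.AP
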