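import Mathlib
import Pool.Agent.Y876.AP.Comb
import Pool.Agent.Y876.AP.Res
import Pool.Agent.Y876.AP.NumR
import Pool.Agent.H362R2.CM.Core

/-! The coloured theorem with primes and almost primes: assembly (helper876). -/

set_option autoImplicit false

namespace Pool.Agent.Y876.AP

open Finset Filter Topology
open Pool.Agent.H410R2 hiding GP GP_prof GP_cut_some GP_cut_none GP_lip gg_pos gg_le_one gg_anti ee_bound ee_nonneg gg_lip LB_gg LB_ee Sums exists_sums yx wx wxi Br sum_GP_none sum_GP_some sum_GP_some_ee sum_GP_some_one sum_GPr_none sum_GPr_some S1_final QI_final S2_final w_abs_le wmax gg ee I1 I2 IE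
open Pool.Agent.H361R2.GM
open Pool.Agent.H362R2.CM (IP prP yP wP Lr Lj Pr Q1 Ac βc γc cs_class κ1_of κ3_of ovl_of sums_all
  single_bound pair_bound ptw E1_le Q1_large S1_P Sums2)

open Classical in
/-- the mass of a class for which the first and second moments are known -/
theorem prime_mass {κ : Type*} (N : Finset ℕ) (u : ℕ → ℝ) (hu : ∀ n ∈ N, 0 ≤ u n)
    (C : Finset κ) (K : ℕ) (hK : C.card = K) (hK0 : 0 < K) (pr : κ → ℕ → Prop)
    (Z α γ A c : ℝ) (hZ : 0 < Z) (hα : 0 < α)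
    (hγ : 0 < γ) (hS : ∀ i ∈ C, Z * α ≤ ∑ n ∈ N, if pr i n then u n else 0)
    (hP : ∀ i ∈ C, ∀ j ∈ C, i ≠ j → (∑ n ∈ N, if pr i n ∧ pr j n then u n else 0) ≤ Z * γ)
    (hnum : c * (A * (K * α + (K : ℝ) ^ 2 * γ)) < (K * α) ^ 2) :
    c * (Z * A) ≤ ∑ n ∈ N, if ∃ i ∈ C, pr i n then u n else 0 := by
  have h1 := cs_class N u hu C pr (Z * α) (Z * γ) (by positivity) (by positivity) hS hP
    (by rw [hK]; exact hK0)
  rw [hK] at h1
  set S := ∑ n ∈ N, if ∃ i ∈ C, pr i n then u n else 0 with hSd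
  have hKp : (0 : ℝ) < K := by exact_mod_cast hK0
  have hX : 0 < K * α + (K : ℝ) ^ 2 * γ := by positivity
  have h2 : Z * (Z * (K * α) ^ 2) ≤ Z * (S * (K * α + (K : ℝ) ^ 2 * γ)) := by
    calc Z * (Z * (K * α) ^ 2) = (K * (Z * α)) ^ 2 := by ring
      _ ≤ S * (K * (Z * α) + (K : ℝ) ^ 2 * (Z * γ)) := h1
      _ = _ := by ring
  have h3 := le_of_mul_le_mul_left h2 hZ
  have h4 := mul_lt_mul_of_pos_left hnum hZ
  have h5 : (c * (Z * A)) * (K * α + (K : ℝ) ^ 2 * γ) ≤ S * (K * α + (K : ℝ) ^ 2 * γ) := by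
    calc (c * (Z * A)) * (K * α + (K : ℝ) ^ 2 * γ) =
        Z * (c * (A * (K * α + (K : ℝ) ^ 2 * γ))) := by ring
      _ ≤ Z * (K * α) ^ 2 := h4.le
      _ ≤ _ := h3
  exact le_of_mul_le_mul_right h5 hX

open Classical in
/-- the mass of a class, with the parameter `τ` -/
theorem rough_mass {κ : Type*} (N : Finset ℕ) (u : ℕ → ℝ) (hu : ∀ n ∈ N, 0 ≤ u n)
    (C : Finset κ) (K : ℕ) (hK : C.card = K) (hK0 : 0 < K) (pr : κ → ℕ → Prop)
    (Z τ s b' g' A c : ℝ) (hZ : 0 < Z) (hs : 0 < s) (hτ : s ≤ τ) (hb : 0 < b')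
    (hg : 0 < g') (hA : 0 ≤ A) (hc : 0 ≤ c)
    (hS : ∀ i ∈ C, Z * (τ * b') ≤ ∑ n ∈ N, if pr i n then u n else 0)
    (hP : ∀ i ∈ C, ∀ j ∈ C, i ≠ j → (∑ n ∈ N, if pr i n ∧ pr j n then u n else 0) ≤
      Z * (τ ^ 2 * g'))
    (hnum : c * (A * (b' + K * s * g')) < K * s * b' ^ 2) :
    c * (Z * A) ≤ ∑ n ∈ N, if ∃ i ∈ C, pr i n then u n else 0 := by
  have hτ0 : 0 < τ := lt_of_lt_of_le hs hτ
  have hKp : (0 : ℝ) < K := by exact_mod_cast hK0
  apply prime_mass N u hu C K hK hK0 pr Z (τ * b') (τ ^ 2 * g') A c hZ (by positivity)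
    (by positivity) hS hP
  have h1 : c * A * g' - b' ^ 2 < 0 := by
    by_contra hcon
    push Not at hcon
    have h2 : 0 ≤ K * s * (c * A * g' - b' ^ 2) := by positivity
    have h3 : 0 ≤ c * A * b' := by positivity
    nlinarith
  have h2 : c * A * b' + K * τ * (c * A * g' - b' ^ 2) < 0 := by
    have h3 : K * τ * (c * A * g' - b' ^ 2) ≤ K * s * (c * A * g' - b' ^ 2) := by
      apply mul_le_mul_of_nonpos_right _ h1.le
      exact mul_le_mul_of_nonneg_left hτ hKp.le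
    nlinarith
  have h3 : 0 < K * τ := by positivity
  nlinarith [mul_neg_of_pos_of_neg h3 h2]

end Pool.Agent.Y876.AP
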