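import Mathlib
import Pool.Agent.Y876.AP.CoreR

/-! The coloured theorem with primes and almost primes, forms with positive coefficients (helper876). -/

set_option autoImplicit false

namespace Pool.Agent.Y876.AP

open Finset Filter Topology
open Pool.Agent.H410R2 hiding GP GP_prof GP_cut_some GP_cut_none GP_lip gg_pos gg_le_one gg_anti ee_bound ee_nonneg gg_lip LB_gg LB_ee Sums exists_sums yx wx wxi Br sum_GP_none sum_GP_some sum_GP_some_ee sum_GP_some_one sum_GPr_none sum_GPr_some S1_final QI_final S2_final w_abs_le wmax gg ee I1 I2 IE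
open Pool.Agent.H361R2.GM
open Pool.Agent.H362R2.CM (IP prP yP wP Lr Lj Pr Q1 Ac βc γc cs_class κ1_of κ3_of ovl_of sums_all
  single_bound pair_bound ptw E1_le Q1_large S1_P Sums2)

theorem coprime_of_modEq {a b n v W : ℕ} (h : n ≡ v [MOD W]) (hc : (a * v + b).Coprime W) :
    (a * n + b).Coprime W := by
  have h1 : a * n + b ≡ a * v + b [MOD W] := (h.mul_left a).add_right b
  have h2 := h1.gcd_eq
  unfold Nat.Coprime at hc ⊢
  rw [h2, hc]

theorem ite_inst {p q : Prop} {i : Decidable p} {j : Decidable q} (h : p ↔ q) (x : ℝ) :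
    @ite ℝ p i x 0 = @ite ℝ q j x 0 := by
  by_cases hp : p
  · rw [if_pos hp, if_pos (h.1 hp)]
  · rw [if_neg hp, if_neg (fun hq => hp (h.2 hq))]

theorem sum_filter_and (S : Finset ℕ) (A B : ℕ → Prop) {iA : DecidablePred A}
    {iAB : DecidablePred (fun n => A n ∧ B n)} {iB : ∀ n, Decidable (B n)} (f g : ℕ → ℝ)
    (hfg : ∀ n, f n = g n) :
    ∑ n ∈ S.filter (fun n => A n ∧ B n), f n = ∑ n ∈ S.filter A, if B n then g n else 0 := by
  rw [Finset.sum_filter, Finset.sum_filter]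
  refine Finset.sum_congr rfl fun n _ => ?_
  by_cases hA : A n <;> by_cases hB : B n <;> simp [hA, hB, hfg]

/-- the class `g` contains a prime value -/
def PC {k T : ℕ} (a b : Fin k → ℕ) (cl : Fin k → Fin T) (g : Fin T) (n : ℕ) : Prop :=
  ∃ i ∈ univ.filter (fun i => cl i = g), (a i * n + b i).Prime

/-- the class `g` contains a value without prime factors in `P` -/
def RC {k T : ℕ} (a b : Fin k → ℕ) (cl : Fin k → Fin T) (P : Finset ℕ) (g : Fin T) (n : ℕ) : Prop :=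
  ∃ i ∈ univ.filter (fun i => cl i = g), ∀ t : IP P, ¬ prP P t ∣ a i * n + b i

open Classical in
theorem coreS_of (hT1 : S1Upper) (hT2 : S2Approx) (hT3 : S2Model) (hBV : BVAP) (hPNT : PNTLog)
    (hPB : ProdBound) (hOB : OmegaBound) (hOD : OneDim) (hTail : TailBound) (hAri : AriSetup)
    (e : ℝ) (he0 : 0 < e) (he1 : e ≤ 1 / 4) (T : ℕ) (hT : 1 ≤ T) :
    ∃ K : ℕ, 2 ≤ K ∧ ∀ (a b : Fin (T * K) → ℕ) (cl : Fin (T * K) → Fin T),
      (∀ g, (univ.filter (fun i => cl i = g)).card = K) → (∀ i, 1 ≤ a i) → (∀ i, 1 ≤ b i) →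
      (∀ i j, i ≠ j → a i * b j ≠ a j * b i) →
      (∀ p : ℕ, p.Prime → ∃ n : ℕ, ¬ p ∣ n ∧ ∀ i, ¬ p ∣ a i * n + b i) →
      ∀ η : ℝ, 0 < η → ∀ᶠ x : ℝ in atTop, x ^ (1 - η) ≤
        (((Icc 1 ⌊x⌋₊).filter (fun n =>
          (1 / 4 - e) * T ≤
            ((univ.filter (fun g : Fin T => ∃ i, cl i = g ∧ (a i * n + b i).Prime)).card : ℝ) ∧
          (1 - e) * T ≤
            ((univ.filter (fun g : Fin T => ∃ i, cl i = g ∧
              ((a i * n + b i).primeFactorsList.length : ℝ) ≤ 2049 / e ^ 2)).card : ℝ))).card : ℝ) := by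
  obtain ⟨ρ, hρd⟩ : ∃ ρ : ℝ, ρ = e ^ 2 / 4096 := ⟨_, rfl⟩
  obtain ⟨θ, hθd⟩ : ∃ θ : ℝ, θ = e ^ 2 / 64 := ⟨_, rfl⟩
  obtain ⟨δ, hδd⟩ : ∃ δ : ℝ, δ = e ^ 2 / 2048 := ⟨_, rfl⟩
  have he2 : e ^ 2 ≤ 1 / 16 := by nlinarith
  have he20 : 0 < e ^ 2 := by positivity
  have hρ : 0 < ρ := by rw [hρd]; positivity
  have hθ0 : 0 < θ := by rw [hθd]; positivity
  have hδ : 0 < δ := by rw [hδd]; positivity
  have hρ1 : ρ ≤ 1 / 16 := by rw [hρd]; linarith
  have hδ1 : δ ≤ 1 / 64 := by rw [hδd]; linarith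
  have hθ1 : θ ≤ 1 / 4 := by rw [hθd]; linarith
  have hρδ : ρ ≤ δ := by rw [hρd, hδd]; linarith
  have hρδ2 : 49 / 48 * ρ ≤ δ := by rw [hρd, hδd]; linarith
  have hθδ : 32 * δ = θ := by rw [hθd, hδd]; ring
  obtain ⟨K, Q, ε, hK, hε, hε1, hI1, hI2, hBr, hbR, hnumP, hnumR⟩ :=
    num_R e he0 he1 T hT ρ θ hρd hθd
  refine ⟨K, hK, ?_⟩
  obtain ⟨k, hk⟩ : ∃ k : ℕ, k = T * K := ⟨_, rfl⟩
  rw [← hk] at hBr hbR hnumP hnumR ⊢
  intro a b cl hcl ha hb hnp hadm η hη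
  have hI2p : 0 < Q.I2 := hε.trans hI2
  have hI1p : 0 < Q.I1 := hε.trans hI1
  have h1ε : 0 < 1 - ε := by linarith
  have hI1ε : 0 < Q.I1 - ε := by linarith
  have h14 : 0 < 1 / 4 - 2 * ρ := by linarith
  have hKp : (0 : ℝ) < K := by exact_mod_cast (by omega : 0 < K)
  have hAc : 0 < Ac Q k ε := by unfold Ac; positivity
  have hβc : 0 < βc Q k ε := by unfold βc; positivity
  have hγc : 0 < γc Q k ρ ε := by unfold γc; positivity
  have h1θ : 0 < 1 - θ := by linarith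
  have hgR : 0 < gR Q k θ ε := by unfold gR; positivity
  -- choice of `D`
  obtain ⟨D2, hctx⟩ := Pool.Agent.H361R2.GM.exists_ctx hAri a b ha hb hnp hadm
  obtain ⟨D3, hκ⟩ := κ1_of hTail k ε hε
  obtain ⟨D4, hov⟩ := ovl_of hTail k ε hε
  obtain ⟨D5, hκ3⟩ := κ3_of hTail k ε hε
  obtain ⟨D6, hsum⟩ := sums_all Q hOD (k + 1) ε hε ρ hρ hρ1
  obtain ⟨D7, heta⟩ := eta_of hTail k δ hδ ε hε
  obtain ⟨D8, hkap⟩ := kap_of hTail (k + 1) ε hε
  obtain ⟨D9, hov'⟩ := ovl_of' hTail k ε hε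
  obtain ⟨D10, hH6⟩ := H6_of hTail ε hε
  obtain ⟨D11, hsumR⟩ := sumsR_all Q hOD k ε hε ρ hρ δ hρδ
  obtain ⟨D12, hGt⟩ := Gt_le hOD δ hδ hδ1
  obtain ⟨D, hD⟩ : ∃ D : ℕ, D = D2 + D3 + D4 + D5 + D6 + D7 + D8 + D9 + D10 + D11 + D12 := ⟨_, rfl⟩
  obtain ⟨v, hc⟩ := hctx D (by omega)
  have hκ := hκ D (by omega)
  have hov := hov D (by omega)
  have hκ3 := hκ3 D (by omega)
  have hsum := hsum D (by omega)
  have heta := heta D (by omega)
  have hkap := hkap D (by omega)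
  have hov' := hov' D (by omega)
  have hH6 := hH6 D (by omega)
  have hsumR := hsumR D (by omega)
  have hGt := hGt D (by omega)
  have hsingle := single_bound Q hT2 hT3 hBV hPNT hPB hOB hc ρ hρ hρ1 ε hε hε1 hI1 hI2 hBr hκ hov
    (hsum.mono fun x hx => hx.1)
  have hpair := pair_bound Q hT2 hBV hPNT hPB hOB hc ρ hρ hρ1 ε hε hε1 hI1p hI2p hκ3
    (hsum.mono fun x hx => hx.2)
  have hptw := ptw Q hPB hOB hc ρ hρ hρ1 (η / 2) (by positivity)
  obtain ⟨A0, hA0⟩ : ∃ A0 : ℝ, A0 = (1 / 3 + ε) * (Q.I2 + ε) ^ k := ⟨_, rfl⟩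
  have hA0p : 0 < A0 := by rw [hA0]; positivity
  obtain ⟨cB, hcB⟩ : ∃ cB : ℝ, cB = ε * (4 * ρ * bR Q k θ ε) := ⟨_, rfl⟩
  obtain ⟨cC, hcC⟩ : ∃ cC : ℝ, cC = ε * ((4 * ρ) ^ 2 * gR Q k θ ε) := ⟨_, rfl⟩
  obtain ⟨cF, hcF⟩ : ∃ cF : ℝ, cF = e / 2 * Ac Q k ε := ⟨_, rfl⟩
  have hcBp : 0 < cB := by rw [hcB]; positivity
  have hcCp : 0 < cC := by rw [hcC]; positivity
  have hcFp : 0 < cF := by rw [hcF]; positivity
  -- bound for the forms
  obtain ⟨Mx, hMx⟩ : ∃ Mx : ℝ, Mx = ∑ i : Fin k, ((a i : ℝ) + b i) := ⟨_, rfl⟩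
  have hMxi : ∀ i, (a i : ℝ) + b i ≤ Mx := by
    intro i
    rw [hMx]
    exact Finset.single_le_sum (f := fun i : Fin k => ((a i : ℝ) + b i))
      (fun j _ => by positivity) (Finset.mem_univ i)
  filter_upwards [hsingle, hpair, hptw, hsum, E1_le hPB ρ hρ hρ1 k D,
    Q1_large ρ hρ k D hc.hW hc.BDpos (1 / (ε * A0)), theta_of δ hδ D, heta, hsumR, hGt,
    errB_le hPB k D hc.hD δ hδ hδ1 ρ hρδ,
    errC_le hPB k D δ hδ1 ρ hρ hρδ (BD D * (Q.I1 + ε))
      (mul_nonneg hc.BDpos.le (by positivity)) θ hθ1,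
    Q1_large ρ hρ k D hc.hW hc.BDpos (1 / cB), Q1_large ρ hρ k D hc.hW hc.BDpos (1 / cC),
    Q1_large ρ hρ k D hc.hW hc.BDpos (1 / cF), ev_polylog 1 1 (η / 2) η (by linarith),
    ev_polylog Mx 0 1 (1 + δ) (by linarith), eventually_gt_atTop (1 : ℝ)]
    with x hsingle hpair hptw hsum hE1 hQa hth heta hsumR hGt hEB hEC hQb hQc hQf hpl hMxx hx
  have hx0 : 0 < x := by linarith
  have hlx : 0 < Real.log x := Real.log_pos hx
  obtain ⟨L, hLd⟩ : ∃ L : ℝ, L = Lr ρ x := ⟨_, rfl⟩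
  rw [← hLd] at hsingle hpair hptw hsum hE1 hQa hsumR hEB hEC hQb hQc hQf
  have hL : 0 < L := by rw [hLd]; unfold Lr; positivity
  have hΛ : 0 < Λ₀ x := by unfold Λ₀; positivity
  obtain ⟨P, hPd⟩ : ∃ P : Finset ℕ, P = Pr D x := ⟨_, rfl⟩
  rw [← hPd] at hsingle hpair hptw hsum hE1
  have hP : ∀ p ∈ P, p.Prime ∧ D < p := by
    rw [hPd]
    exact Pool.Agent.H362R2.CM.Pr_prime D x
  obtain ⟨P', hP'd⟩ : ∃ P' : Finset ℕ, P' = Pz D δ x := ⟨_, rfl⟩
  rw [← hP'd] at hth heta hsumR hGt hEB hEC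
  have hP' : ∀ p ∈ P', p.Prime ∧ D < p := by
    rw [hP'd]
    exact Pz_prime D δ x
  have hsub : P' ⊆ P := by
    rw [hPd, hP'd]
    exact Pz_sub_Pr D δ x (by linarith) hx.le
  have hp2' : ∀ t : IP P', 2 ≤ prP P' t := fun t => (hP' t.1 t.2).1.two_le
  have hwres : ∀ n, wP Q a b P L n = wP Q a b P' L n := by
    intro n
    apply wP_restrict Q a b P P' (fun p hp => (hP p hp).1.two_le) hsub L hL
    intro p hp hpP'
    by_contra hcon
    push Not at hcon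
    apply hpP'
    rw [hP'd, mem_Pz]
    obtain ⟨h1, h2⟩ := hP p hp
    refine ⟨h1, h2, ?_⟩
    have h3 : Real.log p ≤ δ * Real.log x := by
      refine hcon.trans ?_
      rw [hLd]
      unfold Lr
      have := mul_le_mul_of_nonneg_right hρδ2 hlx.le
      linarith
    rw [← Real.exp_log (by exact_mod_cast h1.pos : (0 : ℝ) < p)]
    exact Real.exp_le_exp.2 h3
  obtain ⟨Z, hZ⟩ : ∃ Z : ℝ, Z = Q1 k D x L := ⟨_, rfl⟩
  rw [← hZ] at hsingle hpair hQa hQb hQc hQf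
  have hdiv : ∀ c : ℝ, 0 < c → 1 / c * x ≤ Z → x ≤ Z * c := by
    intro c hc h
    have := mul_le_mul_of_nonneg_right h hc.le
    calc x = 1 / c * x * c := by field_simp
      _ ≤ _ := this
  have hZA0 : x ≤ Z * (ε * A0) := hdiv _ (by positivity) hQa
  have hZB : x ≤ Z * cB := hdiv _ hcBp hQb
  have hZC : x ≤ Z * cC := hdiv _ hcCp hQc
  have hZF : x ≤ Z * cF := hdiv _ hcFp hQf
  have hZ0 : 0 < Z := by
    by_contra h
    have h5 : Z * cB ≤ 0 := mul_nonpos_of_nonpos_of_nonneg (not_lt.1 h) hcBp.le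
    linarith
  obtain ⟨N, hN⟩ : ∃ N : Finset ℕ, N = (Icc 1 ⌊x⌋₊).filter (fun n => n ≡ v [MOD (WW D)]) := ⟨_, rfl⟩
  obtain ⟨u, hu⟩ : ∃ u : ℕ → ℝ, u = fun n : ℕ => Real.log (x / n) * (wP Q a b P L n) ^ 2 := ⟨_, rfl⟩
  have hun : ∀ n, u n = Real.log (x / n) * (wP Q a b P L n) ^ 2 := fun n => by rw [hu]
  have hNm : ∀ n ∈ Icc 1 ⌊x⌋₊, 1 ≤ n ∧ (n : ℝ) ≤ x := by
    intro n hn
    rw [Finset.mem_Icc] at hn
    exact ⟨hn.1, (Nat.cast_le.2 hn.2).trans (Nat.floor_le hx0.le)⟩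
  have hNI : ∀ n ∈ N, n ∈ Icc 1 ⌊x⌋₊ := by
    intro n hn
    rw [hN] at hn
    exact (Finset.mem_filter.1 hn).1
  have hNv : ∀ n ∈ N, n ≡ v [MOD (WW D)] := by
    intro n hn
    rw [hN] at hn
    exact (Finset.mem_filter.1 hn).2
  have hu0 : ∀ n ∈ N, 0 ≤ u n := by
    intro n hn
    obtain ⟨h1, h2⟩ := hNm n (hNI n hn)
    have hn0 : (0 : ℝ) < n := by exact_mod_cast h1
    rw [hun]
    apply mul_nonneg _ (sq_nonneg _)
    apply Real.log_nonneg
    rw [le_div_iff₀ hn0]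
    linarith
  have hx34 : x ^ (3 / 4 : ℝ) ≤ x := by
    calc x ^ (3 / 4 : ℝ) ≤ x ^ (1 : ℝ) := Real.rpow_le_rpow_of_exponent_le hx.le (by norm_num)
      _ = x := Real.rpow_one x
  have hx12 : x ^ (1 / 2 : ℝ) ≤ x := by
    calc x ^ (1 / 2 : ℝ) ≤ x ^ (1 : ℝ) := Real.rpow_le_rpow_of_exponent_le hx.le (by norm_num)
      _ = x := Real.rpow_one x
  -- total mass
  have hS1 : ∑ n ∈ N, u n ≤ Z * Ac Q k ε := by
    have h1 := S1_P Q hT1 hc ε hε hI2p x hx L hL P hP hsum.1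
    rw [← hN, ← hZ, ← hA0] at h1
    have h2 : ∑ n ∈ N, u n = ∑ n ∈ N, Real.log (x / n) * (wP Q a b P L n) ^ 2 :=
      Finset.sum_congr rfl fun n _ => hun n
    rw [h2]
    calc _ ≤ Z * A0 + (Real.log x + 1) * (Real.exp (L / 48 + L) *
          ∏ t : IP P, (1 + 3 * ((k + 1 : ℕ) : ℝ) / (prP P t : ℝ))) ^ 2 := h1
      _ ≤ Z * A0 + Z * (ε * A0) := by linarith
      _ = Z * Ac Q k ε := by unfold Ac; rw [hA0]; ring
  -- primes
  have hprime : ∀ g : Fin T, (1 / 4 - e / 4) * (Z * Ac Q k ε) ≤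
      ∑ n ∈ N, if PC a b cl g n then u n else 0 := by
    intro g
    have h1 := prime_mass N u hu0 (univ.filter (fun i => cl i = g)) K (hcl g) (by omega)
      (fun i n => (a i * n + b i).Prime) Z (ρ * βc Q k ε) (γc Q k ρ ε) (Ac Q k ε) (1 / 4 - e / 4)
      hZ0 (by positivity) hγc (by
        intro i _
        refine (hsingle i).trans (le_of_eq ?_)
        rw [hN]
        exact sum_filter_and _ _ _ _ _ (fun n => (hun n).symm)) (by
        intro i _ j _ hij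
        refine le_trans (le_of_eq ?_) (hpair i j hij)
        rw [hN]
        exact (sum_filter_and _ _ _ _ _ (fun n => (hun n).symm)).symm) hnumP
    exact h1.trans (le_of_eq (Finset.sum_congr rfl fun n _ => ite_inst Iff.rfl _))
  -- rough values
  obtain ⟨τ, hτd⟩ : ∃ τ : ℝ, τ = BD D * L / Gt (prP P') := ⟨_, rfl⟩
  have hGp := Gt_pos hp2'
  have hBD := hc.BDpos
  have hτ4 : 4 * ρ ≤ τ := by
    rw [hτd, le_div_iff₀ hGp]
    calc 4 * ρ * Gt (prP P') ≤ 4 * ρ * (4 * (BD D * Λ₀ x)) := by gcongr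
      _ = BD D * L := by
          rw [hLd]
          unfold Λ₀ Lr
          ring
  have hτ0 : 0 < τ := lt_of_lt_of_le (by positivity) hτ4
  have hθΛ : ∑ t : IP P', Real.log (prP P' t) / prP P' t ≤ θ * Λ₀ x := by
    rw [← hθδ]
    exact hth
  have hηΛ : ∑ t : IP P', (1 / (prP P' t : ℝ)) * (Real.log (prP P' t) / Λ₀ x +
      2 * ((k + 1 : ℕ) : ℝ) / ((prP P' t : ℝ) - 1)) ^ 2 ≤ θ ^ 2 + ε := by
    rw [← hθδ]
    exact heta
  have hlowr : ∀ i : Fin k, Z * (τ * ((1 - ε) * bR Q k θ ε)) ≤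
      ∑ n ∈ N, if ∀ t : IP P', ¬ prP P' t ∣ a i * n + b i then u n else 0 := by
    intro i
    have h1 := rough_low Q hT1 hc ε hε hε1 hI1 hI2 hBr L hL P' hP' (hkap P' hP') (hov' P' hP')
      hsumR.1 hsumR.2 (Λ₀ x) hΛ θ hθ0.le hθ1 hθΛ (θ ^ 2 + ε) hηΛ x hx.le i
    rw [← hZ, ← hτd] at h1
    have h2 : Z * τ * bR Q k θ ε - x ^ (3 / 4 : ℝ) ≤
        ∑ n ∈ (Icc 1 ⌊x⌋₊).filter (fun n => n ≡ v [MOD (WW D)] ∧
          ∀ t : IP P', ¬ prP P' t ∣ a i * n + b i),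
          Real.log (x / n) * (wP Q a b P' L n) ^ 2 := by
      refine le_trans ?_ h1
      unfold bR
      linarith
    have h3 : x ≤ Z * (τ * (ε * bR Q k θ ε)) := by
      refine hZB.trans ?_
      rw [hcB]
      apply mul_le_mul_of_nonneg_left _ hZ0.le
      calc ε * (4 * ρ * bR Q k θ ε) = 4 * ρ * (ε * bR Q k θ ε) := by ring
        _ ≤ τ * (ε * bR Q k θ ε) := mul_le_mul_of_nonneg_right hτ4 (by positivity)
    have h4 : ∑ n ∈ (Icc 1 ⌊x⌋₊).filter (fun n => n ≡ v [MOD (WW D)] ∧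
          ∀ t : IP P', ¬ prP P' t ∣ a i * n + b i),
          Real.log (x / n) * (wP Q a b P' L n) ^ 2 =
        ∑ n ∈ N, if ∀ t : IP P', ¬ prP P' t ∣ a i * n + b i then u n else 0 := by
      rw [hN]
      exact sum_filter_and _ _ _ _ _ (fun n => by rw [hun, hwres])
    rw [h4] at h2
    calc Z * (τ * ((1 - ε) * bR Q k θ ε)) = Z * τ * bR Q k θ ε - Z * (τ * (ε * bR Q k θ ε)) := by
          ring
      _ ≤ Z * τ * bR Q k θ ε - x ^ (3 / 4 : ℝ) := by linarith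
      _ ≤ _ := h2
  have hZZ := Z_of (prP P') hp2' (Λ₀ x) hΛ θ hθΛ
  have hpairr : ∀ i j : Fin k, i ≠ j → (∑ n ∈ N, if (∀ t : IP P', ¬ prP P' t ∣ a i * n + b i) ∧
      (∀ t : IP P', ¬ prP P' t ∣ a j * n + b j) then u n else 0) ≤
      Z * (τ ^ 2 * ((1 + ε) * gR Q k θ ε)) := by
    intro i j hij
    have h1 := rough_pair Q hT1 hc ε hε hI1p hI2p L hL P' hP' hsumR.2 (Λ₀ x) hΛ θ hθ1 hZZ
      (hH6 P' hP' (Λ₀ x)) x hx.le i j hij
    rw [← hZ, ← hτd] at h1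
    have hE : ErrC k P' L (Λ₀ x) x (((BD D * L * (Q.I1 + ε)) / ((1 - θ) * Gt (prP P'))) ^ 2) ≤
        x ^ (3 / 4 : ℝ) := by
      have e1 : BD D * L * (Q.I1 + ε) = BD D * (Q.I1 + ε) * L := by ring
      rw [e1]
      exact hEC
    have h3 : x ≤ Z * (τ ^ 2 * (ε * gR Q k θ ε)) := by
      refine hZC.trans ?_
      rw [hcC]
      apply mul_le_mul_of_nonneg_left _ hZ0.le
      calc ε * ((4 * ρ) ^ 2 * gR Q k θ ε) = (4 * ρ) ^ 2 * (ε * gR Q k θ ε) := by ring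
        _ ≤ τ ^ 2 * (ε * gR Q k θ ε) := by
            apply mul_le_mul_of_nonneg_right _ (by positivity)
            exact pow_le_pow_left₀ (by positivity) hτ4 2
    have h4 : ∑ n ∈ (Icc 1 ⌊x⌋₊).filter (fun n => n ≡ v [MOD (WW D)] ∧
        (∀ t : IP P', ¬ prP P' t ∣ a i * n + b i) ∧ ∀ t : IP P', ¬ prP P' t ∣ a j * n + b j),
        Real.log (x / n) * (wP Q a b P' L n) ^ 2 =
        ∑ n ∈ N, if (∀ t : IP P', ¬ prP P' t ∣ a i * n + b i) ∧
          (∀ t : IP P', ¬ prP P' t ∣ a j * n + b j) then u n else 0 := by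
      rw [hN]
      exact sum_filter_and _ _ _ _ _ (fun n => by rw [hun, hwres])
    rw [h4] at h1
    refine le_trans h1 ?_
    calc _ ≤ Z * τ ^ 2 * gR Q k θ ε + x ^ (3 / 4 : ℝ) := by
          unfold gR
          linarith
      _ ≤ Z * τ ^ 2 * gR Q k θ ε + Z * (τ ^ 2 * (ε * gR Q k θ ε)) := by linarith
      _ = _ := by ring
  have hrough : ∀ g : Fin T, (1 - e ^ 2 / 4) * (Z * Ac Q k ε) ≤
      ∑ n ∈ N, if RC a b cl P' g n then u n else 0 := by
    intro g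
    have h1 := rough_mass N u hu0 (univ.filter (fun i => cl i = g)) K (hcl g) (by omega)
      (fun i n => ∀ t : IP P', ¬ prP P' t ∣ a i * n + b i) Z τ (4 * ρ) ((1 - ε) * bR Q k θ ε)
      ((1 + ε) * gR Q k θ ε) (Ac Q k ε) (1 - e ^ 2 / 4) hZ0 (by positivity) hτ4 (by positivity)
      (by positivity) hAc.le (by linarith)
      (fun i _ => (hlowr i).trans
        (le_of_eq (Finset.sum_congr rfl fun n _ => ite_inst Iff.rfl _)))
      (fun i _ j _ hij => le_trans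
        (le_of_eq (Finset.sum_congr rfl fun n _ => ite_inst Iff.rfl _)) (hpairr i j hij))
      hnumR
    exact h1.trans (le_of_eq (Finset.sum_congr rfl fun n _ => ite_inst Iff.rfl _))
  -- combination
  have hcomb := comb hT N u hu0 (PC a b cl) (RC a b cl P') e he0 (Z * Ac Q k ε) hS1 hprime hrough he1
  set Gx := N.filter (fun n =>
      (1 / 4 - e) * T ≤ ((univ.filter (fun g : Fin T => PC a b cl g n)).card : ℝ) ∧
      (1 - e) * T ≤ ((univ.filter (fun g : Fin T => RC a b cl P' g n)).card : ℝ)) with hGx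
  have hGlow : x ≤ ∑ n ∈ Gx, u n := by
    refine le_trans hZF (le_trans (le_of_eq ?_) hcomb)
    rw [hcF]
    ring
  have hGup : ∑ n ∈ Gx, u n ≤ (Gx.card : ℝ) * (Real.log x * x ^ (η / 2)) := by
    have h2 : ∑ n ∈ Gx, u n ≤ ∑ _n ∈ Gx, Real.log x * x ^ (η / 2) := by
      apply Finset.sum_le_sum
      intro n hn
      have hnN : n ∈ N := (Finset.mem_filter.1 hn).1
      obtain ⟨h1, h2⟩ := hNm n (hNI n hnN)
      have hn1 : (1 : ℝ) ≤ n := by exact_mod_cast h1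
      rw [hun]
      apply mul_le_mul _ (hptw n h1 h2).1 (sq_nonneg _) hlx.le
      apply Real.log_le_log (by positivity)
      exact div_le_self hx0.le hn1
    refine h2.trans (le_of_eq ?_)
    rw [Finset.sum_const, nsmul_eq_mul]
  have hpl' : Real.log x * x ^ (η / 2) ≤ x ^ η := by
    have := hpl
    rw [one_mul, pow_one] at this
    exact this
  have hcard : x ^ (1 - η) ≤ (Gx.card : ℝ) := by
    have h1 : x ≤ (Gx.card : ℝ) * x ^ η :=
      hGlow.trans (hGup.trans (mul_le_mul_of_nonneg_left hpl' (Nat.cast_nonneg _)))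
    have h2 : x = x ^ (1 - η) * x ^ η := by
      rw [← Real.rpow_add hx0, sub_add_cancel, Real.rpow_one]
    have h3 : x ^ (1 - η) * x ^ η ≤ (Gx.card : ℝ) * x ^ η := by
      rw [← h2]
      exact h1
    exact le_of_mul_le_mul_right h3 (Real.rpow_pos_of_pos hx0 η)
  refine hcard.trans ?_
  have hsubG : Gx ⊆ (Icc 1 ⌊x⌋₊).filter (fun n =>
          (1 / 4 - e) * T ≤
            ((univ.filter (fun g : Fin T => ∃ i, cl i = g ∧ (a i * n + b i).Prime)).card : ℝ) ∧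
          (1 - e) * T ≤
            ((univ.filter (fun g : Fin T => ∃ i, cl i = g ∧
              ((a i * n + b i).primeFactorsList.length : ℝ) ≤ 2049 / e ^ 2)).card : ℝ)) := by
    intro n hn
    obtain ⟨hnN, hn1, hn2⟩ := Finset.mem_filter.1 hn
    rw [Finset.mem_filter]
    refine ⟨hNI n hnN, ?_, ?_⟩
    · refine hn1.trans ?_
      have h1 : (univ.filter (fun g : Fin T => PC a b cl g n)) ⊆
          univ.filter (fun g : Fin T => ∃ i, cl i = g ∧ (a i * n + b i).Prime) := by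
        intro g hg
        obtain ⟨i, hi, hpi⟩ := (Finset.mem_filter.1 hg).2
        exact Finset.mem_filter.2 ⟨mem_univ _, i, (Finset.mem_filter.1 hi).2, hpi⟩
      exact_mod_cast Finset.card_le_card h1
    · refine hn2.trans ?_
      have h1 : (univ.filter (fun g : Fin T => RC a b cl P' g n)) ⊆
          univ.filter (fun g : Fin T => ∃ i, cl i = g ∧
              ((a i * n + b i).primeFactorsList.length : ℝ) ≤ 2049 / e ^ 2) := by
        intro g hg
        obtain ⟨i, hi, hpi⟩ := (Finset.mem_filter.1 hg).2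
        refine Finset.mem_filter.2 ⟨mem_univ _, i, (Finset.mem_filter.1 hi).2, ?_⟩
        have h2 : ((a i * n + b i : ℕ) : ℝ) ≤ x ^ (1 + δ) := by
          obtain ⟨h3, h4⟩ := hNm n (hNI n hnN)
          have h5 : (1 : ℝ) ≤ n := by exact_mod_cast h3
          push_cast
          calc (a i : ℝ) * n + b i ≤ (a i : ℝ) * x + b i * x := by
                have h6 : (0 : ℝ) ≤ a i := Nat.cast_nonneg _
                have h7 : (0 : ℝ) ≤ b i := Nat.cast_nonneg _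
                have h8 := mul_le_mul_of_nonneg_left h4 h6
                have h9 := mul_le_mul_of_nonneg_left hx.le h7
                linarith
            _ = ((a i : ℝ) + b i) * x := by ring
            _ ≤ Mx * x := mul_le_mul_of_nonneg_right (hMxi i) hx0.le
            _ = Mx * (Real.log x) ^ 0 * x ^ (1 : ℝ) := by rw [pow_zero, mul_one, Real.rpow_one]
            _ ≤ _ := hMxx
        have h3 := rough_omega (a i * n + b i) (WW D) D δ x hδ hx (by have := hb i; omega) hc.hdvd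
          (coprime_of_modEq (hNv n hnN) (hc.vcop' i)) (by
            intro p hp
            rw [← hP'd] at hp
            exact hpi ⟨p, hp⟩) h2
        refine h3.trans ?_
        have h4 : 1 / δ = 2048 / e ^ 2 := by
          rw [hδd, one_div_div]
        rw [h4]
        have h5 : (1 : ℝ) ≤ 1 / e ^ 2 := by
          rw [one_le_div he20]
          linarith
        have h6 : (2049 : ℝ) / e ^ 2 = 2048 / e ^ 2 + 1 / e ^ 2 := by ring
        rw [h6]
        linarith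
      exact_mod_cast Finset.card_le_card h1
  exact_mod_cast Finset.card_le_card hsubG

end Pool.Agent.Y876.AP
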