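import Mathlib
import Pool.Agent.H362R2.CM.Main
import Pool.Agent.H732R3.QuarterB
import Pool.Agent.Y876.AP.CoreS
import Pool.Agent.Y876.HT.Main

/-! Primes and almost primes in boxes of linear forms and in almost all tuples (helper876). -/

set_option autoImplicit false

namespace Pool.Agent.Y876.AP

open Finset Filter
open Pool.Agent.H361R2 Pool.Agent.H362R2.CM Pool.Agent.TH899.UG
open Pool.Agent.H732R3.BigQ

/-- the `n` for which all values are positive, at least `(1 / 4 - e) T` values are prime and at least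
`(1 - e) T` values have at most `2049 / e ^ 2` prime factors -/
def AP (e : ℝ) {T : ℕ} (f : Fin T → ℤ × ℤ) : Set ℕ :=
  {n : ℕ | (∀ i, 0 < (f i).1 * (n : ℤ) + (f i).2) ∧
    (1 / 4 - e) * T ≤ ({i : Fin T | ((f i).1 * (n : ℤ) + (f i).2).natAbs.Prime}.ncard : ℝ) ∧
    (1 - e) * T ≤ ({i : Fin T |
      (ArithmeticFunction.cardFactors ((f i).1 * (n : ℤ) + (f i).2).natAbs : ℝ) ≤
        2049 / e ^ 2}.ncard : ℝ)}

open Classical in
theorem coreS (e : ℝ) (he0 : 0 < e) (he1 : e ≤ 1 / 4) (T : ℕ) (hT : 1 ≤ T) :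
    ∃ K : ℕ, 2 ≤ K ∧ ∀ (a b : Fin (T * K) → ℕ) (cl : Fin (T * K) → Fin T),
      (∀ g, (univ.filter (fun i => cl i = g)).card = K) → (∀ i, 1 ≤ a i) → (∀ i, 1 ≤ b i) →
      (∀ i j, i ≠ j → a i * b j ≠ a j * b i) →
      (∀ p : ℕ, p.Prime → ∃ n : ℕ, ¬ p ∣ n ∧ ∀ i, ¬ p ∣ a i * n + b i) →
      ∀ η : ℝ, 0 < η → ∀ᶠ x : ℝ in atTop, x ^ (1 - η) ≤
        (((Icc 1 ⌊x⌋₊).filter (fun n =>
          (1 / 4 - e) * T ≤
            ((univ.filter (fun g : Fin T => ∃ i, cl i = g ∧ (a i * n + b i).Prime)).card : ℝ) ∧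
          (1 - e) * T ≤
            ((univ.filter (fun g : Fin T => ∃ i, cl i = g ∧
              ((a i * n + b i).primeFactorsList.length : ℝ) ≤ 2049 / e ^ 2)).card : ℝ))).card : ℝ) :=
  coreS_of Pool.Agent.H361R2.s1Upper Pool.Agent.H732R2.s2Approx Pool.Agent.H361R2.s2Model
    Pool.Agent.H410R2.bvap Pool.Agent.H732R2.pntLog Pool.Agent.H361R2.prodBound
    Pool.Agent.H361R2.omegaBound Pool.Agent.H399R2.oneDim Pool.Agent.H361R2.tailBound
    Pool.Agent.H398R2.ariSetup e he0 he1 T hT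

/-- The coloured theorem with primes and almost primes, integer forms, many values. -/
theorem coreZ (e : ℝ) (he0 : 0 < e) (he1 : e ≤ 1 / 4) (T : ℕ) :
    ∃ K : ℕ, 1 ≤ K ∧ ∀ A : Fin T → Fin K → ℤ × ℤ, (∀ g i, 0 < (A g i).1) →
    Function.Injective (fun x : Fin T × Fin K => A x.1 x.2) →
    (∀ p : ℕ, p.Prime → ∃ n : ℤ, ∀ g i, ¬ ((p : ℤ) ∣ (A g i).1 * n + (A g i).2)) →
    ∃ c : Fin T → Fin K, Big (AP e (fun g => A g (c g))) := by
  classical
  rcases Nat.eq_zero_or_pos T with hT | hT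
  · subst hT
    refine ⟨1, le_rfl, ?_⟩
    intro A _ _ _
    refine ⟨fun _ => 0, Big.mono ?_ big_univ⟩
    intro n _
    refine ⟨fun i => i.elim0, ?_, ?_⟩
    · simp
    · simp
  obtain ⟨K, hK2, hcore⟩ := coreS e he0 he1 T hT
  refine ⟨K, by omega, ?_⟩
  intro F ha hinj hadm
  obtain ⟨L, hL⟩ : ∃ L : ℝ, L = 2049 / e ^ 2 := ⟨_, rfl⟩
  have hL1 : 1 ≤ L := by
    rw [hL, le_div_iff₀ (by positivity)]
    nlinarith
  set e' : Fin T × Fin K ≃ Fin (T * K) := finProdFinEquiv with he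
  set A : Fin (T * K) → ℕ := fun i => (F (e'.symm i).1 (e'.symm i).2).1.toNat with hA
  set B : Fin (T * K) → ℤ := fun i => (F (e'.symm i).1 (e'.symm i).2).2 with hB
  have hAz : ∀ i, (A i : ℤ) = (F (e'.symm i).1 (e'.symm i).2).1 := fun i =>
    Int.toNat_of_nonneg (ha _ _).le
  obtain ⟨N, b', hbz, hb1, hnp, hadm'⟩ := shift_forms A B
    (fun i => by have := ha (e'.symm i).1 (e'.symm i).2; rw [← hAz] at this; exact_mod_cast this)
    (by
      intro i j hij
      simp only [Prod.mk.injEq] at hij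
      have h1 : (F (e'.symm i).1 (e'.symm i).2).1 = (F (e'.symm j).1 (e'.symm j).2).1 := by
        rw [← hAz, ← hAz, hij.1]
      have h2 : (e'.symm i) = (e'.symm j) := hinj (Prod.ext h1 hij.2)
      exact e'.symm.injective h2)
    (by
      intro p hp
      obtain ⟨n, hn⟩ := hadm p hp
      refine ⟨n, fun i => ?_⟩
      rw [hAz]
      exact hn _ _)
  set cl : Fin (T * K) → Fin T := fun i => (e'.symm i).1 with hcl
  have hcard : ∀ g, (univ.filter (fun i => cl i = g)).card = K := by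
    intro g
    have h1 : (univ.filter (fun i => cl i = g)) = univ.image (fun j : Fin K => e' (g, j)) := by
      ext i
      simp only [mem_filter, mem_univ, true_and, mem_image]
      constructor
      · intro h
        refine ⟨(e'.symm i).2, ?_⟩
        rw [Equiv.apply_eq_iff_eq_symm_apply]
        exact Prod.ext h.symm rfl
      · rintro ⟨j, rfl⟩
        simp [hcl]
    rw [h1, Finset.card_image_of_injective _ (by
      intro j j' h
      have := e'.injective h
      simpa using this)]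
    simp
  have hmain := hcore A b' cl hcard
    (fun i => by
      have := ha (e'.symm i).1 (e'.symm i).2; rw [← hAz] at this
      exact_mod_cast this) hb1 hnp hadm'
  rw [← hL] at hmain
  -- the set of classes and representatives
  set P : ℕ → Finset (Fin T) := fun n => univ.filter (fun g : Fin T => ∃ i, cl i = g ∧
    (A i * n + b' i).Prime) with hP
  set R : ℕ → Finset (Fin T) := fun n => univ.filter (fun g : Fin T => ∃ i, cl i = g ∧
    ((A i * n + b' i).primeFactorsList.length : ℝ) ≤ L) with hR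
  have hG : ∀ η : ℝ, 0 < η → ∀ᶠ x : ℝ in atTop,
      x ^ (1 - η) ≤ ({n : ℕ | n ∈ {n : ℕ | (1 / 4 - e) * T ≤ ((P n).card : ℝ) ∧
        (1 - e) * T ≤ ((R n).card : ℝ)} ∧ (n : ℝ) ≤ x}.ncard : ℝ) := by
    intro η hη
    filter_upwards [hmain η hη, eventually_ge_atTop (0 : ℝ)] with x hx hx0
    refine hx.trans ?_
    rw [← Set.ncard_coe_finset]
    refine Nat.cast_le.2 (Set.ncard_le_ncard ?_ (fin_le _ x))
    intro n hn
    rw [Finset.mem_coe, Finset.mem_filter, Finset.mem_Icc] at hn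
    exact ⟨hn.2, (Nat.cast_le.2 hn.1.2).trans (Nat.floor_le hx0)⟩
  have hK0 : 0 < K := by omega
  have hch : ∀ n, ∃ c : Fin T → Fin K,
      (∀ g ∈ P n, (A (e' (g, c g)) * n + b' (e' (g, c g))).Prime) ∧
      (∀ g ∈ R n, ((A (e' (g, c g)) * n + b' (e' (g, c g))).primeFactorsList.length : ℝ) ≤ L) := by
    intro n
    have h1 : ∀ g : Fin T, ∃ j : Fin K, (g ∈ P n → (A (e' (g, j)) * n + b' (e' (g, j))).Prime) ∧
        (g ∈ R n → ((A (e' (g, j)) * n + b' (e' (g, j))).primeFactorsList.length : ℝ) ≤ L) := by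
      intro g
      by_cases hg : g ∈ P n
      · obtain ⟨i, hi1, hi2⟩ := (mem_filter.1 hg).2
        have h2 : e' (g, (e'.symm i).2) = i := by
          rw [Equiv.apply_eq_iff_eq_symm_apply]
          exact Prod.ext hi1.symm rfl
        refine ⟨(e'.symm i).2, fun _ => ?_, fun _ => ?_⟩
        · rw [h2]; exact hi2
        · rw [h2, Nat.primeFactorsList_prime hi2]
          simpa using hL1
      · by_cases hg' : g ∈ R n
        · obtain ⟨i, hi1, hi2⟩ := (mem_filter.1 hg').2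
          have h2 : e' (g, (e'.symm i).2) = i := by
            rw [Equiv.apply_eq_iff_eq_symm_apply]
            exact Prod.ext hi1.symm rfl
          refine ⟨(e'.symm i).2, fun h => absurd h hg, fun _ => ?_⟩
          rw [h2]; exact hi2
        · exact ⟨⟨0, hK0⟩, fun h => absurd h hg, fun h => absurd h hg'⟩
    choose c hc using h1
    exact ⟨c, fun g hg => (hc g).1 hg, fun g hg => (hc g).2 hg⟩
  choose cf hcf using hch
  have hcover : {n : ℕ | (1 / 4 - e) * T ≤ ((P n).card : ℝ) ∧ (1 - e) * T ≤ ((R n).card : ℝ)} ⊆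
      ⋃ c : Fin T → Fin K, {n : ℕ | ((1 / 4 - e) * T ≤ ((P n).card : ℝ) ∧
        (1 - e) * T ≤ ((R n).card : ℝ)) ∧ cf n = c} := by
    intro n hn
    exact Set.mem_iUnion.2 ⟨cf n, hn, rfl⟩
  obtain ⟨c, hS⟩ := big_of_cover _ _ hG hcover
  refine ⟨c, hS.affine 1 N le_rfl (fun n => n + N) (fun n _ => by push_cast; ring) ?_⟩
  rintro n ⟨⟨h1, h2⟩, h3⟩
  have hval' : ∀ g, (F g (c g)).1 * ((n + N : ℕ) : ℤ) + (F g (c g)).2 =
      ((A (e' (g, c g)) * n + b' (e' (g, c g)) : ℕ) : ℤ) := by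
    intro g
    push_cast
    rw [hbz, hAz]
    simp only [hB, Equiv.symm_apply_apply]
    ring
  have hval : ∀ g, ((F g (c g)).1 * ((n + N : ℕ) : ℤ) + (F g (c g)).2).natAbs =
      A (e' (g, c g)) * n + b' (e' (g, c g)) := by
    intro g
    rw [hval' g, Int.natAbs_natCast]
  refine ⟨fun g => ?_, h1.trans ?_, h2.trans ?_⟩
  · rw [hval' g]
    have := hb1 (e' (g, c g))
    exact_mod_cast (by omega : 0 < A (e' (g, c g)) * n + b' (e' (g, c g)))
  · rw [← Set.ncard_coe_finset]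
    refine Nat.cast_le.2 (Set.ncard_le_ncard ?_ (Set.toFinite _))
    intro g hg
    rw [Set.mem_setOf_eq, hval g, ← h3]
    exact (hcf n).1 g hg
  · rw [← Set.ncard_coe_finset]
    refine Nat.cast_le.2 (Set.ncard_le_ncard ?_ (Set.toFinite _))
    intro g hg
    rw [Set.mem_setOf_eq, hval g, ← h3, ← hL, ArithmeticFunction.cardFactors_apply]
    exact (hcf n).2 g hg

open Classical in
/-- **Primes and almost primes in almost all admissible tuples.** -/
theorem almost_all_ap (e : ℝ) (he0 : 0 < e) (he1 : e ≤ 1 / 4) (T : ℕ) :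
    ∃ C δ : ℝ, 0 < C ∧ 0 < δ ∧ δ ≤ 1 ∧ ∀ N : ℕ, 1 ≤ N →
    ∀ V : Fin T → Finset (ℤ × ℤ), (∀ i, ∀ f ∈ V i, 0 < f.1) → (∀ i, N ≤ (V i).card) →
    (((Fintype.piFinset V).filter (fun f => Adm f ∧ ¬ Big (AP e f))).card : ℝ) ≤
      C * (N : ℝ) ^ (-δ) * ∏ i, ((V i).card : ℝ) := by
  obtain ⟨K, hK, H⟩ := coreZ e he0 he1 T
  refine Pool.Agent.Y876.HT.almost_all_gen T K (fun f => Big (AP e f)) ?_
  intro A hpos hAinj hres hadm hfinj
  exact H A hpos (Pool.Agent.Y876.HT.box_inj A hAinj hfinj)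
    (Pool.Agent.Y876.HT.box_adm T K hK A hres hadm)

end Pool.Agent.Y876.AP
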